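import Pool.Agent.Lib_MP_1209e6_sp.Crit

/-!
# Equivalence of special and Brody-special for abelian pencils: definitions

`MP_1209e6_ag`. Together with `Crit` (criterion for Zariski dense entire curves) this gives the equivalence for
abelian pencils such that no 1-form of the generic fibre lifts.
-/

set_option autoImplicit false

namespace Pool.Agent.AbPencil

open Pool.Agent.Campana

/-- The field `ℂ(t)` generated by the functions `t`. -/
noncomputable abbrev FT {K : Type} [Field K] [Algebra ℂ K] {n : ℕ} (t : Fin n → K) :
    IntermediateField ℂ K :=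
  IntermediateField.adjoin ℂ (Set.range t)

/-- No regular 1-form of the generic fibre over `ℂ(t)` lifts to a regular 1-form over `ℂ`: each rational 1-form
`ω` of `K` over `ℂ` which is regular at all places of `K` containing `ℂ(t)` vanishes on all derivations which
vanish on `t`. -/
def NoVerticalForm {K : Type} [Field K] [Algebra ℂ K] {n : ℕ} (t : Fin n → K) : Prop :=
  ∀ ω : Form K 1,
    (∀ O : ValuationSubring K, IsPlace O → (∀ a ∈ FT t, a ∈ O) →
      ∀ D : Derivation ℂ K K, (∀ a ∈ O, D a ∈ O) → ω (fun _ => D) ∈ O) →
    ∀ D : Derivation ℂ K K, (∀ i, D (t i) = 0) → ω (fun _ => D) = 0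

/-- `ℂ(t)` is algebraically closed in `K` (the fibres are connected). -/
def ClosedIn {K : Type} [Field K] [Algebra ℂ K] {n : ℕ} (t : Fin n → K) : Prop :=
  ∀ a : K, IsAlgebraic (FT t) a → a ∈ FT t

/-- the field of rational functions in `d` variables, over which the generic arcs are defined -/
abbrev RF (d : ℕ) : Type := FractionRing (MvPolynomial (Fin d) ℂ)

/-- the `i`-th variable -/
noncomputable def rv {d : ℕ} (i : Fin d) : RF d :=
  algebraMap (MvPolynomial (Fin d) ℂ) (RF d) (MvPolynomial.X i)

end Pool.Agent.AbPencil
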