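import Pool.Agent.Lib_MP_1209e6_sl.Defs
import Pool.Agent.Lib_MP_1209e6_fl.S6

/-! PIECE Q3: sections of powers of rank one subsheaves of forms come from the base. -/

set_option autoImplicit false

namespace Pool.Agent.AbPencil

open Pool.Agent.Campana Pool.Agent.CampanaFlow Pool.Agent.AbFib

private lemma Q3_upd {K : Type} [Field K] [Algebra ℂ K] (A B : Derivation ℂ K K) :
    Function.update (fun _ : Fin 1 => A) 0 B = fun _ => B := by
  ext1 a
  rw [Subsingleton.elim a 0, Function.update_self]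

private lemma Q3_add {K : Type} [Field K] [Algebra ℂ K] (ω : Form K 1) (A B : Derivation ℂ K K) :
    ω (fun _ => A + B) = ω (fun _ => A) + ω (fun _ => B) := by
  have h := ω.map_update_add (fun _ => A) 0 A B
  rwa [Q3_upd, Q3_upd, Q3_upd] at h

private lemma Q3_smul {K : Type} [Field K] [Algebra ℂ K] (ω : Form K 1) (c : K)
    (A : Derivation ℂ K K) : ω (fun _ => c • A) = c * ω (fun _ => A) := by
  have h := ω.map_update_smul (fun _ => A) 0 c A
  rwa [Q3_upd, Q3_upd, smul_eq_mul] at h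

private lemma Q3_zero {K : Type} [Field K] [Algebra ℂ K] (ω : Form K 1) :
    ω (fun _ => (0 : Derivation ℂ K K)) = 0 := by
  have h := Q3_smul ω 0 (0 : Derivation ℂ K K)
  rwa [zero_smul, zero_mul] at h

private lemma Q3_kills {K : Type} [Field K] [Algebra ℂ K] {n : ℕ} (t : Fin n → K)
    (D : Derivation ℂ K K) (hD : ∀ i, D (t i) = 0) : ∀ z ∈ FT t, D z = 0 := by
  intro z hz
  induction hz using IntermediateField.adjoin_induction with
  | mem y hy =>
    obtain ⟨i, rfl⟩ := hy
    exact hD i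
  | algebraMap c => exact D.map_algebraMap c
  | add y z _ _ h1 h2 => rw [map_add, h1, h2, add_zero]
  | mul y z _ _ h1 h2 => rw [Derivation.leibniz, h1, h2, smul_zero, smul_zero, add_zero]
  | inv y _ h1 => rw [Derivation.leibniz_inv, h1, smul_zero]

/-- Easy. -/
theorem sl_homogeneous {K : Type} [Field K] [Algebra ℂ K] {n N : ℕ} (t : Fin n → K)
    (x : Fin (N + 1) → K) (h : IsAbelianFibration t x) : AlmostHomogeneous (FT t) x := by
  refine ⟨h.ne_zero, ?_, ?_⟩
  · rw [eq_top_iff, ← h.gen, IntermediateField.adjoin_le_iff]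
    rintro _ ⟨a | l, rfl⟩
    · exact IntermediateField.subset_adjoin _ _
        (Or.inl (IntermediateField.subset_adjoin _ _ ⟨a, rfl⟩))
    · exact IntermediateField.subset_adjoin _ _ (Or.inr ⟨l, rfl⟩)
  · intro D hD
    obtain ⟨g, E, hE, -, hspan, -⟩ := h.fields
    refine Submodule.span_mono ?_ (hspan D fun a =>
      hD _ (IntermediateField.subset_adjoin _ _ ⟨a, rfl⟩))
    rintro _ ⟨i, rfl⟩
    exact hE i

/-- Let `K` be almost homogeneous over `k`, `k` algebraically closed in `K`, `ω` a 1-form and `f ω^m` regular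
at all places. If `D` is a derivation which preserves `k` and either a global vector field or `ω` vanishes on
the derivations which vanish on `k`, then `f ω(D)^m ∈ k`. Proof. `mem_intCl_chart` (fl/S6) with `w = fun _ => D`,
`isAlgebraic_of_charts` (fl/S5). (`w' 0 = w 0` in the first case; `w' 0 - w 0` vanishes on `k` in the second.) -/
theorem sl_mem_base {K : Type} [Field K] [Algebra ℂ K]
    (hfg : ∃ T : Finset K, IntermediateField.adjoin ℂ (T : Set K) = ⊤)
    (k : IntermediateField ℂ K) (hk : ∀ a : K, IsAlgebraic k a → a ∈ k) {N : ℕ}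
    (x : Fin (N + 1) → K) (h : AlmostHomogeneous k x) (ω : Form K 1) (m : ℕ) (f : K)
    (hreg : ∀ O : ValuationSubring K, IsPlace O → RegularAt O ω m f) (D : Derivation ℂ K K)
    (hD : ∀ z ∈ k, D z ∈ k)
    (hD' : GlobalField k x D ∨ ∀ E : Derivation ℂ K K, (∀ z ∈ k, E z = 0) → ω (fun _ => E) = 0) :
    f * ω (fun _ => D) ^ m ∈ k := by
  have hess : Algebra.EssFiniteType ℂ K := IntermediateField.fg_top_iff.1 hfg
  have : FinTrdeg ℂ K := inferInstance
  refine hk _ (isAlgebraic_of_charts k x h.ne_zero _ fun j =>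
    mem_intCl_chart k x h ω (fun _ => D) (fun _ => hD) ?_ f hreg j)
  intro w' h1 h2
  have e : w' = fun _ => w' 0 := by
    ext1 a
    rw [Subsingleton.elim a 0]
  rcases hD' with hG | hω
  · rw [e, h1 0 hG]
  · have h3 : ω (fun _ => w' 0 - D) = 0 := hω _ fun z hz => by
      rw [Derivation.sub_apply, h2 0 z hz, sub_self]
    have h4 := Q3_add ω (w' 0 - D) D
    rw [sub_add_cancel, h3, zero_add] at h4
    rw [e, h4]

/-- If `K` is not special then there are two independent sections of a power of a 1-form which comes from the base.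
Proof. Let `p, ω, m, f₀, f` violate `SpecialField`. All `f i / f₀` are algebraic over `k = ℂ(t)` (`isAlgebraic_ratio`, fl/S6),
so in `k`, and `hdeg` excludes `p ≥ 2`. `p = 1`: suppose `ω` does not vanish on some `D` with `D t = 0`; then `c = ω(D) ≠ 0` for some
global vector field `D` (`AlmostHomogeneous.span`), and `F = f₀ c^m ∈ k`, `F ≠ 0` (`sl_mem_base`). `c⁻¹ ω` is regular at all places
`O` which contain `k`: from `RegularAt O ω m f₀` take `u`; `(u / c)^m = f₀ u^m / F ∈ O`, so `u / c ∈ O` and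
`c⁻¹ ω(E) = (u / c) (u⁻¹ ω(E)) ∈ O` for `E` preserving `O`. `NoVerticalForm` gives `c⁻¹ ω(D) = 0`, a contradiction. -/
theorem sl_reduce {K : Type} [Field K] [Algebra ℂ K]
    (hfg : ∃ T : Finset K, IntermediateField.adjoin ℂ (T : Set K) = ⊤) {n N : ℕ} (t : Fin n → K)
    (x : Fin (N + 1) → K) (h : AlmostHomogeneous (FT t) x) (hcl : ClosedIn t) (hno : NoVerticalForm t)
    (hdeg : ∀ a ∈ FT t, ∀ b ∈ FT t, ¬ AlgebraicIndependent ℂ ![a, b]) (hs : ¬ SpecialField K) :
    ∃ (ω : Form K 1) (m : ℕ) (F : Fin 2 → K), 1 ≤ m ∧ ω ≠ 0 ∧ (∀ i, F i ≠ 0) ∧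
      Transcendental ℂ (F 1 / F 0) ∧ (∀ O : ValuationSubring K, IsPlace O → ∀ i, RegularAt O ω m (F i)) ∧
      ∀ D : Derivation ℂ K K, (∀ i, D (t i) = 0) → ω (fun _ => D) = 0 := by
  unfold SpecialField at hs
  push Not at hs
  obtain ⟨p, hp, ω, hω, m, hm, f₀, hf₀, f, hreg, hind⟩ := hs
  have hmem : ∀ i, f i / f₀ ∈ FT t := fun i =>
    hcl _ (isAlgebraic_ratio hfg (FT t) x h ω hω f₀ (f i) hf₀ fun O hO =>
      ⟨(hreg O hO).1, (hreg O hO).2 i⟩)
  by_cases hp2 : 2 ≤ p
  · exfalso
    refine hdeg _ (hmem ⟨0, by omega⟩) _ (hmem ⟨1, by omega⟩) ?_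
    have h1 := hind.comp (![⟨0, by omega⟩, ⟨1, by omega⟩] : Fin 2 → Fin p) (by
      intro a b hab
      fin_cases a <;> fin_cases b <;> simp_all)
    convert h1 using 1
    ext i
    fin_cases i <;> rfl
  obtain rfl : p = 1 := by omega
  have htr : Transcendental ℂ (f 0 / f₀) := hind.transcendental 0
  have hf1 : f 0 ≠ 0 := by
    intro h0
    rw [h0, zero_div] at htr
    exact htr isAlgebraic_zero
  refine ⟨ω, m, ![f₀, f 0], hm, hω, ?_, htr, ?_, ?_⟩
  · intro i
    fin_cases i
    · exact hf₀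
    · exact hf1
  · intro O hO i
    fin_cases i
    · exact (hreg O hO).1
    · exact (hreg O hO).2 0
  by_contra hcon
  push Not at hcon
  obtain ⟨D₁, hD₁, hD₁ω⟩ := hcon
  obtain ⟨D, hD, hDω⟩ : ∃ D : Derivation ℂ K K, GlobalField (FT t) x D ∧ ω (fun _ => D) ≠ 0 := by
    by_contra hcon
    push Not at hcon
    apply hD₁ω
    have h1 := h.span D₁ (Q3_kills t D₁ hD₁)
    clear hD₁ω hD₁
    induction h1 using Submodule.span_induction with
    | mem E hE => exact hcon E hE
    | zero => exact Q3_zero ω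
    | add A B _ _ hA hB => rw [Q3_add, hA, hB, add_zero]
    | smul c A _ hA => rw [Q3_smul, hA, mul_zero]
  set c := ω (fun _ => D) with hc
  have hF := sl_mem_base hfg (FT t) hcl x h ω m f₀ (fun O hO => (hreg O hO).1) D
    (fun z hz => by rw [hD.1 z hz]; exact (FT t).zero_mem) (Or.inl hD)
  rw [← hc] at hF
  have hcm := pow_ne_zero m hDω
  have key := hno (c⁻¹ • ω) (by
    intro O hO hkO E hE
    obtain ⟨u, hu0, hu, hfu⟩ := (hreg O hO).1
    have h1 : (u / c) ^ m ∈ O := by
      have h2 : (u / c) ^ m = f₀ * u ^ m * (f₀ * c ^ m)⁻¹ := by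
        rw [div_pow]
        field_simp
      rw [h2]
      exact O.mul_mem _ _ hfu (hkO _ (inv_mem hF))
    have h3 : u / c ∈ O := by
      rw [← O.valuation_le_one_iff] at h1 ⊢
      rw [map_pow] at h1
      exact (pow_le_one_iff (by omega)).1 h1
    have h4 : (c⁻¹ • ω) (fun _ => E) = (u / c) * (u⁻¹ * ω (fun _ => E)) := by
      rw [AlternatingMap.smul_apply, smul_eq_mul]
      field_simp
    rw [h4]
    exact O.mul_mem _ _ h3 (hu _ fun _ => hE)) D
    (fun i => hD.1 _ (IntermediateField.subset_adjoin _ _ ⟨i, rfl⟩))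
  rw [AlternatingMap.smul_apply, smul_eq_mul, ← hc] at key
  exact hDω (by
    have := mul_eq_zero.1 key
    rcases this with h1 | h1
    · exact absurd h1 (inv_ne_zero hDω)
    · exact h1)

end Pool.Agent.AbPencil
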