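import Pool.Agent.Lib_MP_1209e6_sl.T0
import Pool.Agent.Lib_MP_1209e6_fl.S6

/-! PIECE T4: sections of powers of rank one subsheaves of forms on almost homogeneous varieties; only prime
divisors are used. -/

set_option autoImplicit false

namespace Pool.Agent.AbPencil

open Pool.Agent.Campana Pool.Agent.CampanaFlow

/-- elements of `ℂ[k ∪ T]` are quotients `b / q` with `b ∈ ℂ[S]`, `q ∈ ℂ[t]` -/
private theorem clear_denoms {M : Type} [Field M] [Algebra ℂ M] {n : ℕ} (t : Fin n → M)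
    (T : Set M) (S : Set M) (hT : T ⊆ S) (ht : Set.range t ⊆ S) (z : M)
    (hz : z ∈ Algebra.adjoin ℂ ((FT t : Set M) ∪ T)) :
    ∃ b ∈ Algebra.adjoin ℂ S, ∃ q ∈ Algebra.adjoin ℂ S, q ∈ FT t ∧ q ≠ 0 ∧ z = b / q := by
  have hle : Algebra.adjoin ℂ (Set.range t) ≤ Algebra.adjoin ℂ S := Algebra.adjoin_mono ht
  have hk : ∀ q ∈ Algebra.adjoin ℂ (Set.range t), q ∈ FT t := fun q hq =>
    IntermediateField.algebra_adjoin_le_adjoin ℂ _ hq
  induction hz using Algebra.adjoin_induction with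
  | mem z hz =>
    rcases hz with hz | hz
    · have hz' : z ∈ IntermediateField.adjoin ℂ (Set.range t) := hz
      rw [IntermediateField.mem_adjoin_iff_div] at hz'
      obtain ⟨b, hb, q, hq, rfl⟩ := hz'
      by_cases hq0 : q = 0
      · exact ⟨0, Subalgebra.zero_mem _, 1, Subalgebra.one_mem _, one_mem _, one_ne_zero, by
          rw [hq0, div_zero, zero_div]⟩
      · exact ⟨b, hle hb, q, hle hq, hk q hq, hq0, rfl⟩
    · exact ⟨z, Algebra.subset_adjoin (hT hz), 1, Subalgebra.one_mem _, one_mem _, one_ne_zero, by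
        rw [div_one]⟩
  | algebraMap c =>
    exact ⟨algebraMap ℂ M c, Subalgebra.algebraMap_mem _ c, 1, Subalgebra.one_mem _, one_mem _,
      one_ne_zero, by rw [div_one]⟩
  | add x y _ _ hx hy =>
    obtain ⟨b, hb, q, hq, hqk, hq0, rfl⟩ := hx
    obtain ⟨b', hb', q', hq', hqk', hq0', rfl⟩ := hy
    refine ⟨b * q' + b' * q, add_mem (mul_mem hb hq') (mul_mem hb' hq), q * q', mul_mem hq hq',
      mul_mem hqk hqk', mul_ne_zero hq0 hq0', ?_⟩
    field_simp
  | mul x y _ _ hx hy =>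
    obtain ⟨b, hb, q, hq, hqk, hq0, rfl⟩ := hx
    obtain ⟨b', hb', q', hq', hqk', hq0', rfl⟩ := hy
    refine ⟨b * b', mul_mem hb hb', q * q', mul_mem hq hq', mul_mem hqk hqk',
      mul_ne_zero hq0 hq0', ?_⟩
    field_simp

private theorem isDivisor_of_loc {M : Type} [Field M] [Algebra ℂ M] {n : ℕ} (t : Fin n → M)
    (O : ValuationSubring M) (hO : IsPlace O) (T : Finset M)
    (hTO : ∀ r ∈ Algebra.adjoin ℂ ((FT t : Set M) ∪ T), r ∈ O)
    (hlocT : ∀ z ∈ O, ∃ b ∈ Algebra.adjoin ℂ ((FT t : Set M) ∪ T),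
      ∃ s ∈ Algebra.adjoin ℂ ((FT t : Set M) ∪ T), s ≠ 0 ∧ s⁻¹ ∈ O ∧ z = b / s) :
    IsDivisor O := by
  classical
  have hkO : ∀ q ∈ FT t, q ∈ O := fun q hq => hTO q (Algebra.subset_adjoin (Or.inl hq))
  refine ⟨hO, T ∪ Finset.univ.image t, ?_, ?_⟩
  · intro a ha
    rw [Finset.mem_union, Finset.mem_image] at ha
    rcases ha with ha | ⟨i, -, rfl⟩
    · exact hTO a (Algebra.subset_adjoin (Or.inr ha))
    · exact hkO _ (IntermediateField.subset_adjoin _ _ ⟨i, rfl⟩)
  · intro z hz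
    obtain ⟨b, hb, s, hs, hs0, hsO, rfl⟩ := hlocT z hz
    have h1 : (T : Set M) ⊆ ((T ∪ Finset.univ.image t : Finset M) : Set M) := by
      intro a ha
      rw [Finset.coe_union]
      exact Or.inl ha
    have h2 : Set.range t ⊆ ((T ∪ Finset.univ.image t : Finset M) : Set M) := by
      rintro _ ⟨i, rfl⟩
      rw [Finset.coe_union]
      exact Or.inr (by simp)
    obtain ⟨b', hb', q, hq, hqk, hq0, rfl⟩ := clear_denoms t T _ h1 h2 b hb
    obtain ⟨s', hs', q', hq', hqk', hq0', rfl⟩ := clear_denoms t T _ h1 h2 s hs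
    have hs0' : s' ≠ 0 := by
      rintro rfl
      exact hs0 (by rw [zero_div])
    refine ⟨b' * q', mul_mem hb' hq', s' * q, mul_mem hs' hq, mul_ne_zero hs0' hq0, ?_, ?_⟩
    · have h3 : (s' * q)⁻¹ = (s' / q')⁻¹ * (q'⁻¹ * q⁻¹) := by
        field_simp
      rw [h3]
      exact O.mul_mem _ _ hsO (O.mul_mem _ _ (hkO _ (inv_mem hqk')) (hkO _ (inv_mem hqk)))
    · field_simp

private theorem sl_chart_aux {M : Type} [Field M] [Algebra ℂ M] [FinTrdeg ℂ M] {n N : ℕ}
    (t : Fin n → M)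
    (x : Fin (N + 1) → M) (h : AlmostHomogeneous (FT t) x) {p m : ℕ} (ω : Form M p)
    (w : Fin p → Derivation ℂ M M) (hw : ∀ a, ∀ z ∈ FT t, w a z ∈ FT t)
    (hww : ∀ w' : Fin p → Derivation ℂ M M,
      (∀ a, w a ∈ {D : Derivation ℂ M M | GlobalField (FT t) x D} → w' a = w a) →
        (∀ a, ∀ z ∈ FT t, w' a z = w a z) → ω w' = ω w) (f : M)
    (hreg : ∀ O : ValuationSubring M, IsDivisor O → RegularAt O ω m f) (j : Fin (N + 1)) :
    f * (ω w) ^ m ∈ intCl (Chart (FT t) x j) := by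
  classical
  by_contra hcon
  obtain ⟨S, hS⟩ := chart_eq (FT t) x j
  have hfrac := chart_frac (FT t) x h.ne_zero h.gen j
  have hfracS : ∀ a : M, ∃ b ∈ Algebra.adjoin ℂ ((FT t : Set M) ∪ S),
      ∃ c ∈ Algebra.adjoin ℂ ((FT t : Set M) ∪ S), c ≠ 0 ∧ a = b / c := by
    rw [← hS]
    exact hfrac
  obtain ⟨T, hT⟩ := exists_generators (FT t) S hfracS
  rw [← hS] at hT
  have hnoeth : IsNoetherianRing (intCl (Chart (FT t) x j)) := by
    rw [hT]
    exact isNoetherianRing_adjoin (FT t) T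
  have hnoethC : IsNoetherianRing (Chart (FT t) x j) := by
    rw [hS]
    exact isNoetherianRing_adjoin (FT t) S
  obtain ⟨O, hdvr, hBO, hgO, hloc⟩ := exists_dvr (intCl (Chart (FT t) x j)) hnoeth
    (fun a => by
      obtain ⟨b, hb, c, hc, hc0, hac⟩ := hfrac a
      exact ⟨b, le_intCl _ hb, c, le_intCl _ hc, hc0, hac⟩)
    (intCl_integrallyClosed _) _ hcon
  have hO : IsPlace O := ⟨fun c => hBO _ (Subalgebra.algebraMap_mem _ c), hdvr⟩
  have hTO : ∀ r ∈ Algebra.adjoin ℂ ((FT t : Set M) ∪ T), r ∈ O := by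
    rw [← hT]
    exact hBO
  have hlocT : ∀ z ∈ O, ∃ b ∈ Algebra.adjoin ℂ ((FT t : Set M) ∪ T),
      ∃ s ∈ Algebra.adjoin ℂ ((FT t : Set M) ∪ T), s ≠ 0 ∧ s⁻¹ ∈ O ∧ z = b / s := by
    rw [← hT]
    exact hloc
  have hex : ∀ a, ∃ E' : Derivation ℂ M M, (∀ z ∈ FT t, E' z = w a z) ∧ ∀ z ∈ O, E' z ∈ O :=
    fun a => exists_lift (FT t) O hO T hTO hlocT (w a) (hw a)
  choose E' hE'k hE'O using hex
  set w' : Fin p → Derivation ℂ M M := fun a =>
    if w a ∈ {D : Derivation ℂ M M | GlobalField (FT t) x D} then w a else E' a with hw'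
  have hval : ω w' = ω w := by
    apply hww
    · intro a ha
      simp only [hw', if_pos ha]
    · intro a z hz
      simp only [hw']
      split_ifs
      · rfl
      · exact hE'k a z hz
  have hpres : ∀ a, ∀ z ∈ O, w' a z ∈ O := by
    intro a
    simp only [hw']
    split_ifs with ha
    · intro z hz
      have h1 := seidenberg (w a) (Chart (FT t) x j) hnoethC hfrac (ha.2 j)
      obtain ⟨b, hb, s, hs, hs0, hs', rfl⟩ := hloc z hz
      have h3 : w a (b / s) = s⁻¹ * (w a b) - b * (s⁻¹ * s⁻¹) * (w a s) := by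
        rw [Derivation.leibniz_div]
        simp only [smul_eq_mul]
        field_simp
      rw [h3]
      exact sub_mem (O.mul_mem _ _ hs' (hBO _ (h1 b hb))) (O.mul_mem _ _ (O.mul_mem _ _ (hBO b hb)
        (O.mul_mem _ _ hs' hs')) (hBO _ (h1 s hs)))
    · exact hE'O a
  obtain ⟨u, hu0, hu, hfu⟩ := hreg O (isDivisor_of_loc t O hO T hTO hlocT)
  have h4 := hu w' hpres
  rw [hval] at h4
  apply hgO
  have h5 : f * (ω w) ^ m = (f * u ^ m) * (u⁻¹ * ω w) ^ m := by
    rw [mul_pow, inv_pow]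
    have := pow_ne_zero m hu0
    field_simp
  rw [h5]
  exact O.mul_mem _ _ hfu (pow_mem h4 m)

/-- As `mem_intCl_chart` (fl/S6), with the same proof; there `O` is a localisation of `ℂ[k ∪ T]`, `k = FT t`. It is an
`IsDivisor`: for `S = T ∪ {t i}` clear the denominators (elements of `ℂ[k ∪ T]` are `b / q` with `b ∈ ℂ[S]` and `0 ≠ q ∈ ℂ[t]`, and
`q⁻¹ ∈ k ⊆ O`). -/
theorem sl_chart {M : Type} [Field M] [Algebra ℂ M]
    (hfg : ∃ T : Finset M, IntermediateField.adjoin ℂ (T : Set M) = ⊤) {n N : ℕ} (t : Fin n → M)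
    (x : Fin (N + 1) → M) (h : AlmostHomogeneous (FT t) x) {p m : ℕ} (ω : Form M p)
    (w : Fin p → Derivation ℂ M M) (hw : ∀ a, ∀ z ∈ FT t, w a z ∈ FT t)
    (hww : ∀ w' : Fin p → Derivation ℂ M M,
      (∀ a, w a ∈ {D : Derivation ℂ M M | GlobalField (FT t) x D} → w' a = w a) →
        (∀ a, ∀ z ∈ FT t, w' a z = w a z) → ω w' = ω w) (f : M)
    (hreg : ∀ O : ValuationSubring M, IsDivisor O → RegularAt O ω m f) (j : Fin (N + 1)) :
    f * (ω w) ^ m ∈ intCl (Chart (FT t) x j) := by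
  have hess : Algebra.EssFiniteType ℂ M := IntermediateField.fg_top_iff.1 hfg
  have : FinTrdeg ℂ M := inferInstance
  exact sl_chart_aux t x h ω w hw hww f hreg j

/-- As `isAlgebraic_ratio` (fl/S6), with `sl_chart` instead of `mem_intCl_chart`. -/
theorem sl_ratio {M : Type} [Field M] [Algebra ℂ M]
    (hfg : ∃ T : Finset M, IntermediateField.adjoin ℂ (T : Set M) = ⊤) {n N : ℕ} (t : Fin n → M)
    (x : Fin (N + 1) → M) (h : AlmostHomogeneous (FT t) x) {p m : ℕ} (ω : Form M p) (hω : ω ≠ 0)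
    (f₀ f₁ : M) (hf₀ : f₀ ≠ 0)
    (hreg : ∀ O : ValuationSubring M, IsDivisor O → RegularAt O ω m f₀ ∧ RegularAt O ω m f₁) :
    IsAlgebraic (FT t) (f₁ / f₀) := by
  have hess : Algebra.EssFiniteType ℂ M := IntermediateField.fg_top_iff.1 hfg
  have : FinTrdeg ℂ M := inferInstance
  obtain ⟨w, hw, hw0, hww⟩ := exists_contraction ω hω (FT t) (span_lifts (FT t))
    {D : Derivation ℂ M M | GlobalField (FT t) x D} (fun D hD z hz => hD.1 z hz) h.span
  have h0 := isAlgebraic_of_charts (FT t) x h.ne_zero _ fun j =>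
    sl_chart hfg t x h ω w hw hww f₀ (fun O hO => (hreg O hO).1) (m := m) j
  have h1 := isAlgebraic_of_charts (FT t) x h.ne_zero _ fun j =>
    sl_chart hfg t x h ω w hw hww f₁ (fun O hO => (hreg O hO).2) (m := m) j
  have h2 : f₁ / f₀ = (f₁ * ω w ^ m) * (f₀ * ω w ^ m)⁻¹ := by
    have := pow_ne_zero m hw0
    field_simp
  rw [h2]
  exact h1.mul h0.inv

/-- Proof. `sl_chart` with `w = fun _ => D`, `isAlgebraic_of_charts` (fl/S5). (`w' 0 = w 0` in the first case; `w' 0 - w 0` vanishes on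
`FT t` in the second.) -/
theorem sl_mem {M : Type} [Field M] [Algebra ℂ M]
    (hfg : ∃ T : Finset M, IntermediateField.adjoin ℂ (T : Set M) = ⊤) {n N : ℕ} (t : Fin n → M)
    (x : Fin (N + 1) → M) (h : AlmostHomogeneous (FT t) x) (m : ℕ) (ω : Form M 1) (f : M)
    (hreg : ∀ O : ValuationSubring M, IsDivisor O → RegularAt O ω m f) (D : Derivation ℂ M M)
    (hD : ∀ z ∈ FT t, D z ∈ FT t)
    (hD' : GlobalField (FT t) x D ∨
      ∀ E : Derivation ℂ M M, (∀ i, E (t i) = 0) → ω (fun _ => E) = 0) :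
    IsAlgebraic (FT t) (f * ω (fun _ => D) ^ m) := by
  refine isAlgebraic_of_charts (FT t) x h.ne_zero _ fun j =>
    sl_chart hfg t x h ω (fun _ => D) (fun _ => hD) ?_ f hreg j
  intro w' hG hk
  rcases hD' with hD' | hD'
  · congr 1
    funext a
    exact hG a hD'
  · have h1 : w' = Function.update (fun _ => D) 0 (D + (w' 0 - D)) := by
      funext a
      have ha : a = 0 := Subsingleton.elim _ _
      subst ha
      rw [Function.update_self]
      abel
    have h2 : Function.update (fun _ : Fin 1 => D) 0 D = fun _ => D := Function.update_eq_self _ _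
    have h3 : Function.update (fun _ : Fin 1 => D) 0 (w' 0 - D) = fun _ => (w' 0 - D) := by
      funext a
      have ha : a = 0 := Subsingleton.elim _ _
      subst ha
      rw [Function.update_self]
    rw [h1, AlternatingMap.map_update_add, h2, h3, hD' (w' 0 - D) fun i => ?_, add_zero]
    rw [Derivation.sub_apply, hk 0 (t i) (IntermediateField.subset_adjoin _ _ ⟨i, rfl⟩), sub_self]

end Pool.Agent.AbPencil
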