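import Pool.Agent.Lib_MP_1209e6_sl.T0
import Pool.Agent.Lib_MP_1209e6_sk.Z0
import Pool.Agent.Lib_MP_1209e6_sk.Z8
import Pool.Agent.Lib_51bf1a.A5_FracDer

/-! PIECE T5: algebraic elements and derivations in `K(w_1, …, w_r)`. -/

set_option autoImplicit false

namespace Pool.Agent.AbPencil

open Pool.Agent.Campana

/-- If `u` is algebraically independent over `K` and `b` in `K` is transcendental over `F`, then `b` is transcendental
over `F(u)`. -/
private theorem transc_of_ind {F K M ι : Type} [Field F] [Field K] [Field M] [Algebra F K] [Algebra K M]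
    [Algebra F M] [IsScalarTower F K M] (u : ι → M) (hu : AlgebraicIndependent K u) (b : K)
    (hb : Transcendental F b) :
    Transcendental (IntermediateField.adjoin F (Set.range u)) (algebraMap K M b) := by
  have h1 : AlgebraicIndependent F (fun _ : Unit => b) := algebraicIndependent_unique_type_iff.2 hb
  have h2 := (h1.sumElim_comp hu)
  have h3 : AlgebraicIndependent F (Sum.elim (algebraMap K M ∘ fun _ : Unit => b) u) := by
    have := (algebraicIndependent_equiv (Equiv.sumComm Unit ι)
      (f := Sum.elim u (algebraMap K M ∘ fun _ : Unit => b)) (R := F)).2 h2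
    convert this using 1
    ext x
    rcases x with x | x <;> rfl
  have h4 := (AlgebraicIndependent.sumElim_iff.1 h3).2
  have h5 : Transcendental (Algebra.adjoin F (Set.range u)) (algebraMap K M b) :=
    algebraicIndependent_unique_type_iff.1 h4
  intro h6
  exact h5 (IntermediateField.isAlgebraic_adjoin_iff.1 h6)

/-- Proof. The elements `w_i ^ n_i / δ_i` are algebraically independent over `K` (`algebraicIndependent_tw` of the folder sk, over
`ℂ` only? the proof over `K` is the same: the `w_i` are algebraic over `K(w_i ^ n_i / δ_i)`, or degrees). If `a` were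
transcendental over `ℂ(t)` then, `c_1, …, c_q` a transcendence basis of `ℂ(t)`, the family `(c, a)` in `K` is algebraically
independent over `ℂ`, so `(c, a, w ^ n / δ)` is algebraically independent over `ℂ`, but `a` is algebraic over
`ℂ(t)(w ^ n / δ)`, which is algebraic over `ℂ(c)(w ^ n / δ)`. (Or directly: take a nonzero polynomial relation for `a` with
coefficients in `ℂ(t)[u_1, …, u_r]`, `u = w ^ n / δ`, and compare the coefficients of the monomials in `u`, which are
linearly independent over `K`: one of them is a nonzero polynomial relation of `a` over `ℂ(t)`.) -/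
theorem sl_descend {K : Type} [Field K] [Algebra ℂ K] {n₀ r : ℕ} (t : Fin n₀ → K) (δ : Fin r → K)
    (hδ : ∀ i, δ i ≠ 0) (n : Fin r → ℕ) (hn : ∀ i, 1 ≤ n i) (a : K)
    (ha : IsAlgebraic (FT (twist t δ n)) (algebraMap K (KW K r) a)) : IsAlgebraic (FT t) a := by
  by_contra hb
  set u : Fin r → KW K r := fun i => wv i ^ n i / algebraMap K (KW K r) (δ i) with hu
  have h1 : Transcendental (IntermediateField.adjoin (FT t) (Set.range u)) (algebraMap K (KW K r) a) :=
    transc_of_ind u (algebraicIndependent_tw δ hδ n hn) a hb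
  apply h1
  have h2 : FT (twist t δ n) ≤
      (IntermediateField.adjoin (FT t) (Set.range u)).restrictScalars ℂ := by
    rw [IntermediateField.adjoin_le_iff]
    rintro x ⟨i, rfl⟩
    change twist t δ n i ∈ IntermediateField.adjoin (FT t) (Set.range u)
    induction i using Fin.addCases with
    | left i =>
      rw [twist, Fin.append_left]
      exact (IntermediateField.adjoin (FT t) (Set.range u)).algebraMap_mem
        ⟨t i, IntermediateField.subset_adjoin _ _ ⟨i, rfl⟩⟩
    | right i =>
      rw [twist, Fin.append_right]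
      exact IntermediateField.subset_adjoin _ _ ⟨i, rfl⟩
  obtain ⟨p, hp0, hp⟩ := ha
  let f : FT (twist t δ n) →+* IntermediateField.adjoin (FT t) (Set.range u) :=
    (IntermediateField.inclusion h2).toRingHom
  refine ⟨p.map f, ?_, ?_⟩
  · rwa [Ne, Polynomial.map_eq_zero_iff f.injective]
  · rw [Polynomial.aeval_def, Polynomial.eval₂_map]
    exact hp

/-- the derivation of `K[w]` given by a derivation of the coefficients -/
private noncomputable def mvFun {K : Type} [Field K] [Algebra ℂ K] {r : ℕ} (E : Derivation ℂ K K)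
    (p : MvPolynomial (Fin r) K) : MvPolynomial (Fin r) K :=
  ∑ m ∈ p.support, MvPolynomial.monomial m (E (p.coeff m))

private theorem mvFun_coeff {K : Type} [Field K] [Algebra ℂ K] {r : ℕ} (E : Derivation ℂ K K)
    (p : MvPolynomial (Fin r) K) (m : Fin r →₀ ℕ) : (mvFun E p).coeff m = E (p.coeff m) := by
  classical
  rw [mvFun, MvPolynomial.coeff_sum]
  simp only [MvPolynomial.coeff_monomial]
  rw [Finset.sum_ite_eq' p.support m]
  split_ifs with h
  · rfl
  · rw [MvPolynomial.notMem_support_iff.1 h, map_zero]

private noncomputable def mvDer {K : Type} [Field K] [Algebra ℂ K] {r : ℕ} (E : Derivation ℂ K K) :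
    Derivation ℂ (MvPolynomial (Fin r) K) (MvPolynomial (Fin r) K) :=
  Derivation.mk'
    { toFun := mvFun E
      map_add' := fun p q => by
        ext n
        simp only [mvFun_coeff, MvPolynomial.coeff_add, map_add]
      map_smul' := fun c p => by
        ext n
        simp only [mvFun_coeff, MvPolynomial.coeff_smul, Derivation.map_smul, RingHom.id_apply] }
    fun p q => by
      classical
      ext n
      change (mvFun E (p * q)).coeff n = (p * mvFun E q + q * mvFun E p).coeff n
      rw [mvFun_coeff, MvPolynomial.coeff_mul, map_sum, mul_comm q, MvPolynomial.coeff_add,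
        MvPolynomial.coeff_mul, MvPolynomial.coeff_mul, ← Finset.sum_add_distrib]
      refine Finset.sum_congr rfl fun ij _ => ?_
      rw [mvFun_coeff, mvFun_coeff, Derivation.leibniz, smul_eq_mul, smul_eq_mul]
      ring

private theorem mvDer_C {K : Type} [Field K] [Algebra ℂ K] {r : ℕ} (E : Derivation ℂ K K) (a : K) :
    mvDer E (MvPolynomial.C a : MvPolynomial (Fin r) K) = MvPolynomial.C (E a) := by
  classical
  ext n
  change (mvFun E (MvPolynomial.C a)).coeff n = _
  rw [mvFun_coeff, MvPolynomial.coeff_C, MvPolynomial.coeff_C]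
  split_ifs
  · rfl
  · exact map_zero _

private theorem mvDer_X {K : Type} [Field K] [Algebra ℂ K] {r : ℕ} (E : Derivation ℂ K K) (i : Fin r) :
    mvDer E (MvPolynomial.X i : MvPolynomial (Fin r) K) = 0 := by
  classical
  ext n
  change (mvFun E (MvPolynomial.X i)).coeff n = _
  rw [mvFun_coeff, MvPolynomial.coeff_X, MvPolynomial.coeff_zero]
  split_ifs
  · exact Derivation.map_one_eq_zero _
  · exact map_zero _

/-- Proof. A derivation of `K` extends to `K[w]` with prescribed values on the `w_i` (coefficientwise plus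
`MvPolynomial.mkDerivation`), and to the fraction field. Prescribe `D w_i = w_i E(δ_i) / (n_i δ_i)`. -/
theorem sl_ext {K : Type} [Field K] [Algebra ℂ K] {r : ℕ} (δ : Fin r → K)
    (hδ : ∀ i, δ i ≠ 0) (n : Fin r → ℕ) (hn : ∀ i, 1 ≤ n i) (E : Derivation ℂ K K) :
    ∃ D : Derivation ℂ (KW K r) (KW K r),
      (∀ a, D (algebraMap K (KW K r) a) = algebraMap K (KW K r) (E a)) ∧
      ∀ i, D (wv i ^ n i / algebraMap K (KW K r) (δ i)) = 0 := by
  classical
  have hK : CharZero K := charZero_of_injective_algebraMap (algebraMap ℂ K).injective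
  let d₁ : Derivation ℂ (MvPolynomial (Fin r) K) (MvPolynomial (Fin r) K) :=
    (MvPolynomial.mkDerivation K fun i : Fin r =>
      MvPolynomial.C (E (δ i) / (n i * δ i)) * MvPolynomial.X i :
      Derivation K (MvPolynomial (Fin r) K) (MvPolynomial (Fin r) K)).restrictScalars ℂ
  let d : Derivation ℂ (MvPolynomial (Fin r) K) (MvPolynomial (Fin r) K) := mvDer E + d₁
  have hC : ∀ a, algebraMap K (KW K r) a =
      algebraMap (MvPolynomial (Fin r) K) (KW K r) (MvPolynomial.C a) := fun a => by
    rw [IsScalarTower.algebraMap_apply K (MvPolynomial (Fin r) K) (KW K r)]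
    rfl
  have hd1 : ∀ a, d (MvPolynomial.C a) = MvPolynomial.C (E a) := by
    intro a
    have : d₁ (MvPolynomial.C a) = 0 := by
      change MvPolynomial.mkDerivation K _ (MvPolynomial.C a) = 0
      exact Derivation.map_algebraMap _ a
    change mvDer E (MvPolynomial.C a) + d₁ (MvPolynomial.C a) = _
    rw [this, add_zero, mvDer_C]
  have hd2 : ∀ i, d (MvPolynomial.X i) = MvPolynomial.C (E (δ i) / (n i * δ i)) * MvPolynomial.X i := by
    intro i
    have : d₁ (MvPolynomial.X i) = MvPolynomial.C (E (δ i) / (n i * δ i)) * MvPolynomial.X i := by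
      change MvPolynomial.mkDerivation K _ (MvPolynomial.X i) = _
      exact MvPolynomial.mkDerivation_X _ _ _
    change mvDer E (MvPolynomial.X i) + d₁ (MvPolynomial.X i) = _
    rw [this, mvDer_X, zero_add]
  have hD1 : ∀ a, Pool.Agent.Lib51bf1a.extDer (K := KW K r) d (algebraMap K (KW K r) a) =
      algebraMap K (KW K r) (E a) := by
    intro a
    rw [hC, Pool.Agent.Lib51bf1a.extDer_algebraMap, hd1, hC]
  refine ⟨Pool.Agent.Lib51bf1a.extDer (K := KW K r) d, hD1, fun i => ?_⟩
  have hδ' : algebraMap K (KW K r) (δ i) ≠ 0 := by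
    rw [Ne, map_eq_zero]
    exact hδ i
  have hn' : (n i : KW K r) ≠ 0 := by
    have h1 : (n i : K) ≠ 0 := Nat.cast_ne_zero.2 (by have := hn i; omega)
    have h2 : algebraMap K (KW K r) (n i : K) ≠ 0 := by rwa [Ne, map_eq_zero]
    rwa [map_natCast] at h2
  have hw : Pool.Agent.Lib51bf1a.extDer (K := KW K r) d (wv i : KW K r) =
      algebraMap K (KW K r) (E (δ i)) / ((n i : KW K r) * algebraMap K (KW K r) (δ i)) * wv i := by
    change Pool.Agent.Lib51bf1a.extDer (K := KW K r) d
      (algebraMap (MvPolynomial (Fin r) K) (KW K r) (MvPolynomial.X i)) = _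
    rw [Pool.Agent.Lib51bf1a.extDer_algebraMap, hd2, map_mul, ← hC, map_div₀, map_mul,
      map_natCast]
    rfl
  rw [Derivation.leibniz_div, Derivation.leibniz_pow, hw, hD1]
  have h3 : wv (K := K) i ^ n i = wv i ^ (n i - 1) * wv i := by
    rw [← pow_succ, Nat.sub_add_cancel (hn i)]
  rw [h3]
  simp only [smul_eq_mul, nsmul_eq_mul]
  have h4 : (algebraMap K (KW K r) (δ i)) * ((n i : KW K r) * (wv i ^ (n i - 1) *
      (algebraMap K (KW K r) (E (δ i)) / ((n i : KW K r) * algebraMap K (KW K r) (δ i)) * wv i))) -
      wv i ^ (n i - 1) * wv i * algebraMap K (KW K r) (E (δ i)) = 0 := by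
    field_simp
    ring
  rw [h4, mul_zero]

/-- `K(w_1, …, w_r)` is finitely generated. -/
theorem sl_fg {K : Type} [Field K] [Algebra ℂ K]
    (hfg : ∃ T : Finset K, IntermediateField.adjoin ℂ (T : Set K) = ⊤) (r : ℕ) :
    ∃ T : Finset (KW K r), IntermediateField.adjoin ℂ (T : Set (KW K r)) = ⊤ := by
  classical
  obtain ⟨T, hT⟩ := hfg
  let S : Finset (KW K r) := T.image (algebraMap K (KW K r)) ∪ Finset.univ.image wv
  refine ⟨S, ?_⟩
  rw [eq_top_iff]
  intro z _
  have h1 : ∀ a : K, algebraMap K (KW K r) a ∈ IntermediateField.adjoin ℂ (S : Set (KW K r)) := by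
    have h2 : IntermediateField.adjoin ℂ (T : Set K) ≤
        (IntermediateField.adjoin ℂ (S : Set (KW K r))).comap
          (IsScalarTower.toAlgHom ℂ K (KW K r)) := by
      rw [IntermediateField.adjoin_le_iff]
      intro a ha
      change algebraMap K (KW K r) a ∈ IntermediateField.adjoin ℂ (S : Set (KW K r))
      apply IntermediateField.subset_adjoin
      rw [Finset.mem_coe, Finset.mem_union]
      exact Or.inl (Finset.mem_image_of_mem _ ha)
    intro a
    have h3 : a ∈ IntermediateField.adjoin ℂ (T : Set K) := by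
      rw [hT]
      trivial
    exact h2 h3
  have h2 : ∀ i, (wv i : KW K r) ∈ IntermediateField.adjoin ℂ (S : Set (KW K r)) := by
    intro i
    apply IntermediateField.subset_adjoin
    rw [Finset.mem_coe, Finset.mem_union]
    exact Or.inr (Finset.mem_image_of_mem _ (Finset.mem_univ i))
  have h3 : ∀ p : MvPolynomial (Fin r) K, algebraMap (MvPolynomial (Fin r) K) (KW K r) p ∈
      IntermediateField.adjoin ℂ (S : Set (KW K r)) := by
    intro p
    induction p using MvPolynomial.induction_on with
    | C c =>
      have : algebraMap (MvPolynomial (Fin r) K) (KW K r) (MvPolynomial.C c) =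
          algebraMap K (KW K r) c := by
        rw [IsScalarTower.algebraMap_apply K (MvPolynomial (Fin r) K) (KW K r)]
        rfl
      rw [this]
      exact h1 c
    | add p q hp hq => rw [map_add]; exact add_mem hp hq
    | mul_X p i hp => rw [map_mul]; exact mul_mem hp (h2 i)
  obtain ⟨p, q, hq, rfl⟩ := IsFractionRing.div_surjective (A := MvPolynomial (Fin r) K) z
  exact div_mem (h3 p) (h3 q)

end Pool.Agent.AbPencil
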