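import Pool.Agent.Lib_MP_1209e6_sl.T3
import Pool.Agent.Lib_MP_1209e6_sl.T4
import Pool.Agent.Lib_MP_1209e6_sl.T5

/-! PIECE T6: the reduction to the base. -/

set_option autoImplicit false

namespace Pool.Agent.AbPencil

open Pool.Agent.Campana Pool.Agent.CampanaFlow

/-- algebraic elements over a subfield of a valuation ring lie in the valuation ring -/
private lemma slt6_mem {M : Type} [Field M] [Algebra ℂ M] (k : IntermediateField ℂ M)
    (O : ValuationSubring M) (hk : ∀ a ∈ k, a ∈ O) (g : M) (hg : IsAlgebraic k g) : g ∈ O := by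
  have h1 : IsIntegral k g := hg.isIntegral
  obtain ⟨q, hq, hq0⟩ := h1
  have h2 : IsIntegral O g := by
    refine ⟨q.map (RingHom.codRestrict (algebraMap k M) O.toSubring fun a => hk _ a.2 : k →+* O),
      hq.map _, ?_⟩
    rw [Polynomial.eval₂_map]
    exact hq0
  obtain ⟨y, hy⟩ := IsIntegrallyClosed.isIntegral_iff.1 h2
  rw [← hy]
  exact y.2

private lemma slt6_pow {M : Type} [Field M] (O : ValuationSubring M) (m : ℕ) (hm : 1 ≤ m) (g : M)
    (hg : g ^ m ∈ O) : g ∈ O := by
  rcases O.mem_or_inv_mem g with h | h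
  · exact h
  · by_cases hg0 : g = 0
    · rw [hg0]
      exact O.zero_mem
    · obtain ⟨n, rfl⟩ : ∃ n, m = n + 1 := ⟨m - 1, by omega⟩
      have h1 : g = g ^ (n + 1) * (g⁻¹) ^ n := by
        rw [pow_succ, inv_pow]
        have := pow_ne_zero n hg0
        field_simp
      rw [h1]
      exact mul_mem hg (pow_mem h n)

private lemma slt6_span {M : Type} [Field M] [Algebra ℂ M] (ω : Form M 1)
    (G : Set (Derivation ℂ M M)) (h : ∀ D ∈ G, ω (fun _ => D) = 0) :
    ∀ D ∈ Submodule.span M G, ω (fun _ => D) = 0 := by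
  have hupd : ∀ D : Derivation ℂ M M, (fun _ : Fin 1 => D) =
      Function.update (fun _ : Fin 1 => (0 : Derivation ℂ M M)) 0 D := by
    intro D
    ext1 i
    rw [Subsingleton.elim i 0, Function.update_self]
  intro D hD
  induction hD using Submodule.span_induction with
  | mem D hD => exact h D hD
  | zero =>
    rw [hupd]
    exact ω.map_update_zero _ _
  | add x y _ _ hx hy =>
    rw [hupd] at hx hy ⊢
    rw [AlternatingMap.map_update_add, hx, hy, add_zero]
  | smul c x _ hx =>
    rw [hupd] at hx ⊢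
    rw [AlternatingMap.map_update_smul, hx, smul_zero]

/-- the extension of a derivation preserving `FT t` preserves `FT (twist t δ n)` -/
private lemma slt6_pres {K : Type} [Field K] [Algebra ℂ K] {n₀ r : ℕ} (t : Fin n₀ → K)
    (δ : Fin r → K) (n : Fin r → ℕ) (E : Derivation ℂ K K) (hE : ∀ z ∈ FT t, E z ∈ FT t)
    (D : Derivation ℂ (KW K r) (KW K r))
    (hD : ∀ a, D (algebraMap K (KW K r) a) = algebraMap K (KW K r) (E a))
    (hD' : ∀ i, D (wv i ^ n i / algebraMap K (KW K r) (δ i)) = 0) :
    ∀ z ∈ FT (twist t δ n), D z ∈ FT (twist t δ n) := by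
  have hin : ∀ z ∈ FT t, algebraMap K (KW K r) z ∈ FT (twist t δ n) := by
    intro z hz
    induction hz using IntermediateField.adjoin_induction with
    | mem x hx =>
      obtain ⟨i, rfl⟩ := hx
      refine IntermediateField.subset_adjoin _ _ ⟨Fin.castAdd r i, ?_⟩
      unfold twist
      rw [Fin.append_left]
    | algebraMap x =>
      rw [← IsScalarTower.algebraMap_apply]
      exact IntermediateField.algebraMap_mem _ _
    | add x y hx hy ihx ihy => rw [map_add]; exact add_mem ihx ihy
    | mul x y hx hy ihx ihy => rw [map_mul]; exact mul_mem ihx ihy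
    | inv x hx ihx => rw [map_inv₀]; exact inv_mem ihx
  refine fun z hz => RatPlace.der_adjoin D _ ?_ z hz
  rintro _ ⟨i, rfl⟩
  refine Fin.addCases (fun a => ?_) (fun b => ?_) i
  · unfold twist
    rw [Fin.append_left, hD]
    exact hin _ (hE _ (IntermediateField.subset_adjoin _ _ ⟨a, rfl⟩))
  · have h1 : twist t δ n (Fin.natAdd n₀ b) = wv b ^ n b / algebraMap K (KW K r) (δ b) := by
      unfold twist
      rw [Fin.append_right]
    rw [h1, hD']
    exact zero_mem _

/-- Proof. Let `p, ω, m, f₀, f` violate `SpecialField`, `k = FT (twist t δ n)`, `ω'` the pull back of `ω` to `M = KW K r` (`sl_exists_pull`); it is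
not zero (`sl_pull_apply`, `sl_ext`). The sections are regular at all prime divisors of `M` (`sl_transfer`). All `f i / f₀` are
algebraic over `k` (`sl_ratio`), so over `FT t` (`sl_descend`), so in `FT t`; `hdeg` excludes `p ≥ 2`. `p = 1`: suppose `ω` does not
vanish on some `E` with `E t = 0`. Its extension `D` (`sl_ext`) vanishes on `twist t δ n` and `ω' (D) ≠ 0` (`sl_pull_apply`), so
`c = ω'(D₁) ≠ 0` for a global vector field `D₁` (`AlmostHomogeneous.span`), and `G = f₀ c^m` is algebraic over `k` (`sl_mem`), so `G` and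
`G⁻¹` are in all valuation rings containing `k`. `c⁻¹ ω'` is regular at all prime divisors `O` which contain `k`: from
`RegularAt O ω' m f₀` take `u`; `(u / c)^m = f₀ u^m / G ∈ O`, so `u / c ∈ O` and `c⁻¹ ω'(D) = (u / c) (u⁻¹ ω'(D)) ∈ O` for `D` preserving `O`.
`NoLift` gives `c⁻¹ ω'(D₁) = 0`, a contradiction. So `ω` vanishes on the `E` with `E t = 0`, and `ω'` on the `D` with
`D (twist t δ n) = 0` (`sl_pull_zero`). If `E` preserves `FT t` then its extension `D` (`sl_ext`) preserves `k`, and
`F i ω(E)^m` is algebraic over `k` (`sl_mem`), so over `FT t`, so in `FT t`. -/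
theorem sl_reduce_tw {K : Type} [Field K] [Algebra ℂ K]
    (hfg : ∃ T : Finset K, IntermediateField.adjoin ℂ (T : Set K) = ⊤) {n₀ r N : ℕ} (t : Fin n₀ → K)
    (δ : Fin r → K) (hδ : ∀ i, δ i ≠ 0) (n : Fin r → ℕ) (hn : ∀ i, 1 ≤ n i)
    (x : Fin (N + 1) → KW K r) (h : AlmostHomogeneous (FT (twist t δ n)) x) (hcl : ClosedIn t)
    (hno : NoLift (twist t δ n)) (hdeg : ∀ a ∈ FT t, ∀ b ∈ FT t, ¬ AlgebraicIndependent ℂ ![a, b])
    (hs : ¬ SpecialField K) : HasBaseSections t := by
  classical
  unfold SpecialField at hs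
  push Not at hs
  obtain ⟨p, hp, ω, hω, m, hm, f₀, hf₀, f, hreg, hind⟩ := hs
  -- the pull back
  have hext : ∀ E : Derivation ℂ K K, ∃ D : Derivation ℂ (KW K r) (KW K r),
      (∀ a, D (algebraMap K (KW K r) a) = algebraMap K (KW K r) (E a)) ∧
      ∀ i, D (wv i ^ n i / algebraMap K (KW K r) (δ i)) = 0 := sl_ext δ hδ n hn
  have hext' : ∀ E : Derivation ℂ K K, ∃ D : Derivation ℂ (KW K r) (KW K r), ∀ a : K,
      D (algebraMap K (KW K r) a) = algebraMap K (KW K r) (E a) := fun E => by
    obtain ⟨D, hD, _⟩ := hext E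
    exact ⟨D, hD⟩
  obtain ⟨ω', hpull⟩ := sl_exists_pull (M := KW K r) hfg ω
  have hinj : Function.Injective (algebraMap K (KW K r)) := (algebraMap K (KW K r)).injective
  have hω' : ω' ≠ 0 := by
    intro h0
    apply hω
    ext E
    choose D hD using fun i => hext' (E i)
    have h1 := sl_pull_apply hfg hpull E D hD
    rw [h0] at h1
    apply hinj
    rw [← h1]
    simp
  have hfg' := sl_fg hfg r
  have hreg' : ∀ g : K, (∀ O : ValuationSubring K, IsPlace O → RegularAt O ω m g) →
      ∀ O' : ValuationSubring (KW K r), IsDivisor O' → RegularAt O' ω' m (algebraMap K (KW K r) g) :=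
    fun g hg O' hO' => sl_transfer hfg hext' hpull m g hg O' hO'
  have hr0 := hreg' f₀ fun O hO => (hreg O hO).1
  have hri : ∀ i, ∀ O' : ValuationSubring (KW K r), IsDivisor O' →
      RegularAt O' ω' m (algebraMap K (KW K r) (f i)) := fun i => hreg' (f i) fun O hO => (hreg O hO).2 i
  have hf₀' : algebraMap K (KW K r) f₀ ≠ 0 := (_root_.map_ne_zero _).2 hf₀
  have hk : ∀ i, f i / f₀ ∈ FT t := by
    intro i
    have h1 := sl_ratio hfg' (twist t δ n) x h ω' hω' (algebraMap K (KW K r) f₀)
      (algebraMap K (KW K r) (f i)) hf₀' fun O hO => ⟨hr0 O hO, hri i O hO⟩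
    rw [← map_div₀] at h1
    exact hcl _ (sl_descend t δ hδ n hn _ h1)
  have hp1 : p = 1 := by
    by_contra hne
    have hp2 : 2 ≤ p := by omega
    refine hdeg _ (hk ⟨0, by omega⟩) _ (hk ⟨1, by omega⟩) ?_
    have h1 := hind.comp (Fin.castLE hp2) (Fin.castLE_injective hp2)
    have h2 : (fun i => f i / f₀) ∘ Fin.castLE hp2 =
        ![f ⟨0, by omega⟩ / f₀, f ⟨1, by omega⟩ / f₀] := by
      ext1 i
      fin_cases i <;> rfl
    rw [h2] at h1
    exact h1
  subst hp1
  have htr : Transcendental ℂ (f 0 / f₀) :=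
    (algebraicIndependent_unique_type_iff (ι := Fin 1)).1 hind
  have hf1 : f 0 ≠ 0 := by
    intro h0
    apply htr
    rw [h0, zero_div]
    exact isAlgebraic_zero
  -- a form which comes from the base
  have hA : ∀ E : Derivation ℂ K K, (∀ i, E (t i) = 0) → ω (fun _ => E) = 0 := by
    intro E hE
    by_contra hne
    obtain ⟨D, hD, hDw⟩ := hext E
    have hDt : ∀ i, D (twist t δ n i) = 0 := by
      intro i
      refine Fin.addCases (fun a => ?_) (fun b => ?_) i
      · have h1 : twist t δ n (Fin.castAdd r a) = algebraMap K (KW K r) (t a) := by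
          unfold twist
          rw [Fin.append_left]
        rw [h1, hD, hE, map_zero]
      · have h1 : twist t δ n (Fin.natAdd n₀ b) = wv b ^ n b / algebraMap K (KW K r) (δ b) := by
          unfold twist
          rw [Fin.append_right]
        rw [h1, hDw]
    have hDk : ∀ a ∈ FT (twist t δ n), D a = 0 := by
      intro a ha
      refine RatPlace.der_adjoin_zero D _ ?_ a ha
      rintro _ ⟨i, rfl⟩
      exact hDt i
    have hωD : ω' (fun _ => D) ≠ 0 := by
      rw [sl_pull_apply hfg hpull (fun _ => E) (fun _ => D) fun _ => hD]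
      exact (_root_.map_ne_zero _).2 hne
    obtain ⟨D₁, hD₁, hc⟩ : ∃ D₁ : Derivation ℂ (KW K r) (KW K r),
        GlobalField (FT (twist t δ n)) x D₁ ∧ ω' (fun _ => D₁) ≠ 0 := by
      by_contra hno'
      push Not at hno'
      exact hωD (slt6_span ω' _ (fun D hD => hno' D hD) D (h.span D hDk))
    obtain ⟨c, hcdef⟩ : ∃ c, c = ω' (fun _ => D₁) := ⟨_, rfl⟩
    rw [← hcdef] at hc
    have hG := sl_mem hfg' (twist t δ n) x h m ω' (algebraMap K (KW K r) f₀) hr0 D₁
      (fun z hz => by rw [hD₁.1 z hz]; exact zero_mem _) (Or.inl hD₁)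
    rw [← hcdef] at hG
    have hG0 : algebraMap K (KW K r) f₀ * c ^ m ≠ 0 := mul_ne_zero hf₀' (pow_ne_zero m hc)
    have h2 := hno (c⁻¹ • ω') ?_ D₁ ?_
    · rw [AlternatingMap.smul_apply, smul_eq_mul, ← hcdef, inv_mul_cancel₀ hc] at h2
      exact one_ne_zero h2
    · intro O hO hkO D' hD'
      obtain ⟨u, hu0, hu, hfu⟩ := hr0 O hO
      have h3 : (algebraMap K (KW K r) f₀ * c ^ m)⁻¹ ∈ O := slt6_mem _ O hkO _ hG.inv
      have h4 : (u / c) ^ m ∈ O := by
        have h5 : (u / c) ^ m = (algebraMap K (KW K r) f₀ * u ^ m) *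
            (algebraMap K (KW K r) f₀ * c ^ m)⁻¹ := by
          rw [div_pow]
          have := pow_ne_zero m hc
          field_simp
        rw [h5]
        exact mul_mem hfu h3
      have h6 := slt6_pow O m hm _ h4
      have h7 := hu (fun _ => D') fun _ => hD'
      have h8 : (c⁻¹ • ω') (fun _ => D') = (u / c) * (u⁻¹ * ω' fun _ => D') := by
        rw [AlternatingMap.smul_apply, smul_eq_mul]
        field_simp
      rw [h8]
      exact mul_mem h6 h7
    · intro i
      exact hD₁.1 _ (IntermediateField.subset_adjoin _ _ ⟨i, rfl⟩)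
  refine ⟨ω, m, ![f₀, f 0], hm, hω, ?_, htr, ?_, hA, ?_⟩
  · intro i
    fin_cases i
    · exact hf₀
    · exact hf1
  · intro O hO i
    fin_cases i
    · exact (hreg O hO).1
    · exact (hreg O hO).2 0
  · intro E hE i
    obtain ⟨D, hD, hDw⟩ := hext E
    have hpres := slt6_pres t δ n E hE D hD hDw
    have hω0 : ∀ D' : Derivation ℂ (KW K r) (KW K r), (∀ i, D' (twist t δ n i) = 0) →
        ω' (fun _ => D') = 0 := by
      intro D' hD'
      refine sl_pull_zero hfg hpull t hA D' fun a => ?_
      have h1 : twist t δ n (Fin.castAdd r a) = algebraMap K (KW K r) (t a) := by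
        unfold twist
        rw [Fin.append_left]
      rw [← h1]
      exact hD' _
    have hval : ω' (fun _ => D) = algebraMap K (KW K r) (ω fun _ => E) :=
      sl_pull_apply hfg hpull (fun _ => E) (fun _ => D) fun _ => hD
    have hgen : ∀ g : K, (∀ O' : ValuationSubring (KW K r), IsDivisor O' →
        RegularAt O' ω' m (algebraMap K (KW K r) g)) → g * ω (fun _ => E) ^ m ∈ FT t := by
      intro g hg
      have h2 := sl_mem hfg' (twist t δ n) x h m ω' (algebraMap K (KW K r) g) hg D hpres (Or.inr hω0)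
      rw [hval, ← map_pow, ← map_mul] at h2
      exact hcl _ (sl_descend t δ hδ n hn _ h2)
    fin_cases i
    · exact hgen f₀ hr0
    · exact hgen (f 0) (hri 0)

end Pool.Agent.AbPencil
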