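import Pool.Agent.Lib_MP_1209e6_sl.Defs

/-! PIECE Q1a: orders of polynomials in `T`. -/

set_option autoImplicit false

namespace Pool.Agent.AbPencil

open Pool.Agent.Campana Polynomial

private lemma Q1a_one {K : Type} [Field K] {O : ValuationSubring K} {v : K → ℤ} (hv : IsOrd O v) :
    v 1 = 0 := by
  have h := hv.1 1 1 one_ne_zero one_ne_zero
  rw [mul_one] at h
  omega

private lemma Q1a_inv {K : Type} [Field K] {O : ValuationSubring K} {v : K → ℤ} (hv : IsOrd O v)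
    (x : K) (hx : x ≠ 0) : v x⁻¹ = - v x := by
  have h := hv.1 x x⁻¹ hx (inv_ne_zero hx)
  rw [mul_inv_cancel₀ hx, Q1a_one hv] at h
  omega

private lemma Q1a_pow {K : Type} [Field K] {O : ValuationSubring K} {v : K → ℤ} (hv : IsOrd O v)
    (x : K) (hx : x ≠ 0) (n : ℕ) : v (x ^ n) = n * v x := by
  induction n with
  | zero => simp [Q1a_one hv]
  | succ n ih =>
    rw [pow_succ, hv.1 _ _ (pow_ne_zero _ hx) hx, ih]
    push_cast
    ring

private lemma Q1a_mem {K : Type} [Field K] [Algebra ℂ K] {O : ValuationSubring K} (hO : IsPlace O)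
    {T : K} (hT : T ∈ O) (Q : ℂ[X]) : aeval T Q ∈ O := by
  rw [aeval_eq_sum_range]
  refine sum_mem fun i _ => ?_
  rw [Algebra.smul_def]
  exact O.mul_mem _ _ (hO.1 _) (pow_mem hT i)

private lemma Q1a_unit {K : Type} [Field K] [Algebra ℂ K] {O : ValuationSubring K} (hO : IsPlace O)
    {v : K → ℤ} (hv : IsOrd O v) {l : K} (hl0 : l ≠ 0) (hl : 1 ≤ v l) {c : ℂ} (hc : c ≠ 0) {y : K}
    (hy : y ∈ O) : algebraMap ℂ K c + l * y ≠ 0 ∧ v (algebraMap ℂ K c + l * y) = 0 := by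
  obtain ⟨t, ht0, ht⟩ := hv.2.2
  have hc0 : algebraMap ℂ K c ≠ 0 := by
    rw [Ne, map_eq_zero]
    exact hc
  have hvc : v (algebraMap ℂ K c) = 0 := by
    have h1 := (hv.2.1 _ hc0).1 (hO.1 c)
    have h2 := (hv.2.1 _ (inv_ne_zero hc0)).1 (by
      rw [← map_inv₀]
      exact hO.1 _)
    rw [Q1a_inv hv _ hc0] at h2
    omega
  have hnot : t⁻¹ * algebraMap ℂ K c ∉ O := by
    intro h
    have h1 := (hv.2.1 _ (mul_ne_zero (inv_ne_zero ht0) hc0)).1 h
    rw [hv.1 _ _ (inv_ne_zero ht0) hc0, Q1a_inv hv _ ht0, hvc] at h1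
    omega
  have hmem : ∀ x : K, x ≠ 0 → 1 ≤ v x → t⁻¹ * x ∈ O := by
    intro x hx h
    refine (hv.2.1 _ (mul_ne_zero (inv_ne_zero ht0) hx)).2 ?_
    rw [hv.1 _ _ (inv_ne_zero ht0) hx, Q1a_inv hv _ ht0]
    omega
  have hly : t⁻¹ * (l * y) ∈ O := by
    rw [← mul_assoc]
    exact O.mul_mem _ _ (hmem l hl0 hl) hy
  have hx0 : algebraMap ℂ K c + l * y ≠ 0 := by
    intro h
    apply hnot
    rw [eq_neg_of_add_eq_zero_left h, mul_neg]
    exact O.neg_mem _ hly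
  refine ⟨hx0, ?_⟩
  have hx : algebraMap ℂ K c + l * y ∈ O := by
    refine O.add_mem _ _ (hO.1 c) (O.mul_mem _ _ ?_ hy)
    exact (hv.2.1 _ hl0).2 (by omega)
  have h1 := (hv.2.1 _ hx0).1 hx
  by_contra hne
  have h2 : 1 ≤ v (algebraMap ℂ K c + l * y) := by omega
  apply hnot
  have h3 : _ - _ ∈ O := sub_mem (hmem _ hx0 h2) hly
  rwa [← mul_sub, add_sub_cancel_right] at h3

/-- Proof. `A = (X - c)^n * B` with `B(c) ≠ 0` (`Polynomial.exists_eq_pow_rootMultiplicity_mul_and_not_dvd`), and `B(T)` is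
`B(c)` plus a multiple of `T - c`, so a unit of `O` (order zero). -/
theorem sl_ord_fin {K : Type} [Field K] [Algebra ℂ K] (O : ValuationSubring K) (hO : IsPlace O)
    (v : K → ℤ) (hv : IsOrd O v) (T : K) (hT : Transcendental ℂ T) (c : ℂ)
    (hc : 1 ≤ v (T - algebraMap ℂ K c)) (A : ℂ[X]) (hA : A ≠ 0) :
    v (aeval T A) = A.rootMultiplicity c * v (T - algebraMap ℂ K c) := by
  have hl0 : T - algebraMap ℂ K c ≠ 0 := by
    intro h
    apply hT
    rw [sub_eq_zero.1 h]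
    exact isAlgebraic_algebraMap c
  have hTO : T ∈ O := by
    have h1 : T - algebraMap ℂ K c ∈ O := (hv.2.1 _ hl0).2 (by omega)
    have h2 := O.add_mem _ _ h1 (hO.1 c)
    rwa [sub_add_cancel] at h2
  obtain ⟨B, hB, hnd⟩ := exists_eq_pow_rootMultiplicity_mul_and_not_dvd A hA c
  have hBc : B.eval c ≠ 0 := by
    intro h
    exact hnd (dvd_iff_isRoot.2 h)
  obtain ⟨Q, hQ⟩ : X - C c ∣ B - C (B.eval c) := by
    rw [dvd_iff_isRoot]
    simp
  have hBT : aeval T B = algebraMap ℂ K (B.eval c) + (T - algebraMap ℂ K c) * aeval T Q := by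
    have h1 : B = C (B.eval c) + (X - C c) * Q := by
      rw [← hQ]
      ring
    conv_lhs => rw [h1]
    simp
  have h2 := Q1a_unit hO hv hl0 hc hBc (Q1a_mem hO hTO Q)
  have h3 : aeval T A = (T - algebraMap ℂ K c) ^ A.rootMultiplicity c * aeval T B := by
    conv_lhs => rw [hB]
    simp
  rw [h3, hBT, hv.1 _ _ (pow_ne_zero _ hl0) h2.1, h2.2, Q1a_pow hv _ hl0, add_zero]

/-- Proof. `A(T) = T^n * B(T⁻¹)` with `n = natDegree A` and `B` the reversed polynomial, `B(0) ≠ 0`. (`Polynomial.eval₂_reverse_mul_pow`.) -/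
theorem sl_ord_inf {K : Type} [Field K] [Algebra ℂ K] (O : ValuationSubring K) (hO : IsPlace O)
    (v : K → ℤ) (hv : IsOrd O v) (T : K) (hT : Transcendental ℂ T) (hc : 1 ≤ v T⁻¹)
    (A : ℂ[X]) (hA : A ≠ 0) : v (aeval T A) = -(A.natDegree * v T⁻¹) := by
  have hT0 : T ≠ 0 := by
    rintro rfl
    exact hT isAlgebraic_zero
  have hTi : T⁻¹ ∈ O := (hv.2.1 _ (inv_ne_zero hT0)).2 (by omega)
  let _ : Invertible T := invertibleOfNonzero hT0
  have h1 : eval₂ (algebraMap ℂ K) T⁻¹ (reverse A) * T ^ A.natDegree = eval₂ (algebraMap ℂ K) T A := by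
    have := eval₂_reverse_mul_pow (algebraMap ℂ K) T A
    rwa [invOf_eq_inv] at this
  have h2 : aeval T⁻¹ (reverse A) = algebraMap ℂ K ((reverse A).coeff 0) +
      T⁻¹ * aeval T⁻¹ (divX (reverse A)) := by
    conv_lhs => rw [← divX_mul_X_add (reverse A)]
    rw [map_add, map_mul, aeval_X, aeval_C]
    ring
  have h3 : (reverse A).coeff 0 ≠ 0 := by
    rw [coeff_zero_reverse]
    exact leadingCoeff_ne_zero.2 hA
  have h4 := Q1a_unit hO hv (inv_ne_zero hT0) hc h3 (Q1a_mem hO hTi (divX (reverse A)))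
  rw [← h2] at h4
  have h5 : aeval T A = aeval T⁻¹ (reverse A) * T ^ A.natDegree := h1.symm
  rw [h5, hv.1 _ _ h4.1 (pow_ne_zero _ hT0), h4.2, Q1a_pow hv _ hT0, Q1a_inv hv _ hT0]
  ring

end Pool.Agent.AbPencil
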