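import Pool.Agent.Lib_MP_1209e6_sl.Defs

/-! PIECE Q1b: the degree count. -/

set_option autoImplicit false

namespace Pool.Agent.AbPencil

open Pool.Agent.Campana Polynomial

/-- Proof. Let `n c = rootMultiplicity c A - rootMultiplicity c B`, `S` the set of the roots of `A` and of `B` and of the given
`c`; `∑_{c ∈ S} n c = natDegree A - natDegree B` (`Polynomial.splits_iff_card_roots`, `IsAlgClosed.splits`). In real numbers
`n c ≥ - m (1 - 1/μ c)` and `natDegree B - natDegree A ≥ m (1 + 1/μ ∞) = 2 m - m (1 - 1/μ ∞)`; the sum is `0` and the sum of the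
right hand sides is `2 m - m ∑_{S ∪ ∞} (1 - 1/μ) ≥ 0`. So all the inequalities are equalities. -/
theorem sl_count (μ : Option ℂ → ℕ) (hμ : ∀ b, 1 ≤ μ b)
    (hS : ∀ S : Finset (Option ℂ), ∑ b ∈ S, (1 - 1 / (μ b : ℝ)) ≤ 2) (m : ℕ) (A B : ℂ[X]) (hA : A ≠ 0)
    (hB : B ≠ 0)
    (h1 : ∀ c : ℂ, -(m * (μ (some c) - 1) : ℤ) ≤
      ((A.rootMultiplicity c : ℤ) - B.rootMultiplicity c) * μ (some c))
    (h2 : (m * (μ none + 1) : ℤ) ≤ ((B.natDegree : ℤ) - A.natDegree) * μ none) (c : ℂ) :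
    ((A.rootMultiplicity c : ℤ) - B.rootMultiplicity c) * μ (some c) = -(m * (μ (some c) - 1)) := by
  classical
  have key : ∀ P : ℂ[X], P ≠ 0 → ∀ S : Finset ℂ, P.roots.toFinset ⊆ S →
      ∑ c ∈ S, P.rootMultiplicity c = P.natDegree := by
    intro P hP S hS'
    have h3 : P.roots.card = P.natDegree :=
      (Polynomial.splits_iff_card_roots).mp (IsAlgClosed.splits P)
    rw [← h3, ← Multiset.sum_count_eq_card (s := S) (m := P.roots)
      (fun a ha => hS' (Multiset.mem_toFinset.mpr ha))]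
    refine Finset.sum_congr rfl fun a _ => ?_
    rw [Polynomial.count_roots]
  set S : Finset ℂ := insert c (A.roots.toFinset ∪ B.roots.toFinset) with hSdef
  have hAS := key A hA S (fun a ha => Finset.mem_insert_of_mem (Finset.mem_union_left _ ha))
  have hBS := key B hB S (fun a ha => Finset.mem_insert_of_mem (Finset.mem_union_right _ ha))
  have hAS' : ∑ a ∈ S, (A.rootMultiplicity a : ℝ) = A.natDegree := by exact_mod_cast hAS
  have hBS' : ∑ a ∈ S, (B.rootMultiplicity a : ℝ) = B.natDegree := by exact_mod_cast hBS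
  have hμ0 : ∀ b, (0 : ℝ) < μ b := fun b => by exact_mod_cast hμ b
  have t1 : ∀ a : ℂ, 0 ≤ ((A.rootMultiplicity a : ℝ) - B.rootMultiplicity a) +
      m * (1 - 1 / (μ (some a) : ℝ)) := by
    intro a
    have h := h1 a
    have h' : (-(m * ((μ (some a) : ℝ) - 1))) ≤
        ((A.rootMultiplicity a : ℝ) - B.rootMultiplicity a) * μ (some a) := by exact_mod_cast h
    have e : ((A.rootMultiplicity a : ℝ) - B.rootMultiplicity a) + m * (1 - 1 / (μ (some a) : ℝ)) =
        (((A.rootMultiplicity a : ℝ) - B.rootMultiplicity a) * μ (some a) +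
          m * ((μ (some a) : ℝ) - 1)) / μ (some a) := by
      have := (hμ0 (some a)).ne'
      field_simp
    rw [e]
    exact div_nonneg (by linarith) (hμ0 _).le
  have t2 : (m : ℝ) * (1 + 1 / (μ none : ℝ)) ≤ (B.natDegree : ℝ) - A.natDegree := by
    have h' : ((m : ℝ) * ((μ none : ℝ) + 1)) ≤ ((B.natDegree : ℝ) - A.natDegree) * μ none := by
      exact_mod_cast h2
    have e : (m : ℝ) * (1 + 1 / (μ none : ℝ)) = (m * ((μ none : ℝ) + 1)) / μ none := by
      have := (hμ0 none).ne'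
      field_simp
    rw [e, div_le_iff₀ (hμ0 none)]
    exact h'
  have t3 : ∑ a ∈ S, (1 - 1 / (μ (some a) : ℝ)) + (1 - 1 / (μ none : ℝ)) ≤ 2 := by
    have h := hS (insert none (S.image some))
    rw [Finset.sum_insert (by simp), Finset.sum_image (by intro x _ y _ h; simpa using h)] at h
    linarith
  have t4 : ∑ a ∈ S, (((A.rootMultiplicity a : ℝ) - B.rootMultiplicity a) +
      m * (1 - 1 / (μ (some a) : ℝ))) ≤ 0 := by
    rw [Finset.sum_add_distrib, Finset.sum_sub_distrib, hAS', hBS', ← Finset.mul_sum]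
    have hm : (0 : ℝ) ≤ m := Nat.cast_nonneg m
    nlinarith [mul_le_mul_of_nonneg_left t3 hm]
  have t5 : ((A.rootMultiplicity c : ℝ) - B.rootMultiplicity c) +
      m * (1 - 1 / (μ (some c) : ℝ)) = 0 := by
    have hle := Finset.single_le_sum (f := fun a => ((A.rootMultiplicity a : ℝ) -
      B.rootMultiplicity a) + m * (1 - 1 / (μ (some a) : ℝ))) (s := S)
      (fun a _ => t1 a) (Finset.mem_insert_self c _)
    have := t1 c
    have h6 := le_trans hle t4
    exact le_antisymm h6 this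
  have t6 : ((A.rootMultiplicity c : ℝ) - B.rootMultiplicity c) * μ (some c) =
      -(m * ((μ (some c) : ℝ) - 1)) := by
    have e1 : ((A.rootMultiplicity c : ℝ) - B.rootMultiplicity c) =
        - (m * (1 - 1 / (μ (some c) : ℝ))) := by linarith
    rw [e1]
    have := (hμ0 (some c)).ne'
    field_simp
  exact_mod_cast t6

/-- Proof. `A₁ B₀` and `A₀ B₁` have the same roots with multiplicities, so they differ by a constant factor
(`Polynomial.Splits`, `C_leadingCoeff_mul_prod_multiset_X_sub_C`). -/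
theorem sl_const {K : Type} [Field K] [Algebra ℂ K] (T : K) (hT : Transcendental ℂ T) (A₀ B₀ A₁ B₁ : ℂ[X])
    (hA₀ : A₀ ≠ 0) (hB₀ : B₀ ≠ 0) (hA₁ : A₁ ≠ 0) (hB₁ : B₁ ≠ 0)
    (h : ∀ c : ℂ, (A₀.rootMultiplicity c : ℤ) - B₀.rootMultiplicity c =
      (A₁.rootMultiplicity c : ℤ) - B₁.rootMultiplicity c) :
    ∃ c : ℂ, (aeval T A₁ / aeval T B₁) / (aeval T A₀ / aeval T B₀) = algebraMap ℂ K c := by
  classical
  have hinj : ∀ P : ℂ[X], P ≠ 0 → aeval T P ≠ 0 := by
    intro P hP h
    exact hP ((transcendental_iff.mp hT) P h)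
  have hP : A₁ * B₀ ≠ 0 := mul_ne_zero hA₁ hB₀
  have hQ : A₀ * B₁ ≠ 0 := mul_ne_zero hA₀ hB₁
  have hroots : (A₁ * B₀).roots = (A₀ * B₁).roots := by
    ext c
    rw [Polynomial.count_roots, Polynomial.count_roots, Polynomial.rootMultiplicity_mul hP,
      Polynomial.rootMultiplicity_mul hQ]
    have := h c
    omega
  have e1 := (IsAlgClosed.splits (A₁ * B₀)).eq_prod_roots
  have e2 := (IsAlgClosed.splits (A₀ * B₁)).eq_prod_roots
  have hl2 : (A₀ * B₁).leadingCoeff ≠ 0 := Polynomial.leadingCoeff_ne_zero.mpr hQ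
  have e3 : A₁ * B₀ = C ((A₁ * B₀).leadingCoeff / (A₀ * B₁).leadingCoeff) * (A₀ * B₁) := by
    rw [hroots] at e1
    have e5 : C (A₁ * B₀).leadingCoeff * (Multiset.map (fun x => X - C x) (A₀ * B₁).roots).prod =
        C ((A₁ * B₀).leadingCoeff / (A₀ * B₁).leadingCoeff) *
          (C (A₀ * B₁).leadingCoeff * (Multiset.map (fun x => X - C x) (A₀ * B₁).roots).prod) := by
      rw [← mul_assoc, ← C_mul, div_mul_cancel₀ _ hl2]
    exact e1.trans (e5.trans (congrArg _ e2.symm))
  refine ⟨(A₁ * B₀).leadingCoeff / (A₀ * B₁).leadingCoeff, ?_⟩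
  have e4 := congrArg (aeval T) e3
  rw [map_mul, map_mul, map_mul, aeval_C] at e4
  have n1 := hinj _ hA₀
  have n2 := hinj _ hB₁
  have n3 := hinj _ hB₀
  rw [div_div_eq_mul_div, div_mul_eq_mul_div, div_div, e4]
  field_simp

end Pool.Agent.AbPencil
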