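import Pool.Agent.Lib_MP_1209e6_sl.Defs
import Pool.Agent.Lib_MP_1209e6_ag.Der

/-! PIECE R5b: derivations from embeddings. -/

set_option autoImplicit false

namespace Pool.Agent.AbPencil

open Pool.Agent.Campana Polynomial

private theorem sl_der_poly {K M : Type} [Field K] [Algebra ℂ K] [Field M] [Algebra ℂ M] {d : ℕ}
    (y : Fin (d + 1) → K) (φ : K →ₐ[ℂ] M) (δ : Derivation ℂ M M) (D : Derivation ℂ K K)
    (hy : ∀ i, φ (D (y i)) = δ (φ (y i))) (p : MvPolynomial (Fin (d + 1)) ℂ) :
    φ (D (MvPolynomial.aeval y p)) = δ (φ (MvPolynomial.aeval y p)) := by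
  induction p using MvPolynomial.induction_on with
  | C a =>
    rw [MvPolynomial.aeval_C, Derivation.map_algebraMap, map_zero, AlgHom.commutes,
      Derivation.map_algebraMap]
  | add p q hp hq => simp only [map_add, hp, hq]
  | mul_X p i hp =>
    simp only [map_mul, MvPolynomial.aeval_X, Derivation.leibniz, smul_eq_mul, map_add, hp, hy]

private theorem sl_der_eval {K M : Type} [Field K] [Algebra ℂ K] [Field M] [Algebra ℂ M] {d : ℕ}
    (y : Fin (d + 1) → K) (η : K) (φ : K →ₐ[ℂ] M) (δ : Derivation ℂ M M) (D : Derivation ℂ K K)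
    (hy : ∀ i, φ (D (y i)) = δ (φ (y i))) (q : Polynomial (MvPolynomial (Fin (d + 1)) ℂ)) :
    φ (D (q.eval₂ (MvPolynomial.aeval y).toRingHom η)) -
      δ (φ (q.eval₂ (MvPolynomial.aeval y).toRingHom η)) =
    φ ((Polynomial.derivative q).eval₂ (MvPolynomial.aeval y).toRingHom η) *
      (φ (D η) - δ (φ η)) := by
  induction q using Polynomial.induction_on' with
  | add p q hp hq =>
    simp only [eval₂_add, map_add]
    linear_combination hp + hq
  | monomial n a =>
    rw [derivative_monomial, eval₂_monomial, eval₂_monomial]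
    have h1 := sl_der_poly y φ δ D hy a
    have h2 : (MvPolynomial.aeval y).toRingHom (a * (n : MvPolynomial (Fin (d + 1)) ℂ)) =
        (MvPolynomial.aeval y a) * (n : K) := by
      simp
    have h3 : (MvPolynomial.aeval y).toRingHom a = MvPolynomial.aeval y a := rfl
    rw [h2, h3]
    simp only [Derivation.leibniz, Derivation.leibniz_pow, smul_eq_mul, map_add, map_mul, map_pow,
      h1, map_natCast, nsmul_eq_mul]
    ring

/-- Proof. `D` from `exists_derivation_of_basis` (or another lemma of ag/Der, fl) with `D (y i) = β i`. The two maps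
`a ↦ φ (D a)` and `a ↦ δ (φ a)` are derivations `K → M` (`M` is a `K`-module by `φ`) which agree on the `y i`; they
agree at `η` (differentiate `f(y; η) = 0` and use `sep`), so everywhere by `gen` (the set of all `a` with
`φ (D a) = δ (φ a)` is a subfield containing `ℂ`). -/
theorem sl_der {K M : Type} [Field K] [Algebra ℂ K] [Field M] [Algebra ℂ M] {d : ℕ}
    (y : Fin (d + 1) → K) (η : K) (f : Polynomial (MvPolynomial (Fin (d + 1)) ℂ)) (hP : Pres y η f)
    (φ : K →ₐ[ℂ] M) (δ : Derivation ℂ M M) (β : Fin (d + 1) → K) (hβ : ∀ i, φ (β i) = δ (φ (y i))) :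
    ∃ D : Derivation ℂ K K, ∀ a, φ (D a) = δ (φ a) := by
  obtain ⟨D, hD⟩ := exists_derivation y hP.ind β
  have hy : ∀ i, φ (D (y i)) = δ (φ (y i)) := fun i => by rw [hD, hβ]
  have hinj : Function.Injective φ := φ.toRingHom.injective
  have hη : φ (D η) - δ (φ η) = 0 := by
    have h1 := sl_der_eval y η φ δ D hy f
    rw [hP.root, map_zero, map_zero, map_zero, sub_zero] at h1
    refine (mul_eq_zero.mp h1.symm).resolve_left fun h2 => hP.sep ?_
    exact hinj (h2.trans (map_zero φ).symm)
  have hE : ∀ q : Polynomial (MvPolynomial (Fin (d + 1)) ℂ),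
      φ (D (q.eval₂ (MvPolynomial.aeval y).toRingHom η)) =
        δ (φ (q.eval₂ (MvPolynomial.aeval y).toRingHom η)) := fun q => by
    have h1 := sl_der_eval y η φ δ D hy q
    rw [hη, mul_zero] at h1
    exact sub_eq_zero.mp h1
  refine ⟨D, fun a => ?_⟩
  obtain ⟨S, Q, hS, hSQ⟩ := hP.gen a
  have hs : MvPolynomial.aeval y S ≠ 0 := fun h =>
    hS (hP.ind (h.trans (map_zero (MvPolynomial.aeval y)).symm))
  have h1 := hE Q
  rw [← hSQ] at h1
  have h2 := sl_der_poly y φ δ D hy S
  simp only [Derivation.leibniz, smul_eq_mul, map_add, map_mul, h2] at h1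
  have h3 : φ (MvPolynomial.aeval y S) ≠ 0 := fun h =>
    hs (hinj (h.trans (map_zero φ).symm))
  exact mul_left_cancel₀ h3 (by linear_combination h1)

end Pool.Agent.AbPencil
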