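import Pool.Agent.Lib_MP_1209e6_sl.Defs
import Pool.Agent.Lib_MP_1209e6_mh.PlaceOf

/-! PIECE R5c: places from embeddings. -/

set_option autoImplicit false

namespace Pool.Agent.AbPencil

open Pool.Agent.Campana Polynomial

/-- Proof. `place_of_val` (mh/PlaceOf) with `w a = (φ a).order`; `w = e * v`, `w π = 1` so `e = 1`. -/
theorem sl_place {K κ : Type} [Field K] [Algebra ℂ K] [Field κ] [Algebra ℂ κ]
    (φ : K →ₐ[ℂ] LaurentSeries κ) (π : K) (hπ : (φ π).order = 1) :
    ∃ (O : ValuationSubring K) (v : K → ℤ), IsPlace O ∧ IsOrd O v ∧ ∀ a, a ≠ 0 → v a = (φ a).order := by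
  have hinj : Function.Injective φ := φ.toRingHom.injective
  have h0 : ∀ x, x ≠ 0 → φ x ≠ 0 := fun x hx h => hx (hinj (by rw [h, map_zero]))
  have hπ0 : π ≠ 0 := by
    rintro rfl
    rw [map_zero, HahnSeries.order_zero] at hπ
    exact absurd hπ (by norm_num)
  obtain ⟨O, hO, e, v, he, hv, hw⟩ := place_of_val (K := K) (fun a => (φ a).order) (by
      intro x y hx hy
      show (φ (x * y)).order = _
      rw [map_mul]
      exact HahnSeries.order_mul (h0 x hx) (h0 y hy)) (by
      intro x y hx hy hxy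
      show _ ≤ (φ (x + y)).order
      have h1 := h0 _ hxy
      rw [map_add] at h1 ⊢
      exact HahnSeries.min_order_le_order_add h1) (by
      intro c hc
      show (φ (algebraMap ℂ K c)).order = 0
      rw [φ.commutes, HahnSeries.algebraMap_apply', PowerSeries.algebraMap_apply,
        HahnSeries.ofPowerSeries_C]
      exact HahnSeries.order_C) ⟨π, hπ0, by
        show (φ π).order ≠ 0
        rw [hπ]
        norm_num⟩
  have h1 : (1 : ℤ) = e * v π := by
    rw [← hw π hπ0]
    exact hπ.symm
  have he1 : e = 1 := by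
    have h2 : e ∣ 1 := ⟨v π, h1⟩
    exact Int.eq_one_of_dvd_one (by omega) h2
  refine ⟨O, v, hO, hv, ?_⟩
  intro a ha
  have h3 := hw a ha
  rw [he1, one_mul] at h3
  exact h3.symm

end Pool.Agent.AbPencil
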