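import Mathlib

/-! PIECE R2: Hensel's lemma for power series (roots of arbitrary polynomials, not necessarily simple modulo `X`). -/

set_option autoImplicit false

namespace Pool.Agent.AbPencil

open Polynomial

private lemma r2_dvd_coeff {κ : Type} [Field κ] {F : Polynomial (PowerSeries κ)} {w : PowerSeries κ}
    (hw : PowerSeries.X ∣ w) : (PowerSeries.X : PowerSeries κ) ∣ (derivative F).eval w - F.coeff 1 := by
  have h1 : w - 0 ∣ (derivative F).eval w - (derivative F).eval 0 := sub_dvd_eval_sub _ _ _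
  rw [sub_zero] at h1
  have h2 : (derivative F).eval 0 = F.coeff 1 := by
    rw [← coeff_zero_eq_eval_zero, coeff_derivative]
    simp
  rw [h2] at h1
  exact hw.trans h1

private lemma r2_step {κ : Type} [Field κ] {F : Polynomial (PowerSeries κ)} {u w : PowerSeries κ}
    (hu : F.coeff 1 * u = 1) (hw : PowerSeries.X ∣ w) {n : ℕ} (hn : PowerSeries.X ^ (n + 1) ∣ F.eval w) :
    PowerSeries.X ∣ (w - u * F.eval w) ∧ PowerSeries.X ^ (n + 2) ∣ F.eval (w - u * F.eval w) := by
  have hX : (PowerSeries.X : PowerSeries κ) ∣ PowerSeries.X ^ (n + 1) := dvd_pow_self _ (Nat.succ_ne_zero n)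
  refine ⟨dvd_sub hw ((hX.trans hn).mul_left _), ?_⟩
  obtain ⟨k, hk⟩ := Polynomial.binomExpansion F w (-(u * F.eval w))
  rw [sub_eq_add_neg, hk]
  obtain ⟨d, hd⟩ := r2_dvd_coeff (F := F) hw
  obtain ⟨e, he⟩ := hn
  have h1 : F.eval w + (derivative F).eval w * -(u * F.eval w) + k * (-(u * F.eval w)) ^ 2 =
      PowerSeries.X ^ (n + 2) * (- (d * u * e) + k * u ^ 2 * e ^ 2 * PowerSeries.X ^ n) := by
    have h2 : (derivative F).eval w = F.coeff 1 + PowerSeries.X * d := by
      rw [← hd]; ring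
    rw [h2, he]
    have h3 : (F.coeff 1 + PowerSeries.X * d) * -(u * (PowerSeries.X ^ (n + 1) * e)) =
        - (F.coeff 1 * u) * (PowerSeries.X ^ (n + 1) * e) - PowerSeries.X ^ (n + 2) * (d * u * e) := by
      ring
    rw [h3, hu]
    ring
  rw [h1]
  exact dvd_mul_right _ _

/-- Hensel's lemma for a polynomial which is not monic: `F = ∑ a_i W^i` with `a_0 ∈ (X)` and `a_1` a unit has a root in
`(X)`. Proof. `a_0 = 0`: the root is `0`. Otherwise substitute `W = - a_0 a_1⁻¹ U`: `F = a_0 (1 - U + ∑_{i ≥ 2} c_i U^i)` with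
`c_i = a_i (-a_1⁻¹)^i a_0^(i-1) ∈ (X)`; reversed: `V^n - V^(n-1) + ∑ c_i V^(n-i)` (`n ≥ 2` a bound of the
degree) is monic with the simple root `V = 1` modulo `X` (derivative `n - (n - 1) = 1`). `PowerSeries κ` is
adically complete for `(X)` (`Mathlib/RingTheory/AdicCompletion/Completeness.lean`), so
`IsAdicComplete.henselianRing` applies: `V ≡ 1`, a unit; `U = V⁻¹`. (A direct Newton iteration and completeness
are also fine.) -/
theorem sl_hensel₁ {κ : Type} [Field κ] (F : Polynomial (PowerSeries κ)) (h0 : PowerSeries.X ∣ F.coeff 0)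
    (h1 : IsUnit (F.coeff 1)) : ∃ W : PowerSeries κ, PowerSeries.X ∣ W ∧ F.eval W = 0 := by
  obtain ⟨u, hu⟩ := h1.exists_right_inv
  -- the iteration
  let w : ℕ → PowerSeries κ := fun n => Nat.rec 0 (fun _ x => x - u * F.eval x) n
  have w0 : w 0 = 0 := rfl
  have ws : ∀ n, w (n + 1) = w n - u * F.eval (w n) := fun n => rfl
  have hw : ∀ n, PowerSeries.X ∣ w n ∧ PowerSeries.X ^ (n + 1) ∣ F.eval (w n) := by
    intro n
    induction n with
    | zero =>
      rw [w0]
      refine ⟨dvd_zero _, ?_⟩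
      rw [← coeff_zero_eq_eval_zero, zero_add, pow_one]
      exact h0
    | succ n ih =>
      rw [ws]
      exact r2_step hu ih.1 ih.2
  have hd : ∀ n m, n ≤ m → PowerSeries.X ^ (n + 1) ∣ w m - w n := by
    intro n m hnm
    induction m, hnm using Nat.le_induction with
    | base => rw [sub_self]; exact dvd_zero _
    | succ m hm ih =>
      have h2 : w (m + 1) - w n = (w m - w n) - u * F.eval (w m) := by
        rw [ws]; ring
      rw [h2]
      refine dvd_sub ih (Dvd.dvd.mul_left ((pow_dvd_pow _ (by omega)).trans (hw m).2) _)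
  -- the limit
  let W : PowerSeries κ := PowerSeries.mk fun n => PowerSeries.coeff n (w n)
  have hW : ∀ n, PowerSeries.X ^ (n + 1) ∣ W - w n := by
    intro n
    rw [PowerSeries.X_pow_dvd_iff]
    intro m hm
    have h3 := (PowerSeries.X_pow_dvd_iff.mp (hd m n (by omega))) m (by omega)
    rw [map_sub] at h3 ⊢
    rw [PowerSeries.coeff_mk]
    rw [sub_eq_zero] at h3 ⊢
    exact h3.symm
  refine ⟨W, ?_, ?_⟩
  · have h4 := hW 0
    rw [w0, sub_zero, zero_add, pow_one] at h4
    exact h4
  · ext n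
    have h5 : PowerSeries.X ^ (n + 1) ∣ F.eval W := by
      have h6 : W - w n ∣ F.eval W - F.eval (w n) := sub_dvd_eval_sub _ _ _
      have h7 := dvd_add ((hW n).trans h6) (hw n).2
      rwa [sub_add_cancel] at h7
    rw [map_zero]
    exact (PowerSeries.X_pow_dvd_iff.mp h5) n (by omega)

/-- Proof. Let `c₀ ≤ c` be the exact order of `f'(H)`: `f'(H) = X^c₀ b` with `b` a unit, `f(H) = X^(L+1) a`. For
`η = H + X^(c₀+1) W`: `f(η) = f(H) + f'(H) X^(c₀+1) W + X^(2 c₀ + 2) W² R(W)` (`Polynomial.taylor`), divided by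
`X^(2 c₀ + 1)`: `F = X^(L - 2 c₀) a + b W + X W² R(W)`, `sl_hensel₁` gives `W`. Then `W (b + X W R) = - X^(L-2c₀) a`,
so `X^(L-2c₀) ∣ W` and `X^(L+1-c₀) ∣ η - H`. -/
theorem sl_hensel {κ : Type} [Field κ] (f : Polynomial (PowerSeries κ)) (H : PowerSeries κ) (c L : ℕ)
    (hL : 2 * c + 1 ≤ L) (h1 : PowerSeries.X ^ (L + 1) ∣ f.eval H)
    (h2 : ¬ PowerSeries.X ^ (c + 1) ∣ (derivative f).eval H) :
    ∃ η : PowerSeries κ, f.eval η = 0 ∧ PowerSeries.X ^ (L + 1 - c) ∣ η - H := by
  classical
  -- the exact order of `f'(H)`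
  have h3 : ∃ n, PowerSeries.coeff n ((derivative f).eval H) ≠ 0 := by
    by_contra hcon
    push Not at hcon
    exact h2 (PowerSeries.X_pow_dvd_iff.mpr fun m _ => hcon m)
  set c₀ := Nat.find h3 with hc₀
  have hc0 : PowerSeries.coeff c₀ ((derivative f).eval H) ≠ 0 := Nat.find_spec h3
  have hcmin : ∀ m < c₀, PowerSeries.coeff m ((derivative f).eval H) = 0 := by
    intro m hm
    have := Nat.find_min h3 hm
    push Not at this
    exact this
  have hcc : c₀ ≤ c := by
    by_contra hlt
    exact h2 (PowerSeries.X_pow_dvd_iff.mpr fun m hm => hcmin m (by omega))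
  obtain ⟨b, hb⟩ := PowerSeries.X_pow_dvd_iff.mpr hcmin
  have hbu : PowerSeries.constantCoeff b ≠ 0 := by
    rw [hb] at hc0
    rw [PowerSeries.coeff_X_pow_mul', if_pos le_rfl, Nat.sub_self] at hc0
    simpa using hc0
  obtain ⟨a, ha⟩ := h1
  -- the Taylor expansion
  set G := taylor H f with hG
  set R := (divX (divX G)).comp (C (PowerSeries.X ^ (c₀ + 1)) * X) with hR
  have hG0 : G.coeff 0 = PowerSeries.X ^ (L + 1) * a := by rw [hG, taylor_coeff_zero, ha]
  have hG1 : G.coeff 1 = PowerSeries.X ^ c₀ * b := by rw [hG, taylor_coeff_one, hb]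
  have hGe : ∀ y : PowerSeries κ, G.eval y =
      G.coeff 0 + G.coeff 1 * y + (divX (divX G)).eval y * y ^ 2 := by
    intro y
    have e1 : G.eval y = (divX G).eval y * y + G.coeff 0 := by
      conv_lhs => rw [← divX_mul_X_add G]
      simp
    have e2 : (divX G).eval y = (divX (divX G)).eval y * y + G.coeff 1 := by
      conv_lhs => rw [← divX_mul_X_add (divX G)]
      simp [coeff_divX]
    rw [e1, e2]
    ring
  obtain ⟨W, hWX, hW⟩ := sl_hensel₁ (C (PowerSeries.X ^ (L - 2 * c₀) * a) + C b * X +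
      C (PowerSeries.X) * R * X ^ 2) (by
        have : (C (PowerSeries.X ^ (L - 2 * c₀) * a) + C b * X + C (PowerSeries.X) * R * X ^ 2 :
            Polynomial (PowerSeries κ)).coeff 0 = PowerSeries.X ^ (L - 2 * c₀) * a := by
          rw [coeff_add, coeff_add, coeff_C_zero, coeff_C_mul, coeff_X_zero, mul_zero, coeff_mul_X_pow',
            if_neg (by omega), add_zero, add_zero]
        rw [this]
        exact (dvd_pow_self _ (by omega)).mul_right _) (by
        have : (C (PowerSeries.X ^ (L - 2 * c₀) * a) + C b * X + C (PowerSeries.X) * R * X ^ 2 :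
            Polynomial (PowerSeries κ)).coeff 1 = b := by
          rw [coeff_add, coeff_add, coeff_C_of_ne_zero one_ne_zero, zero_add, coeff_C_mul, coeff_X_one, mul_one,
            coeff_mul_X_pow', if_neg (by omega), add_zero]
        rw [this, PowerSeries.isUnit_iff_constantCoeff]
        exact isUnit_iff_ne_zero.mpr hbu)
  have hR' : R.eval W = (divX (divX G)).eval (PowerSeries.X ^ (c₀ + 1) * W) := by
    rw [hR, eval_comp]
    simp
  have hW' : PowerSeries.X ^ (L - 2 * c₀) * a + b * W + PowerSeries.X * R.eval W * W ^ 2 = 0 := by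
    have : (C (PowerSeries.X ^ (L - 2 * c₀) * a) + C b * X + C (PowerSeries.X) * R * X ^ 2 :
            Polynomial (PowerSeries κ)).eval W =
            PowerSeries.X ^ (L - 2 * c₀) * a + b * W + PowerSeries.X * R.eval W * W ^ 2 := by
      simp
    rw [← this]
    exact hW
  refine ⟨H + PowerSeries.X ^ (c₀ + 1) * W, ?_, ?_⟩
  · have e3 : f.eval (H + PowerSeries.X ^ (c₀ + 1) * W) = G.eval (PowerSeries.X ^ (c₀ + 1) * W) := by
      rw [hG, taylor_eval, add_comm]
    rw [e3, hGe, hG0, hG1, ← hR']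
    have e4 : PowerSeries.X ^ (L + 1) * a + PowerSeries.X ^ c₀ * b * (PowerSeries.X ^ (c₀ + 1) * W) +
        R.eval W * (PowerSeries.X ^ (c₀ + 1) * W) ^ 2 =
        PowerSeries.X ^ (2 * c₀ + 1) *
          (PowerSeries.X ^ (L - 2 * c₀) * a + b * W + PowerSeries.X * R.eval W * W ^ 2) := by
      have e5 : (PowerSeries.X : PowerSeries κ) ^ (L + 1) =
          PowerSeries.X ^ (2 * c₀ + 1) * PowerSeries.X ^ (L - 2 * c₀) := by
        rw [← pow_add]
        congr 1
        omega
      rw [e5]
      ring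
    rw [e4, hW', mul_zero]
  · rw [add_sub_cancel_left]
    have hunit : IsUnit (b + PowerSeries.X * R.eval W * W) := by
      rw [PowerSeries.isUnit_iff_constantCoeff]
      have : PowerSeries.constantCoeff (b + PowerSeries.X * R.eval W * W) = PowerSeries.constantCoeff b := by
        simp
      rw [this]
      exact isUnit_iff_ne_zero.mpr hbu
    obtain ⟨v, hv⟩ := hunit.exists_right_inv
    have h6 : W = PowerSeries.X ^ (L - 2 * c₀) * (-(a * v)) := by
      have h7 : W * (b + PowerSeries.X * R.eval W * W) = - (PowerSeries.X ^ (L - 2 * c₀) * a) := by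
        have h8 : W * (b + PowerSeries.X * R.eval W * W) =
            (PowerSeries.X ^ (L - 2 * c₀) * a + b * W + PowerSeries.X * R.eval W * W ^ 2) -
              PowerSeries.X ^ (L - 2 * c₀) * a := by ring
        rw [h8, hW', zero_sub]
      calc W = W * ((b + PowerSeries.X * R.eval W * W) * v) := by rw [hv, mul_one]
        _ = (W * (b + PowerSeries.X * R.eval W * W)) * v := by ring
        _ = _ := by rw [h7]; ring
    rw [h6, ← mul_assoc, ← pow_add]
    exact (pow_dvd_pow _ (by omega)).mul_right _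

end Pool.Agent.AbPencil
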