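import Pool.Agent.Lib_MP_1209e6_sl.Defs

/-! PIECE R4: generic arcs, algebraic independence. -/

set_option autoImplicit false

namespace Pool.Agent.AbPencil

open Pool.Agent.Campana Polynomial

/-- The generic arc: `X` and the `H i + X^(L+1) ζ_i` (`ζ_i` the variables of `RF d`). -/
noncomputable def sl_Y {d : ℕ} (L : ℕ) (H : Fin (d + 1) → ℂ[X]) : Fin (d + 1) → PowerSeries (RF d) :=
  Fin.cons PowerSeries.X fun i => (((H i.succ).map (algebraMap ℂ (RF d)) : (RF d)[X]) : PowerSeries (RF d)) +
    PowerSeries.X ^ (L + 1) * PowerSeries.C (rv i)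

/-- the embedding of the polynomial ring in `X` and the `ζ_i` in the Laurent series -/
private noncomputable def slr4_Th (d : ℕ) : MvPolynomial (Fin (d + 1)) ℂ →+* LaurentSeries (RF d) :=
  (HahnSeries.ofPowerSeries ℤ (RF d)).comp
    ((Polynomial.coeToPowerSeries.ringHom (R := RF d)).comp
      ((Polynomial.mapRingHom (algebraMap (MvPolynomial (Fin d) ℂ) (RF d))).comp
        ((MvPolynomial.finSuccEquiv ℂ d : MvPolynomial (Fin (d + 1)) ℂ →+*
          Polynomial (MvPolynomial (Fin d) ℂ)))))

private theorem slr4_Th_inj (d : ℕ) : Function.Injective (slr4_Th d) := by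
  unfold slr4_Th
  rw [RingHom.coe_comp, RingHom.coe_comp, RingHom.coe_comp]
  refine HahnSeries.ofPowerSeries_injective.comp (Function.Injective.comp ?_ (Function.Injective.comp ?_ ?_))
  · exact Polynomial.coe_injective _
  · exact Polynomial.map_injective _ (IsFractionRing.injective _ _)
  · exact (MvPolynomial.finSuccEquiv ℂ d).injective

private theorem slr4_Th_C (d : ℕ) (r : ℂ) :
    slr4_Th d (MvPolynomial.C r) = algebraMap ℂ (LaurentSeries (RF d)) r := by
  have h : (MvPolynomial.finSuccEquiv ℂ d) (MvPolynomial.C r) = Polynomial.C (MvPolynomial.C r) := by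
    rw [MvPolynomial.finSuccEquiv_apply, MvPolynomial.eval₂Hom_C]
    rfl
  unfold slr4_Th
  simp only [RingHom.coe_comp, Function.comp_apply, RingHom.coe_coe]
  rw [h]
  rw [Polynomial.coe_mapRingHom, Polynomial.map_C, Polynomial.coeToPowerSeries.ringHom_apply,
    Polynomial.coe_C, HahnSeries.algebraMap_apply', PowerSeries.algebraMap_apply,
    HahnSeries.ofPowerSeries_C, HahnSeries.ofPowerSeries_C]
  rfl

private theorem slr4_Th_zero (d : ℕ) :
    slr4_Th d (MvPolynomial.X 0) = ((PowerSeries.X : PowerSeries (RF d)) : LaurentSeries (RF d)) := by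
  unfold slr4_Th
  simp only [RingHom.coe_comp, Function.comp_apply, RingHom.coe_coe]
  rw [MvPolynomial.finSuccEquiv_X_zero, Polynomial.coe_mapRingHom, Polynomial.map_X,
    Polynomial.coeToPowerSeries.ringHom_apply, Polynomial.coe_X]

private theorem slr4_Th_succ (d : ℕ) (i : Fin d) :
    slr4_Th d (MvPolynomial.X i.succ) =
      ((PowerSeries.C (rv i) : PowerSeries (RF d)) : LaurentSeries (RF d)) := by
  unfold slr4_Th
  simp only [RingHom.coe_comp, Function.comp_apply, RingHom.coe_coe]
  rw [MvPolynomial.finSuccEquiv_X_succ, Polynomial.coe_mapRingHom, Polynomial.map_C,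
    Polynomial.coeToPowerSeries.ringHom_apply, Polynomial.coe_C]
  rfl

/-- the substitution `T_0 ↦ T_0`, `T_i ↦ H_i(T_0) + T_0^(L+1) T_i` -/
private noncomputable def slr4_Ph {d : ℕ} (L : ℕ) (H : Fin (d + 1) → ℂ[X]) :
    MvPolynomial (Fin (d + 1)) ℂ →ₐ[ℂ] MvPolynomial (Fin (d + 1)) ℂ :=
  MvPolynomial.aeval (Fin.cons (MvPolynomial.X 0) fun i : Fin d =>
    Polynomial.aeval (MvPolynomial.X 0) (H i.succ) + MvPolynomial.X 0 ^ (L + 1) * MvPolynomial.X i.succ)

private theorem slr4_Ph_inj {d : ℕ} (L : ℕ) (H : Fin (d + 1) → ℂ[X]) :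
    Function.Injective (slr4_Ph L H) := by
  let A := MvPolynomial (Fin (d + 1)) ℂ
  let Q := FractionRing A
  let T : Fin (d + 1) → Q := fun i => algebraMap A Q (MvPolynomial.X i)
  have hT0 : T 0 ≠ 0 := by
    intro h
    have h1 : algebraMap A Q (MvPolynomial.X 0) = algebraMap A Q 0 := by rw [map_zero]; exact h
    have h2 := IsFractionRing.injective A Q h1
    exact MvPolynomial.X_ne_zero _ h2
  let Ps : A →ₐ[ℂ] Q := MvPolynomial.aeval (Fin.cons (T 0) fun i : Fin d =>
    (T i.succ - Polynomial.aeval (T 0) (H i.succ)) / T 0 ^ (L + 1))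
  have hPs0 : Ps (MvPolynomial.X 0) = T 0 := by
    show MvPolynomial.aeval _ (MvPolynomial.X 0) = T 0
    rw [MvPolynomial.aeval_X]; rfl
  have hPss : ∀ i : Fin d, Ps (MvPolynomial.X i.succ) =
      (T i.succ - Polynomial.aeval (T 0) (H i.succ)) / T 0 ^ (L + 1) := by
    intro i
    show MvPolynomial.aeval _ (MvPolynomial.X i.succ) = _
    rw [MvPolynomial.aeval_X]; rfl
  have key : Ps.comp (slr4_Ph L H) = (IsScalarTower.toAlgHom ℂ A Q) := by
    apply MvPolynomial.algHom_ext
    intro i
    rw [AlgHom.comp_apply]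
    refine Fin.cases ?_ (fun j => ?_) i
    · have : slr4_Ph L H (MvPolynomial.X 0) = MvPolynomial.X 0 := by
        unfold slr4_Ph
        rw [MvPolynomial.aeval_X]; rfl
      rw [this, hPs0]
      rfl
    · have : slr4_Ph L H (MvPolynomial.X j.succ) =
          Polynomial.aeval (MvPolynomial.X 0) (H j.succ) +
            MvPolynomial.X 0 ^ (L + 1) * MvPolynomial.X j.succ := by
        unfold slr4_Ph
        rw [MvPolynomial.aeval_X]; rfl
      rw [this, map_add, map_mul, map_pow, hPs0, hPss, ← Polynomial.aeval_algHom_apply, hPs0]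
      show _ = T j.succ
      have h3 : T 0 ^ (L + 1) ≠ 0 := pow_ne_zero _ hT0
      rw [mul_div_assoc', mul_div_cancel_left₀ _ h3]
      exact add_sub_cancel _ _
  intro p q hpq
  have h4 : Ps (slr4_Ph L H p) = Ps (slr4_Ph L H q) := by rw [hpq]
  rw [← AlgHom.comp_apply, ← AlgHom.comp_apply, key] at h4
  exact IsFractionRing.injective A Q h4

/-- The components of the generic arc are algebraically independent. Proof. The `X` and the variables `ζ_i` of
`RF d` are algebraically independent over `ℂ` (`slr4_Th`), and the substitution `T_0 ↦ T_0`,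
`T_i ↦ H_i(T_0) + T_0^(L+1) T_i` of the polynomial ring is injective, as it has an inverse over the field of
fractions (`slr4_Ph_inj`). -/
theorem sl_indep {d : ℕ} (L : ℕ) (H : Fin (d + 1) → ℂ[X]) :
    AlgebraicIndependent ℂ fun i => (sl_Y L H i : LaurentSeries (RF d)) := by
  let ThA : MvPolynomial (Fin (d + 1)) ℂ →ₐ[ℂ] LaurentSeries (RF d) :=
    { slr4_Th d with commutes' := fun r => slr4_Th_C d r }
  have hThA : ∀ p, ThA p = slr4_Th d p := fun p => rfl
  have key : MvPolynomial.aeval (fun i => (sl_Y L H i : LaurentSeries (RF d))) =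
        ThA.comp (slr4_Ph L H) := by
    apply MvPolynomial.algHom_ext
    intro i
    rw [MvPolynomial.aeval_X, AlgHom.comp_apply, hThA]
    refine Fin.cases ?_ (fun j => ?_) i
    · have : slr4_Ph L H (MvPolynomial.X 0) = MvPolynomial.X 0 := by
        unfold slr4_Ph
        rw [MvPolynomial.aeval_X]; rfl
      rw [this, slr4_Th_zero]
      rfl
    · have : slr4_Ph L H (MvPolynomial.X j.succ) =
          Polynomial.aeval (MvPolynomial.X 0) (H j.succ) +
            MvPolynomial.X 0 ^ (L + 1) * MvPolynomial.X j.succ := by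
        unfold slr4_Ph
        rw [MvPolynomial.aeval_X]; rfl
      rw [this, map_add, map_mul, map_pow, slr4_Th_zero, slr4_Th_succ]
      have h5 : slr4_Th d (Polynomial.aeval (MvPolynomial.X 0) (H j.succ)) =
          ((((H j.succ).map (algebraMap ℂ (RF d)) : (RF d)[X]) : PowerSeries (RF d)) :
            LaurentSeries (RF d)) := by
        generalize H j.succ = h
        induction h using Polynomial.induction_on' with
        | add p q hp hq =>
          rw [map_add, map_add, hp, hq, Polynomial.map_add, Polynomial.coe_add, PowerSeries.coe_add]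
        | monomial n a =>
          rw [← Polynomial.C_mul_X_pow_eq_monomial, map_mul, map_pow, Polynomial.aeval_C,
            Polynomial.aeval_X, MvPolynomial.algebraMap_eq, map_mul, map_pow, slr4_Th_C, slr4_Th_zero,
            Polynomial.map_mul, Polynomial.map_C, Polynomial.map_pow, Polynomial.map_X,
            Polynomial.coe_mul, Polynomial.coe_C, Polynomial.coe_pow, Polynomial.coe_X,
            PowerSeries.coe_mul, PowerSeries.coe_pow, HahnSeries.algebraMap_apply',
            PowerSeries.algebraMap_apply]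
      rw [h5]
      have h6 : sl_Y L H j.succ =
          (((H j.succ).map (algebraMap ℂ (RF d)) : (RF d)[X]) : PowerSeries (RF d)) +
            PowerSeries.X ^ (L + 1) * PowerSeries.C (rv j) := rfl
      rw [h6, PowerSeries.coe_add, PowerSeries.coe_mul, PowerSeries.coe_pow]
  show Function.Injective _
  rw [key]
  intro p q hpq
  rw [AlgHom.comp_apply, AlgHom.comp_apply, hThA, hThA] at hpq
  exact slr4_Ph_inj L H (slr4_Th_inj d hpq)

end Pool.Agent.AbPencil
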