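import Pool.Agent.Lib_MP_1209e6_sl.Defs
import Pool.Agent.Lib_MP_1209e6_mh.Pull

/-! PIECE R5a: embeddings of a presented function field. -/

set_option autoImplicit false

namespace Pool.Agent.AbPencil

open Pool.Agent.Campana Polynomial

/-- the evaluation `q ↦ q(Y; ξ)` as an algebra homomorphism -/
private noncomputable def evalHom {M : Type} [Field M] [Algebra ℂ M] {d : ℕ}
    (Y : Fin (d + 1) → M) (ξ : M) : Polynomial (MvPolynomial (Fin (d + 1)) ℂ) →ₐ[ℂ] M :=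
  { Polynomial.eval₂RingHom (MvPolynomial.aeval Y).toRingHom ξ with
    commutes' := by
      intro c
      have h1 : (algebraMap ℂ (Polynomial (MvPolynomial (Fin (d + 1)) ℂ))) c =
          Polynomial.C (algebraMap ℂ (MvPolynomial (Fin (d + 1)) ℂ) c) := rfl
      change Polynomial.eval₂ (MvPolynomial.aeval Y).toRingHom ξ _ = _
      rw [h1, Polynomial.eval₂_C]
      exact (MvPolynomial.aeval Y).commutes c }

private theorem evalHom_apply {M : Type} [Field M] [Algebra ℂ M] {d : ℕ}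
    (Y : Fin (d + 1) → M) (ξ : M) (q : Polynomial (MvPolynomial (Fin (d + 1)) ℂ)) :
    evalHom Y ξ q = q.eval₂ (MvPolynomial.aeval Y).toRingHom ξ := rfl

private theorem evalHom_C {M : Type} [Field M] [Algebra ℂ M] {d : ℕ}
    (Y : Fin (d + 1) → M) (ξ : M) (S : MvPolynomial (Fin (d + 1)) ℂ) :
    evalHom Y ξ (Polynomial.C S) = MvPolynomial.aeval Y S := by
  rw [evalHom_apply, Polynomial.eval₂_C]
  rfl

private theorem evalHom_X {M : Type} [Field M] [Algebra ℂ M] {d : ℕ}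
    (Y : Fin (d + 1) → M) (ξ : M) :
    evalHom Y ξ (Polynomial.X) = ξ := by
  rw [evalHom_apply, Polynomial.eval₂_X]

private theorem aeval_ne {M : Type} [Field M] [Algebra ℂ M] {d : ℕ}
    (Y : Fin (d + 1) → M) (hY : AlgebraicIndependent ℂ Y) {S : MvPolynomial (Fin (d + 1)) ℂ}
    (hS : S ≠ 0) : MvPolynomial.aeval Y S ≠ 0 := by
  intro h
  exact hS ((injective_iff_map_eq_zero _).1 hY S h)

/-- Proof. `exists_lift_field` (mh/Pull) with `A = Polynomial (MvPolynomial (Fin (d+1)) ℂ)`, `e q = q(y; η)`,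
`g q = q(Y; ξ)`. Kernels: if `q(y; η) = 0` then `C E * q = f * g'` with `E ≠ 0` (`Pres.dvd`), so
`E(Y) q(Y; ξ) = 0` and `E(Y) ≠ 0`. If `q(y; η) ≠ 0`: `Pres.gen` for its inverse gives `S(y) = q(y; η) Q(y; η)`, so
`q(Y; ξ) Q(Y; ξ) = S(Y) ≠ 0`. Surjectivity: `Pres.gen`. -/
theorem sl_embed {K M : Type} [Field K] [Algebra ℂ K] [Field M] [Algebra ℂ M] {d : ℕ}
    (y : Fin (d + 1) → K) (η : K) (f : Polynomial (MvPolynomial (Fin (d + 1)) ℂ)) (hP : Pres y η f)
    (Y : Fin (d + 1) → M) (hY : AlgebraicIndependent ℂ Y) (ξ : M)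
    (hξ : f.eval₂ (MvPolynomial.aeval Y).toRingHom ξ = 0) :
    ∃ φ : K →ₐ[ℂ] M, (∀ i, φ (y i) = Y i) ∧ φ η = ξ := by
  have hfw : ∀ q, evalHom y η q = 0 → evalHom Y ξ q = 0 := by
    intro q hq
    obtain ⟨E, hE, g, hg⟩ := hP.dvd q hq
    have h1 := congrArg (evalHom Y ξ) hg
    rw [map_mul, map_mul, evalHom_C, evalHom_apply Y ξ f, hξ, zero_mul] at h1
    exact (mul_eq_zero.1 h1).resolve_left (aeval_ne Y hY hE)
  have hker : ∀ q, evalHom y η q = 0 ↔ evalHom Y ξ q = 0 := by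
    intro q
    refine ⟨hfw q, fun hq => ?_⟩
    by_contra hne
    obtain ⟨S, Q, hS, hSQ⟩ := hP.gen (evalHom y η q)⁻¹
    have h1 : evalHom y η (Polynomial.C S - q * Q) = 0 := by
      rw [map_sub, map_mul, evalHom_C, evalHom_apply y η Q, ← hSQ]
      field_simp
      ring
    have h2 := hfw _ h1
    rw [map_sub, map_mul, evalHom_C, hq, zero_mul, sub_zero] at h2
    exact aeval_ne Y hY hS h2
  have hsurj : ∀ x : K, ∃ a b, x = evalHom y η a / evalHom y η b := by
    intro x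
    obtain ⟨S, Q, hS, hSQ⟩ := hP.gen x
    refine ⟨Q, Polynomial.C S, ?_⟩
    rw [evalHom_C, evalHom_apply y η Q, ← hSQ]
    have := aeval_ne y hP.ind hS
    field_simp
  obtain ⟨ψ, hψ⟩ := exists_lift_field (evalHom y η) (evalHom Y ξ) hker hsurj
  refine ⟨ψ, fun i => ?_, ?_⟩
  · have h1 := hψ (Polynomial.C (MvPolynomial.X i))
    rwa [evalHom_C, evalHom_C, MvPolynomial.aeval_X, MvPolynomial.aeval_X] at h1
  · have h1 := hψ Polynomial.X
    rwa [evalHom_X, evalHom_X] at h1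

end Pool.Agent.AbPencil
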