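import Pool.Agent.Lib_MP_1209e6_sl.R1
import Pool.Agent.Lib_MP_1209e6_sl.R2
import Pool.Agent.Lib_MP_1209e6_sl.R4
import Pool.Agent.Lib_MP_1209e6_sl.R5a
import Pool.Agent.Lib_MP_1209e6_sp.P

/-! PIECE R6: the generic arc through a place. -/

set_option autoImplicit false

namespace Pool.Agent.AbPencil

open Pool.Agent.Campana Polynomial

/-- constants have order zero -/
private lemma R6_const {K : Type} [Field K] [Algebra ℂ K] {O : ValuationSubring K} (hO : IsPlace O)
    {v : K → ℤ} (hv : IsOrd O v) {c : ℂ} (hc : c ≠ 0) : v (algebraMap ℂ K c) = 0 := by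
  have h0 : algebraMap ℂ K c ≠ 0 := (_root_.map_ne_zero _).2 hc
  have h1 : 0 ≤ v (algebraMap ℂ K c) := (hv.mem_iff h0).1 (hO.1 c)
  have h2 : 0 ≤ v (algebraMap ℂ K c)⁻¹ := by
    rw [← map_inv₀]
    exact (hv.mem_iff ((_root_.map_ne_zero _).2 (inv_ne_zero hc))).1 (hO.1 _)
  rw [hv.map_inv h0] at h2
  omega

/-- elements of positive order are transcendental -/
private lemma R6_trans {K : Type} [Field K] [Algebra ℂ K] {O : ValuationSubring K} (hO : IsPlace O)
    {v : K → ℤ} (hv : IsOrd O v) {a : K} (ha : a ≠ 0) (h1 : 1 ≤ v a) : Transcendental ℂ a := by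
  intro hA
  have hI : IsIntegral ℂ a := hA.isIntegral
  have h2 : (minpoly ℂ a).degree = 1 :=
    IsAlgClosed.degree_eq_one_of_irreducible ℂ (minpoly.irreducible hI)
  obtain ⟨c, hc⟩ := (minpoly.mem_range_of_degree_eq_one ℂ a) h2
  have hc0 : c ≠ 0 := by
    rintro rfl
    exact ha (by rw [← hc, map_zero])
  have h3 := R6_const hO hv hc0
  rw [hc] at h3
  omega

/-- polynomials with values in the place -/
private lemma R6_mem {K : Type} [Field K] [Algebra ℂ K] {O : ValuationSubring K} (hO : IsPlace O)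
    {σ : Type} (g : σ → K) (hg : ∀ i, g i ∈ O) (q : MvPolynomial σ ℂ) :
    MvPolynomial.aeval g q ∈ O := by
  induction q using MvPolynomial.induction_on with
  | C a =>
    rw [MvPolynomial.algHom_C]
    exact hO.1 a
  | add p q hp hq =>
    rw [map_add]
    exact add_mem hp hq
  | mul_X p i hp =>
    rw [map_mul, MvPolynomial.aeval_X]
    exact mul_mem hp (hg i)

/-- a polynomial over the polynomial ring as a polynomial in the variables `Option` -/
private noncomputable def R6_opt {n : ℕ} (q : Polynomial (MvPolynomial (Fin n) ℂ)) :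
    MvPolynomial (Option (Fin n)) ℂ :=
  q.eval₂ (MvPolynomial.rename (some : Fin n → Option (Fin n)) :
    MvPolynomial (Fin n) ℂ →ₐ[ℂ] MvPolynomial (Option (Fin n)) ℂ).toRingHom (MvPolynomial.X none)

private lemma R6_opt_aeval {n : ℕ} {A : Type} [CommRing A] [Algebra ℂ A] (G : Option (Fin n) → A)
    (q : Polynomial (MvPolynomial (Fin n) ℂ)) :
    MvPolynomial.aeval G (R6_opt q) =
      q.eval₂ (MvPolynomial.aeval fun i => G (some i)).toRingHom (G none) := by
  have h1 := Polynomial.hom_eval₂ q (MvPolynomial.rename (some : Fin n → Option (Fin n)) :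
    MvPolynomial (Fin n) ℂ →ₐ[ℂ] MvPolynomial (Option (Fin n)) ℂ).toRingHom
    (MvPolynomial.aeval G).toRingHom (MvPolynomial.X none)
  have h2 : (MvPolynomial.aeval G : MvPolynomial (Option (Fin n)) ℂ →ₐ[ℂ] A).toRingHom
      (MvPolynomial.X none) = G none := MvPolynomial.aeval_X G none
  have h3 : (MvPolynomial.aeval G : MvPolynomial (Option (Fin n)) ℂ →ₐ[ℂ] A).toRingHom.comp
      (MvPolynomial.rename (some : Fin n → Option (Fin n)) :
        MvPolynomial (Fin n) ℂ →ₐ[ℂ] MvPolynomial (Option (Fin n)) ℂ).toRingHom =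
      (MvPolynomial.aeval fun i => G (some i)).toRingHom := by
    apply RingHom.ext
    intro p
    exact MvPolynomial.aeval_rename some G p
  rw [h2, h3] at h1
  exact h1

/-- polynomials of congruent families are congruent -/
private lemma R6_congr {σ A : Type} [CommRing A] [Algebra ℂ A] (a : A) (G G' : σ → A)
    (h : ∀ i, a ∣ G i - G' i) (q : MvPolynomial σ ℂ) :
    a ∣ MvPolynomial.aeval G q - MvPolynomial.aeval G' q := by
  induction q using MvPolynomial.induction_on with
  | C c =>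
    rw [MvPolynomial.algHom_C, MvPolynomial.algHom_C, sub_self]
    exact dvd_zero _
  | add p q hp hq =>
    rw [map_add, map_add, add_sub_add_comm]
    exact dvd_add hp hq
  | mul_X p i hp =>
    rw [map_mul, map_mul, MvPolynomial.aeval_X, MvPolynomial.aeval_X]
    have h1 : MvPolynomial.aeval G p * G i - MvPolynomial.aeval G' p * G' i =
        (MvPolynomial.aeval G p - MvPolynomial.aeval G' p) * G i +
          MvPolynomial.aeval G' p * (G i - G' i) := by ring
    rw [h1]
    exact dvd_add (Dvd.dvd.mul_right hp _) (Dvd.dvd.mul_left (h i) _)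

/-- a complex polynomial as a power series over `κ` -/
private noncomputable def R6_coe (κ : Type) [Field κ] [Algebra ℂ κ] : ℂ[X] →ₐ[ℂ] PowerSeries κ :=
  (Polynomial.coeToPowerSeries.algHom (A := κ) (R := κ)).restrictScalars ℂ |>.comp
    (Polynomial.mapAlgHom (Algebra.ofId ℂ κ))

private lemma R6_coe_apply (κ : Type) [Field κ] [Algebra ℂ κ] (p : ℂ[X]) :
    R6_coe κ p = ((p.map (algebraMap ℂ κ) : κ[X]) : PowerSeries κ) := by
  change (Polynomial.coeToPowerSeries.algHom (A := κ) (R := κ)) (p.map (algebraMap ℂ κ)) = _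
  rw [Polynomial.coeToPowerSeries.algHom_apply, Algebra.algebraMap_self, PowerSeries.map_id]
  rfl

private lemma R6_coe_dvd (κ : Type) [Field κ] [Algebra ℂ κ] (p : ℂ[X]) (n : ℕ) :
    PowerSeries.X ^ n ∣ R6_coe κ p ↔ X ^ n ∣ p := by
  rw [R6_coe_apply, PowerSeries.X_pow_dvd_iff, Polynomial.X_pow_dvd_iff]
  refine forall₂_congr fun m hm => ?_
  rw [Polynomial.coeff_coe, Polynomial.coeff_map]
  exact _root_.map_eq_zero _

/-- the embedding of power series in Laurent series -/
private noncomputable def R6_emb (κ : Type) [Field κ] [Algebra ℂ κ] :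
    PowerSeries κ →ₐ[ℂ] LaurentSeries κ :=
  { HahnSeries.ofPowerSeries ℤ κ with
    commutes' := fun _ => rfl }

private lemma R6_emb_apply (κ : Type) [Field κ] [Algebra ℂ κ] (F : PowerSeries κ) :
    R6_emb κ F = (F : LaurentSeries κ) := rfl

/-- the order of a power series as a Laurent series -/
private lemma R6_order {κ : Type} [Field κ] (F : PowerSeries κ) (n : ℕ) (h1 : PowerSeries.X ^ n ∣ F)
    (h2 : ¬ PowerSeries.X ^ (n + 1) ∣ F) :
    (F : LaurentSeries κ) ≠ 0 ∧ (F : LaurentSeries κ).order = n := by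
  rw [PowerSeries.X_pow_dvd_iff] at h1 h2
  have h3 : PowerSeries.coeff n F ≠ 0 := by
    intro h
    apply h2
    intro m hm
    rcases Nat.lt_succ_iff_lt_or_eq.1 hm with h4 | rfl
    · exact h1 m h4
    · exact h
  have h4 : (F : LaurentSeries κ).coeff n ≠ 0 := by
    rw [LaurentSeries.coeff_coe_powerSeries]
    exact h3
  have h5 : (F : LaurentSeries κ) ≠ 0 := by
    intro h
    rw [h] at h4
    exact h4 rfl
  refine ⟨h5, le_antisymm (HahnSeries.order_le_of_coeff_ne_zero h4) ?_⟩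
  rw [HahnSeries.le_order_iff_forall h5]
  intro m hm
  by_cases h6 : 0 ≤ m
  · obtain ⟨k, rfl⟩ := Int.eq_ofNat_of_zero_le h6
    rw [LaurentSeries.coeff_coe_powerSeries]
    exact h1 k (by exact_mod_cast hm)
  · rw [PowerSeries.coeff_coe, if_pos (by omega)]

/-- divisibility is stable under congruence -/
private lemma R6_dvd_iff {A : Type} [CommRing A] (x a b : A) (n j : ℕ) (hj : j ≤ n)
    (h : x ^ n ∣ a - b) : x ^ j ∣ a ↔ x ^ j ∣ b :=
  (dvd_iff_dvd_of_dvd_sub ((pow_dvd_pow x hj).trans h))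

/-- the generic arc is congruent to `H` -/
private lemma R6_Y {d : ℕ} (L : ℕ) (H : Fin (d + 1) → ℂ[X]) (h0 : H 0 = X) (i : Fin (d + 1)) :
    PowerSeries.X ^ (L + 1) ∣ sl_Y L H i - R6_coe (RF d) (H i) := by
  refine Fin.cases ?_ (fun j => ?_) i
  · have h1 : sl_Y L H 0 = PowerSeries.X := rfl
    rw [h1, h0, R6_coe_apply, Polynomial.map_X, Polynomial.coe_X, sub_self]
    exact dvd_zero _
  · have h1 : sl_Y L H j.succ = (((H j.succ).map (algebraMap ℂ (RF d)) : (RF d)[X]) :
        PowerSeries (RF d)) + PowerSeries.X ^ (L + 1) * PowerSeries.C (rv j) := rfl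
    rw [h1, R6_coe_apply, add_sub_cancel_left]
    exact Dvd.intro _ rfl

/-- the embedding through a generic arc, for an arc over a general field `κ` -/
private lemma R6_main {K κ : Type} [Field K] [Algebra ℂ K] [Field κ] [Algebra ℂ κ] {d : ℕ}
    (v : K → ℤ) (y : Fin (d + 1) → K) (η : K) (f : Polynomial (MvPolynomial (Fin (d + 1)) ℂ))
    (hP : Pres y η f) (g : Option (Fin (d + 1)) → K) (hg : g = fun o => o.elim η y)
    (S : MvPolynomial (Fin (d + 1)) ℂ) (Q : Polynomial (MvPolynomial (Fin (d + 1)) ℂ)) (τ : K)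
    (hSQ : MvPolynomial.aeval y S * τ = Q.eval₂ (MvPolynomial.aeval y).toRingHom η)
    (c s e L : ℕ) (hL : L = 3 * c + s + e + 2) (H : Option (Fin (d + 1)) → ℂ[X])
    (hH1 : ∀ (q : MvPolynomial (Option (Fin (d + 1))) ℂ) (s : ℕ), s ≤ L + 1 →
        (MvPolynomial.aeval g q = 0 ∨ (s : ℤ) ≤ v (MvPolynomial.aeval g q)) →
        X ^ s ∣ MvPolynomial.aeval H q)
    (hHf : ∀ j : ℕ, X ^ j ∣ MvPolynomial.aeval H (R6_opt (derivative f)) ↔ j ≤ c)
    (hHS : ∀ j : ℕ, X ^ j ∣ MvPolynomial.aeval H (R6_opt (Polynomial.C S)) ↔ j ≤ s)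
    (hHQ : ∀ j : ℕ, X ^ j ∣ MvPolynomial.aeval H (R6_opt Q) ↔ j ≤ s + e)
    (Y : Fin (d + 1) → PowerSeries κ)
    (hY : ∀ i, PowerSeries.X ^ (L + 1) ∣ Y i - R6_coe κ (H (some i)))
    (hind : AlgebraicIndependent ℂ fun i => (Y i : LaurentSeries κ)) :
    ∃ φ : K →ₐ[ℂ] LaurentSeries κ, (∀ i, φ (y i) = (Y i : LaurentSeries κ)) ∧
      (φ τ).order = e := by
  have hgev : ∀ q : Polynomial (MvPolynomial (Fin (d + 1)) ℂ),
      MvPolynomial.aeval g (R6_opt q) = q.eval₂ (MvPolynomial.aeval y).toRingHom η := by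
    intro q
    rw [hg]
    exact R6_opt_aeval _ q
  have hcoe : ∀ q : MvPolynomial (Option (Fin (d + 1))) ℂ,
      MvPolynomial.aeval (fun o => R6_coe κ (H o)) q = R6_coe κ (MvPolynomial.aeval H q) := by
    intro q
    rw [← MvPolynomial.comp_aeval_apply]
  -- divisibility at families congruent to `H`
  have hdiv : ∀ (n : ℕ) (w : PowerSeries κ), n ≤ L + 1 →
      PowerSeries.X ^ n ∣ w - R6_coe κ (H none) → ∀ (q : Polynomial (MvPolynomial (Fin (d + 1)) ℂ))
      (j : ℕ), j ≤ n → (PowerSeries.X ^ j ∣ q.eval₂ (MvPolynomial.aeval Y).toRingHom w ↔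
        X ^ j ∣ MvPolynomial.aeval H (R6_opt q)) := by
    intro n w hn hw q j hj
    have h1 := R6_congr (PowerSeries.X ^ n) (fun o : Option (Fin (d + 1)) => o.elim w Y)
      (fun o => R6_coe κ (H o)) (by
        intro o
        rcases o with _ | i
        · exact hw
        · exact (pow_dvd_pow _ hn).trans (hY i)) (R6_opt q)
    rw [hcoe, R6_opt_aeval] at h1
    exact (R6_dvd_iff _ _ _ n j hj h1).trans (R6_coe_dvd κ _ j)
  -- Hensel's lemma
  have heval : ∀ (q : Polynomial (MvPolynomial (Fin (d + 1)) ℂ)) (w : PowerSeries κ),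
      (q.map (MvPolynomial.aeval Y).toRingHom).eval w =
        q.eval₂ (MvPolynomial.aeval Y).toRingHom w := fun q w => Polynomial.eval_map _ _
  obtain ⟨ξ, hξ, hξ2⟩ := sl_hensel (f.map (MvPolynomial.aeval Y).toRingHom)
    (R6_coe κ (H none)) c L (by omega) (by
      rw [heval, hdiv (L + 1) _ le_rfl (by rw [sub_self]; exact dvd_zero _) f (L + 1) le_rfl]
      refine hH1 _ _ le_rfl (Or.inl ?_)
      rw [hgev]
      exact hP.root) (by
      rw [Polynomial.derivative_map, heval, hdiv (L + 1) _ le_rfl (by rw [sub_self]; exact dvd_zero _)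
        (derivative f) (c + 1) (by omega), hHf]
      omega)
  rw [heval] at hξ
  -- the embedding
  have hemb : ∀ (q : Polynomial (MvPolynomial (Fin (d + 1)) ℂ)) (w : PowerSeries κ),
      q.eval₂ (MvPolynomial.aeval fun i => (Y i : LaurentSeries κ)).toRingHom
        (w : LaurentSeries κ) =
      ((q.eval₂ (MvPolynomial.aeval Y).toRingHom w : PowerSeries κ) : LaurentSeries κ) := by
    intro q w
    have h1 := R6_opt_aeval (fun o : Option (Fin (d + 1)) => R6_emb κ (o.elim w Y)) q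
    have h2 := R6_opt_aeval (fun o : Option (Fin (d + 1)) => o.elim w Y) q
    have h3 := MvPolynomial.comp_aeval_apply (fun o : Option (Fin (d + 1)) => o.elim w Y)
      (R6_emb κ) (R6_opt q)
    rw [h2] at h3
    exact h1.symm.trans h3.symm
  obtain ⟨φ, hφ1, hφ2⟩ := sl_embed y η f hP (fun i => (Y i : LaurentSeries κ))
    hind (ξ : LaurentSeries κ) (by
      rw [hemb, hξ]
      exact PowerSeries.coe_zero)
  refine ⟨φ, hφ1, ?_⟩
  -- the order
  have hφq : ∀ q : Polynomial (MvPolynomial (Fin (d + 1)) ℂ),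
      φ (q.eval₂ (MvPolynomial.aeval y).toRingHom η) =
      ((q.eval₂ (MvPolynomial.aeval Y).toRingHom ξ : PowerSeries κ) : LaurentSeries κ) := by
    intro q
    rw [← hemb, ← hgev, MvPolynomial.comp_aeval_apply, R6_opt_aeval]
    have h5 : (fun i => φ (g (some i))) = fun i => (Y i : LaurentSeries κ) := by
      funext i
      rw [hg]
      exact hφ1 i
    have h6 : φ (g none) = (ξ : LaurentSeries κ) := by
      rw [hg]
      exact hφ2
    rw [h5, h6]
  have hord : ∀ q : Polynomial (MvPolynomial (Fin (d + 1)) ℂ), ∀ n : ℕ,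
      (∀ j : ℕ, X ^ j ∣ MvPolynomial.aeval H (R6_opt q) ↔ j ≤ n) → n ≤ s + e →
      φ (q.eval₂ (MvPolynomial.aeval y).toRingHom η) ≠ 0 ∧
        (φ (q.eval₂ (MvPolynomial.aeval y).toRingHom η)).order = n := by
    intro q n hq hn2
    rw [hφq]
    refine R6_order _ n ?_ ?_
    · rw [hdiv (L + 1 - c) ξ (by omega) hξ2 q n (by omega), hq]
    · rw [hdiv (L + 1 - c) ξ (by omega) hξ2 q (n + 1) (by omega), hq]
      omega
  have h1 := hord (Polynomial.C S) s hHS (by omega)
  have h2 := hord Q (s + e) hHQ le_rfl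
  have h3 : (Polynomial.C S).eval₂ (MvPolynomial.aeval y).toRingHom η = MvPolynomial.aeval y S := by
    rw [Polynomial.eval₂_C]
    rfl
  rw [h3] at h1
  rw [← hSQ, map_mul] at h2
  have h4 : φ τ ≠ 0 := by
    intro h
    apply h2.1
    rw [h, mul_zero]
  have h5 := h2.2
  rw [HahnSeries.order_mul h1.1 h4, h1.2] at h5
  push_cast at h5
  omega

/-- Proof. `π` with `v π = 1` is transcendental (`trans_of_ord` or directly); `exists_pres` for it gives `y` with
`y 0 = π`, `η`, `f`. `τ`: `S(y) τ = Q(y; η)` (`Pres.gen`). Let `c = v (f'(y; η))`, `s = v (S(y))`, so `v (Q(y; η)) = s + e`; let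
`L` be at least `2 c + 1` and `c + s + e + 1`. `sl_exists_spec` for `σ = Option (Fin (d+1))`, `g none = η`, `g (some i) = y i`,
`i₀ = some 0` and the set of the polynomials `f', S, Q` (as polynomials in the variables `σ`:
`MvPolynomial.optionEquivLeft`, or `Polynomial.eval₂` into `MvPolynomial σ ℂ` with `rename some` on the coefficients
and `X none`): `H`, `H (some 0) = X`. Put `Ŷ = sl_Y L (H ∘ some)`, congruent to `H ∘ some` modulo `X^(L+1)`; `sl_hensel` for
the polynomial `f` with the coefficients evaluated at `Ŷ` and the approximate root `H none` gives a root `ξ`,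
congruent to `H none` modulo `X^(L+1-c)`. `sl_embed` (in `LaurentSeries (RF d)`) with `sl_indep`: `φ`. Orders: `S(Ŷ)` has order `s`
and `Q(Ŷ; ξ)` has order `s + e`, both at most `L - c`, so `φ τ` has order `e`. -/
theorem sl_generic {K : Type} [Field K] [Algebra ℂ K] (T₀ : Finset K)
    (hT₀ : IntermediateField.adjoin ℂ (T₀ : Set K) = ⊤) (O : ValuationSubring K) (hO : IsPlace O)
    (v : K → ℤ) (hv : IsOrd O v) (τ : K) (hτ0 : τ ≠ 0) (e : ℕ) (he : 1 ≤ e) (hτ : v τ = e) :
    ∃ (d : ℕ) (y : Fin (d + 1) → K) (η : K) (f : Polynomial (MvPolynomial (Fin (d + 1)) ℂ)) (L : ℕ)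
      (H : Fin (d + 1) → ℂ[X]) (φ : K →ₐ[ℂ] LaurentSeries (RF d)),
      Pres y η f ∧ (∀ i, φ (y i) = (sl_Y L H i : LaurentSeries (RF d))) ∧ (φ τ).order = e := by
  classical
  obtain ⟨π, hπ0, hπ⟩ := hv.2.2
  have hπt : Transcendental ℂ π := R6_trans hO hv hπ0 (by omega)
  obtain ⟨d, y, η, f, hy0, hyO, hηO, hP⟩ := exists_pres T₀ hT₀ O hO v hv π hπt (by omega)
  obtain ⟨S, Q, hS, hSQ⟩ := hP.gen τ
  -- the family
  obtain ⟨g, hg⟩ : ∃ g : Option (Fin (d + 1)) → K, g = fun o => o.elim η y := ⟨_, rfl⟩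
  have hgO : ∀ i, g i ∈ O := by
    intro i
    rw [hg]
    rcases i with _ | i
    · exact hηO
    · exact hyO i
  have hgev : ∀ q : Polynomial (MvPolynomial (Fin (d + 1)) ℂ),
      MvPolynomial.aeval g (R6_opt q) = q.eval₂ (MvPolynomial.aeval y).toRingHom η := by
    intro q
    rw [hg]
    exact R6_opt_aeval _ q
  have hgS : MvPolynomial.aeval g (R6_opt (Polynomial.C S)) = MvPolynomial.aeval y S := by
    rw [hgev, Polynomial.eval₂_C]
    rfl
  have hg0 : g (some 0) = π := by
    rw [hg]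
    exact hy0
  -- orders
  have hS0 : MvPolynomial.aeval y S ≠ 0 := by
    intro h
    exact hS (hP.ind (by rw [h, map_zero]))
  have hQ0 : Q.eval₂ (MvPolynomial.aeval y).toRingHom η ≠ 0 := by
    rw [← hSQ]
    exact mul_ne_zero hS0 hτ0
  obtain ⟨c, hc⟩ := Int.eq_ofNat_of_zero_le ((hv.mem_iff hP.sep).1 (by
    rw [← hgev]
    exact R6_mem hO g hgO _))
  obtain ⟨s, hs⟩ := Int.eq_ofNat_of_zero_le ((hv.mem_iff hS0).1 (R6_mem hO y hyO S))
  have hvQ : v (Q.eval₂ (MvPolynomial.aeval y).toRingHom η) = (s + e : ℕ) := by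
    rw [← hSQ, hv.map_mul hS0 hτ0, hs, hτ]
    push_cast
    ring
  obtain ⟨L, hL⟩ : ∃ L : ℕ, L = 3 * c + s + e + 2 := ⟨_, rfl⟩
  obtain ⟨H, hH0, hH1, hH2⟩ := sl_exists_spec O hO v hv L (by omega) g hgO (some 0)
    (by rw [hg0]; exact hπ0) (by rw [hg0]; exact hπ)
    {R6_opt (derivative f), R6_opt (Polynomial.C S), R6_opt Q} (by
      intro q hq
      simp only [Finset.mem_insert, Finset.mem_singleton] at hq
      rcases hq with rfl | rfl | rfl
      · rw [hgev]
        exact ⟨hP.sep, by rw [hc, hL]; push_cast; omega⟩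
      · rw [hgS]
        exact ⟨hS0, by rw [hs, hL]; push_cast; omega⟩
      · rw [hgev]
        exact ⟨hQ0, by rw [hvQ, hL]; push_cast; omega⟩)
  obtain ⟨φ, hφ1, hφ2⟩ := R6_main (κ := RF d) v y η f hP g hg S Q τ hSQ c s e L hL H hH1
    (by
      intro j
      rw [hH2 _ (Finset.mem_insert_self _ _) j, hgev, hc]
      exact Nat.cast_le)
    (by
      intro j
      rw [hH2 _ (Finset.mem_insert_of_mem (Finset.mem_insert_self _ _)) j, hgS, hs]
      exact Nat.cast_le)
    (by
      intro j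
      rw [hH2 _ (Finset.mem_insert_of_mem (Finset.mem_insert_of_mem
        (Finset.mem_singleton_self _))) j, hgev, hvQ]
      exact Nat.cast_le)
    (sl_Y L fun i => H (some i)) (fun i => R6_Y L (fun i => H (some i)) hH0 i)
    (sl_indep L fun i => H (some i))
  exact ⟨d, y, η, f, L, fun i => H (some i), φ, hP, hφ1, hφ2⟩

end Pool.Agent.AbPencil
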