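import Pool.Agent.Lib_MP_1209e6_sl.R3
import Pool.Agent.Lib_MP_1209e6_sl.R6
import Pool.Agent.Lib_MP_1209e6_sl.R5b
import Pool.Agent.Lib_MP_1209e6_sl.R5c

/-! PIECE R7: good places. -/

set_option autoImplicit false

namespace Pool.Agent.AbPencil

open Pool.Agent.Campana Polynomial

private theorem slr7_coe {κ : Type} [Field κ] [Algebra ℂ κ] (P : ℂ[X]) :
    aeval ((PowerSeries.X : PowerSeries κ) : LaurentSeries κ) P =
      (((P.map (algebraMap ℂ κ) : κ[X]) : PowerSeries κ) : LaurentSeries κ) := by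
  induction P using Polynomial.induction_on' with
  | add p q hp hq => rw [map_add, hp, hq, Polynomial.map_add, Polynomial.coe_add, map_add]
  | monomial n a =>
    rw [← Polynomial.C_mul_X_pow_eq_monomial, map_mul, map_pow, aeval_X, aeval_C,
      Polynomial.map_mul, Polynomial.map_pow, Polynomial.map_C, Polynomial.map_X,
      Polynomial.coe_mul, Polynomial.coe_pow, Polynomial.coe_C, Polynomial.coe_X, map_mul, map_pow]
    congr 1
    rw [HahnSeries.algebraMap_apply', PowerSeries.algebraMap_apply]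

private theorem slr7_mk {M : Type} [Field M] [Algebra ℂ M] (δ : M → M)
    (hadd : ∀ a b, δ (a + b) = δ a + δ b) (hmul : ∀ a b, δ (a * b) = a * δ b + b * δ a)
    (hC : ∀ c : ℂ, δ (algebraMap ℂ M c) = 0) : ∃ δ' : Derivation ℂ M M, ∀ a, δ' a = δ a := by
  refine ⟨Derivation.mk' { toFun := δ, map_add' := hadd, map_smul' := fun c a => ?_ }
    (fun a b => by simpa [smul_eq_mul] using hmul a b), fun a => rfl⟩
  rw [Algebra.smul_def, hmul, hC, mul_zero, add_zero, Algebra.smul_def]
  rfl

private theorem slr7_exists {κ : Type} [Field κ] (f : LaurentSeries κ) (h : 0 ≤ f.order) :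
    ∃ F : PowerSeries κ, (F : LaurentSeries κ) = f := by
  refine ⟨PowerSeries.mk fun n => f.coeff n, ?_⟩
  ext n
  rw [PowerSeries.coeff_coe]
  by_cases hn : n < 0
  · rw [if_pos hn, HahnSeries.coeff_eq_zero_of_lt_order (lt_of_lt_of_le hn h)]
  · rw [if_neg hn, PowerSeries.coeff_mk]
    congr 1
    omega

private theorem slr7_order {κ : Type} [Field κ] (F : PowerSeries κ) (h : (F : LaurentSeries κ) ≠ 0) :
    0 ≤ (F : LaurentSeries κ).order := by
  by_contra hlt
  have h3 := mt HahnSeries.coeff_order_eq_zero.1 h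
  apply h3
  rw [PowerSeries.coeff_coe, if_pos (not_le.1 hlt)]

/-- Given a place over a point with multiplicity `e`, there is a (divisorial) place with the same multiplicity
and a derivation preserving it which is transversal. Proof. `sl_generic`, `sl_place` with `π = y 0` (`φ π = X` has order one).
`sl_laurent (RF d)` gives `δ`, restricted to `ℂ`. `sl_der` with `β 0 = 1`,
`β i.succ = H i.succ'(y 0) + (L + 1) (y i.succ - H i.succ(y 0)) / y 0` (`aeval (y 0)` of the polynomials). If `a ∈ O'` then `φ a`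
is a power series, so `δ (φ a) = φ (D a)` is one. `v' (D τ) = v' τ - 1` by the last property of `δ`. -/
theorem sl_good_place {K : Type} [Field K] [Algebra ℂ K] (T₀ : Finset K)
    (hT₀ : IntermediateField.adjoin ℂ (T₀ : Set K) = ⊤) (O : ValuationSubring K) (hO : IsPlace O)
    (v : K → ℤ) (hv : IsOrd O v) (τ : K) (hτ0 : τ ≠ 0) (e : ℕ) (he : 1 ≤ e) (hτ : v τ = e) :
    ∃ (O' : ValuationSubring K) (v' : K → ℤ) (D : Derivation ℂ K K), IsPlace O' ∧ IsOrd O' v' ∧
      v' τ = e ∧ (∀ a ∈ O', D a ∈ O') ∧ D τ ≠ 0 ∧ v' (D τ) = e - 1 := by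
  obtain ⟨d, y, η, f, L, H, φ, hP, hy, hφτ⟩ := sl_generic T₀ hT₀ O hO v hv τ hτ0 e he hτ
  have hinj : Function.Injective φ := φ.injective
  have hy0 : φ (y 0) = ((PowerSeries.X : PowerSeries (RF d)) : LaurentSeries (RF d)) := by
    rw [hy 0]
    rfl
  have hX : ((PowerSeries.X : PowerSeries (RF d)) : LaurentSeries (RF d)) =
      HahnSeries.single (1 : ℤ) (1 : RF d) := HahnSeries.ofPowerSeries_X
  have hX0 : ((PowerSeries.X : PowerSeries (RF d)) : LaurentSeries (RF d)) ≠ 0 := by
    rw [hX]
    exact HahnSeries.single_ne_zero one_ne_zero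
  have hord0 : (φ (y 0)).order = 1 := by
    rw [hy0, hX, HahnSeries.order_single one_ne_zero]
  obtain ⟨O', v', hO', hv', hvv⟩ := sl_place φ (y 0) hord0
  obtain ⟨δ, hδ1, hδ2, hδ3⟩ := sl_laurent (RF d)
  have hδC : ∀ c : ℂ, δ (algebraMap ℂ (LaurentSeries (RF d)) c) = 0 := by
    intro c
    have h : algebraMap ℂ (LaurentSeries (RF d)) c =
        ((PowerSeries.C (algebraMap ℂ (RF d) c) : PowerSeries (RF d)) : LaurentSeries (RF d)) := by
      rw [HahnSeries.algebraMap_apply', PowerSeries.algebraMap_apply]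
    rw [h, hδ2]
    have h2 : PowerSeries.derivative (RF d) (PowerSeries.C (algebraMap ℂ (RF d) c)) = 0 := by
      ext n
      rw [PowerSeries.coeff_derivative, PowerSeries.coeff_C]
      simp
    rw [h2, map_zero]
  have hleib : ∀ a b, δ (a * b) = a * δ b + b * δ a := fun a b => by
    have := δ.leibniz a b
    simpa [smul_eq_mul] using this
  obtain ⟨δ', hδ'⟩ := slr7_mk (M := LaurentSeries (RF d)) (fun a => δ a) (fun a b => map_add δ a b)
    hleib hδC
  have hδ' : ∀ a, δ' a = δ a := hδ'
  have hδX : δ ((PowerSeries.X : PowerSeries (RF d)) : LaurentSeries (RF d)) = 1 := by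
    rw [hX]
    exact hδ1
  obtain ⟨D, hD⟩ := sl_der (M := LaurentSeries (RF d)) y η f hP φ δ'
    (Fin.cons 1 fun i => aeval (y 0) (derivative (H i.succ)) +
      ((L : K) + 1) * (y i.succ - aeval (y 0) (H i.succ)) / y 0) (by
    intro i
    refine Fin.cases ?_ (fun i => ?_) i
    · rw [Fin.cons_zero, map_one, hδ', hy0, hδX]
    · rw [Fin.cons_succ, hδ', map_add, map_div₀, map_mul, map_sub, ← Polynomial.aeval_algHom_apply,
        ← Polynomial.aeval_algHom_apply, hy0, hy i.succ, map_add, map_natCast, map_one, slr7_coe, slr7_coe]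
      have hYi : ((sl_Y L H i.succ : PowerSeries (RF d)) : LaurentSeries (RF d)) =
          ((((H i.succ).map (algebraMap ℂ (RF d)) : (RF d)[X]) : PowerSeries (RF d)) : LaurentSeries (RF d)) +
          ((PowerSeries.X : PowerSeries (RF d)) : LaurentSeries (RF d)) ^ (L + 1) *
            ((PowerSeries.C (rv i) : PowerSeries (RF d)) : LaurentSeries (RF d)) := by
        have : sl_Y L H i.succ = (((H i.succ).map (algebraMap ℂ (RF d)) : (RF d)[X]) :
            PowerSeries (RF d)) + PowerSeries.X ^ (L + 1) * PowerSeries.C (rv i) := rfl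
        rw [this, map_add, map_mul, map_pow]
      rw [hYi, map_add, hleib, hδ2, hδ2]
      have h2 : PowerSeries.derivative (RF d) (PowerSeries.C (rv i)) = 0 := by
        ext n
        rw [PowerSeries.coeff_derivative, PowerSeries.coeff_C]
        simp
      have h3 : δ (((PowerSeries.X : PowerSeries (RF d)) : LaurentSeries (RF d)) ^ (L + 1)) =
          ((L : LaurentSeries (RF d)) + 1) *
            ((PowerSeries.X : PowerSeries (RF d)) : LaurentSeries (RF d)) ^ L := by
        have h4 := δ.leibniz_pow ((PowerSeries.X : PowerSeries (RF d)) : LaurentSeries (RF d)) (L + 1)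
        rw [hδX] at h4
        rw [h4]
        simp [nsmul_eq_mul]
      have h5 : PowerSeries.derivative (RF d) (((H i.succ).map (algebraMap ℂ (RF d)) : (RF d)[X]) :
          PowerSeries (RF d)) = ((((derivative (H i.succ)).map (algebraMap ℂ (RF d)) : (RF d)[X])) :
          PowerSeries (RF d)) := by
        rw [← Polynomial.derivative_map]
        exact PowerSeries.derivative_coe _
      rw [h2, map_zero, mul_zero, zero_add, h3, h5, add_sub_cancel_left, pow_succ]
      field_simp)
  refine ⟨O', v', D, hO', hv', ?_, ?_, ?_⟩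
  · rw [hvv τ hτ0, hφτ]
  · intro a ha
    by_cases ha0 : a = 0
    · rw [ha0, map_zero]
      exact O'.zero_mem
    by_cases hDa : D a = 0
    · rw [hDa]
      exact O'.zero_mem
    have h1 : 0 ≤ (φ a).order := by
      rw [← hvv a ha0]
      exact (hv'.2.1 a ha0).mp ha
    obtain ⟨F, hF⟩ := slr7_exists (φ a) h1
    rw [hv'.2.1 _ hDa, hvv _ hDa, hD a, hδ', ← hF, hδ2]
    apply slr7_order
    rw [← hδ2, hF, ← hδ', ← hD a]
    exact (map_ne_zero φ).mpr hDa
  · have h1 : (φ τ) ≠ 0 := (map_ne_zero φ).mpr hτ0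
    have h2 := hδ3 (φ τ) h1 (by rw [hφτ]; exact_mod_cast he)
    rw [← hδ', ← hD τ] at h2
    have h3 : D τ ≠ 0 := (map_ne_zero φ).mp h2.1
    exact ⟨h3, by rw [hvv _ h3, h2.2, hφτ]⟩

end Pool.Agent.AbPencil
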