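import Pool.Agent.Lib_MP_1209e6_sl.Defs
import Pool.Agent.Lib_MP_1209e6_sl.R7

/-! PIECE Q2: orders of the sections of the base at good places. -/

set_option autoImplicit false

namespace Pool.Agent.AbPencil

open Pool.Agent.Campana

/-- regularity of `f ω^m` at a place preserved by a derivation `D` with `D T ≠ 0` -/
private theorem Q2_core {K : Type} [Field K] [Algebra ℂ K] {T : K} {ω : Form K 1} {a : K}
    (ha : a ≠ 0) (hω : ∀ D : Derivation ℂ K K, ω (fun _ => D) = a * D T) {m : ℕ} {f : K}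
    (hf : f ≠ 0) {O : ValuationSubring K} {v : K → ℤ} (hv : IsOrd O v) (hreg : RegularAt O ω m f)
    (D : Derivation ℂ K K) (hD : ∀ x ∈ O, D x ∈ O) (hDT : D T ≠ 0) :
    -(m * v (D T) : ℤ) ≤ v (f * a ^ m) := by
  obtain ⟨u, hu, h1, h2⟩ := hreg
  have h3 := h1 (fun _ => D) (fun _ => hD)
  rw [hω D] at h3
  have h4 : u⁻¹ * (a * D T) ≠ 0 := mul_ne_zero (inv_ne_zero hu) (mul_ne_zero ha hDT)
  rw [hv.mem_iff h4, hv.map_mul (inv_ne_zero hu) (mul_ne_zero ha hDT), hv.map_inv hu,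
    hv.map_mul ha hDT] at h3
  rw [hv.mem_iff (mul_ne_zero hf (pow_ne_zero _ hu)), hv.map_mul hf (pow_ne_zero _ hu),
    hv.map_pow hu] at h2
  rw [hv.map_mul hf (pow_ne_zero _ ha), hv.map_pow ha]
  have h5 : (0 : ℤ) ≤ m * (-v u + (v a + v (D T))) := mul_nonneg (Int.natCast_nonneg m) h3
  have h6 : (m : ℤ) * (-v u + (v a + v (D T))) = -(m * v u) + m * v a + m * v (D T) := by ring
  rw [h6] at h5
  linarith

/-- Let `ω = a dT`, `f ω^m` regular at all places. At a suitable place with the given multiplicity `e` over the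
finite point `b` the function `f a^m` has order at least `- m (e - 1)`. Proof. `sl_good_place` with `τ = T - b`:
`D τ = D T`. `RegularAt`: `u⁻¹ a D T ∈ O'` and `f u^m ∈ O'`, so `f a^m (D T)^m = f u^m (u⁻¹ a D T)^m ∈ O'`. -/
theorem sl_bound_fin {K : Type} [Field K] [Algebra ℂ K] (T₀ : Finset K)
    (hT₀ : IntermediateField.adjoin ℂ (T₀ : Set K) = ⊤) (T : K) (hT : Transcendental ℂ T) (ω : Form K 1) (a : K) (ha : a ≠ 0)
    (hω : ∀ D : Derivation ℂ K K, ω (fun _ => D) = a * D T) (m : ℕ) (F : Fin 2 → K) (hF : ∀ i, F i ≠ 0)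
    (hreg : ∀ O : ValuationSubring K, IsPlace O → ∀ i, RegularAt O ω m (F i)) (b : ℂ)
    (O : ValuationSubring K) (hO : IsPlace O) (v : K → ℤ) (hv : IsOrd O v) (e : ℕ) (he : 1 ≤ e)
    (hb : v (T - algebraMap ℂ K b) = e) :
    ∃ (O' : ValuationSubring K) (v' : K → ℤ), IsPlace O' ∧ IsOrd O' v' ∧
      v' (T - algebraMap ℂ K b) = e ∧ ∀ i, -(m * (e - 1) : ℤ) ≤ v' (F i * a ^ m) := by
  have hτ0 : T - algebraMap ℂ K b ≠ 0 := by
    intro h
    apply hT
    rw [sub_eq_zero.1 h]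
    exact isAlgebraic_algebraMap b
  obtain ⟨O', v', D, hO', hv', h1, h2, h3, h4⟩ := sl_good_place T₀ hT₀ O hO v hv
    (T - algebraMap ℂ K b) hτ0 e he hb
  have h5 : D (T - algebraMap ℂ K b) = D T := by
    rw [map_sub, D.map_algebraMap, sub_zero]
  rw [h5] at h3 h4
  refine ⟨O', v', hO', hv', h1, fun i => ?_⟩
  have h6 := Q2_core ha hω (hF i) hv' (hreg O' hO' i) D h2 h3
  rwa [h4] at h6

/-- The same at infinity. Proof. `τ = T⁻¹`, `D τ = - T⁻² D T`, so `v' (D T) = e - 1 - 2 e = - e - 1`. -/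
theorem sl_bound_inf {K : Type} [Field K] [Algebra ℂ K] (T₀ : Finset K)
    (hT₀ : IntermediateField.adjoin ℂ (T₀ : Set K) = ⊤) (T : K) (hT : Transcendental ℂ T) (ω : Form K 1) (a : K) (ha : a ≠ 0)
    (hω : ∀ D : Derivation ℂ K K, ω (fun _ => D) = a * D T) (m : ℕ) (F : Fin 2 → K) (hF : ∀ i, F i ≠ 0)
    (hreg : ∀ O : ValuationSubring K, IsPlace O → ∀ i, RegularAt O ω m (F i))
    (O : ValuationSubring K) (hO : IsPlace O) (v : K → ℤ) (hv : IsOrd O v) (e : ℕ) (he : 1 ≤ e)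
    (hb : v T⁻¹ = e) :
    ∃ (O' : ValuationSubring K) (v' : K → ℤ), IsPlace O' ∧ IsOrd O' v' ∧
      v' T⁻¹ = e ∧ ∀ i, (m * (e + 1) : ℤ) ≤ v' (F i * a ^ m) := by
  have hT0 : T ≠ 0 := by
    rintro rfl
    exact hT isAlgebraic_zero
  obtain ⟨O', v', D, hO', hv', h1, h2, h3, h4⟩ := sl_good_place T₀ hT₀ O hO v hv
    T⁻¹ (inv_ne_zero hT0) e he hb
  have h5 : D T⁻¹ = -(T⁻¹ ^ 2) * D T := by
    have h6 : D (T * T⁻¹) = 0 := by
      rw [mul_inv_cancel₀ hT0]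
      exact D.map_one_eq_zero
    rw [D.leibniz, smul_eq_mul, smul_eq_mul] at h6
    have h7 : T * (D T⁻¹ + T⁻¹ ^ 2 * D T) = 0 := by
      have h8 : T * T⁻¹ = 1 := mul_inv_cancel₀ hT0
      linear_combination h6 + (T⁻¹ * D T) * h8
    have h9 := (mul_eq_zero.1 h7).resolve_left hT0
    linear_combination h9
  have hDT : D T ≠ 0 := by
    intro h
    exact h3 (by rw [h5, h, mul_zero])
  have h6 : v' (D T) = -(e : ℤ) - 1 := by
    rw [h5, hv'.map_mul (neg_ne_zero.2 (pow_ne_zero _ (inv_ne_zero hT0))) hDT,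
      hv'.map_neg (pow_ne_zero _ (inv_ne_zero hT0)), hv'.map_pow (inv_ne_zero hT0), h1] at h4
    push_cast at h4
    linarith
  refine ⟨O', v', hO', hv', h1, fun i => ?_⟩
  have h7 := Q2_core ha hω (hF i) hv' (hreg O' hO' i) D h2 hDT
  rw [h6] at h7
  have h8 : -(m * (-(e : ℤ) - 1)) = (m * (e + 1) : ℤ) := by ring
  rwa [h8] at h7

end Pool.Agent.AbPencil
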