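import Pool.Agent.Lib_MP_1209e6_sl.T0
import Pool.Agent.Lib_MP_1209e6_sl.Q1a
import Pool.Agent.Lib_MP_1209e6_sl.Q1b
import Pool.Agent.Lib_MP_1209e6_sl.Q2

/-! PIECE T7: no sections over the line. -/

set_option autoImplicit false

namespace Pool.Agent.AbPencil

open Pool.Agent.Campana Polynomial

private theorem T7_spec {K : Type} [Field K] [Algebra ℂ K] (T₀ : Finset K)
    (hT₀ : IntermediateField.adjoin ℂ (T₀ : Set K) = ⊤) (T : K) (hT : Transcendental ℂ T)
    (b : Option ℂ) : IsMult T b (infMult T b) := by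
  obtain ⟨O, v, hO, hv, h1⟩ := exists_place_over T₀ hT₀ (par T b) (par_transcendental T hT b)
  obtain ⟨e, he⟩ := Int.eq_ofNat_of_zero_le (by omega : (0 : ℤ) ≤ v (par T b))
  have h2 : ({e | IsMult T b e} : Set ℕ).Nonempty := ⟨e, O, v, hO, hv, by omega, he⟩
  exact Nat.sInf_mem h2

private theorem T7_form {K : Type} [Field K] [Algebra ℂ K] (ω : Form K 1)
    (D E : Derivation ℂ K K) (c : K) :
    ω (fun _ => D + c • E) = ω (fun _ => D) + c * ω (fun _ => E) := by
  have h1 : ∀ X : Derivation ℂ K K, (fun _ : Fin 1 => X) =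
      Function.update (fun _ : Fin 1 => (0 : Derivation ℂ K K)) 0 X := by
    intro X
    funext i
    rw [Subsingleton.elim i 0, Function.update_self]
  rw [h1 (D + c • E), h1 D, h1 E, AlternatingMap.map_update_add, AlternatingMap.map_update_smul,
    smul_eq_mul]

private theorem T7_pres {K : Type} [Field K] [Algebra ℂ K] (L : IntermediateField ℂ K) (T : K)
    (hL : L = IntermediateField.adjoin ℂ {T}) (E : Derivation ℂ K K) (hE : E T ∈ L) :
    ∀ z ∈ L, E z ∈ L := by
  intro z hz
  have hz' : z ∈ IntermediateField.adjoin ℂ {T} := by rw [← hL]; exact hz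
  have key : ∀ (y : K) (hy : y ∈ IntermediateField.adjoin ℂ {T}), E y ∈ L := by
    intro y hy
    induction hy using IntermediateField.adjoin_induction with
    | mem x hx =>
      rw [Set.mem_singleton_iff] at hx
      rw [hx]
      exact hE
    | algebraMap c =>
      rw [E.map_algebraMap]
      exact L.zero_mem
    | add x y hx hy ihx ihy =>
      rw [map_add]
      exact L.add_mem ihx ihy
    | inv x hx ih =>
      have hxL : x ∈ L := by rw [hL]; exact hx
      rw [Derivation.leibniz_inv]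
      exact L.mul_mem (L.neg_mem (pow_mem (L.inv_mem hxL) 2)) ih
    | mul x y hx hy ihx ihy =>
      have hxL : x ∈ L := by rw [hL]; exact hx
      have hyL : y ∈ L := by rw [hL]; exact hy
      rw [E.leibniz, smul_eq_mul, smul_eq_mul]
      exact L.add_mem (L.mul_mem hxL ihy) (L.mul_mem hyL ihx)
  exact key z hz'

private theorem T7_kill {K : Type} [Field K] [Algebra ℂ K] (T : K)
    (D : Derivation ℂ K K) (hD : D T = 0) :
    ∀ z ∈ IntermediateField.adjoin ℂ {T}, D z = 0 := by
  intro z hz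
  induction hz using IntermediateField.adjoin_induction with
  | mem x hx =>
    rw [Set.mem_singleton_iff] at hx
    rw [hx]
    exact hD
  | algebraMap c => exact D.map_algebraMap c
  | add x y hx hy ihx ihy => rw [map_add, ihx, ihy, add_zero]
  | inv x hx ih => rw [Derivation.leibniz_inv, ih, smul_zero]
  | mul x y hx hy ihx ihy => rw [D.leibniz, ihx, ihy, smul_zero, smul_zero, add_zero]

/-- Proof. Let `ω, m, F` be as in `HasBaseSections`. Choose `E` with `E T = 1` (`T` transcendental), it preserves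
`ℂ(T) = FT t`; `a = ω(E)`, `ω(D) = a D T` for all `D` (`D - (D T) E` vanishes on `T`, so on `FT t`), `a ≠ 0` as `ω ≠ 0`. `G i = F i a^m ∈ ℂ(T)`,
`G i = A i (T) / B i (T)`. For each `b` some place has multiplicity `infMult T b` over `b` (as in `infMult_spec` in sp/Crit,
from `exists_place_over`) and `sl_bound_fin`, `sl_bound_inf` apply; with `sl_ord_fin`, `sl_ord_inf` these are the
assumptions of `sl_count` (`μ = infMult T`), for `i = 0` and `i = 1`. Then `sl_const`: `G 1 / G 0 = F 1 / F 0` is constant, a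
contradiction. -/
theorem sl_line {K : Type} [Field K] [Algebra ℂ K] (T₀ : Finset K)
    (hT₀ : IntermediateField.adjoin ℂ (T₀ : Set K) = ⊤) {n : ℕ} (t : Fin n → K) (T : K)
    (hT : Transcendental ℂ T) (hFT : FT t = FT (fun _ : Fin 1 => T)) (hb : BaseSpecial T) :
    ¬ HasBaseSections t := by
  rintro ⟨ω, m, F, hm, hω0, hF, htr, hreg, hker, hbase⟩
  have hL : FT t = IntermediateField.adjoin ℂ {T} := by
    rw [hFT]
    unfold FT
    rw [Set.range_const]
  -- the derivation `E`
  have hind : AlgebraicIndependent ℂ (fun _ : Unit => T) := by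
    rw [algebraicIndependent_unique_type_iff]
    exact hT
  obtain ⟨E, hE⟩ := exists_derivation (k := ℂ) (fun _ : Unit => T) hind (fun _ => 1)
  have hET : E T = 1 := hE ()
  have hEL : ∀ z ∈ FT t, E z ∈ FT t := T7_pres (FT t) T hL E (by rw [hET]; exact (FT t).one_mem)
  have hω : ∀ D : Derivation ℂ K K, ω (fun _ => D) = ω (fun _ => E) * D T := by
    intro D
    have h1 : ω (fun _ => D + (-(D T)) • E) = 0 := by
      refine hker _ fun i => ?_
      refine T7_kill T _ ?_ _ ?_
      · rw [Derivation.add_apply, Derivation.smul_apply, hET, smul_eq_mul]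
        ring
      · rw [← hL]
        exact IntermediateField.subset_adjoin _ _ ⟨i, rfl⟩
    rw [T7_form] at h1
    linear_combination h1
  obtain ⟨a, ha'⟩ : ∃ a, a = ω (fun _ => E) := ⟨_, rfl⟩
  rw [← ha'] at hω
  have ha : a ≠ 0 := by
    rintro rfl
    apply hω0
    ext D
    have h1 : D = fun _ => D 0 := by
      funext i
      rw [Subsingleton.elim i 0]
    rw [h1, hω, zero_mul]
    rfl
  have hG : ∀ i, F i * a ^ m ∈ IntermediateField.adjoin ℂ {T} := by
    intro i
    rw [← hL, ha']
    exact hbase E hEL i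
  have hG' : ∀ i, ∃ A B : ℂ[X], A ≠ 0 ∧ B ≠ 0 ∧ F i * a ^ m = aeval T A / aeval T B := by
    intro i
    obtain ⟨A, B, hAB⟩ := (IntermediateField.mem_adjoin_simple_iff ℂ _).1 (hG i)
    have h0 : F i * a ^ m ≠ 0 := mul_ne_zero (hF i) (pow_ne_zero _ ha)
    refine ⟨A, B, ?_, ?_, hAB⟩
    · rintro rfl
      rw [map_zero, zero_div] at hAB
      exact h0 hAB
    · rintro rfl
      rw [map_zero, div_zero] at hAB
      exact h0 hAB
  choose A B hA hB hAB using hG'
  have hne : ∀ P : ℂ[X], P ≠ 0 → aeval T P ≠ 0 := by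
    intro P hP h
    exact hP ((transcendental_iff.mp hT) P h)
  have hμ : ∀ b, 1 ≤ infMult T b := by
    intro b
    obtain ⟨O, v, hO, hv, h1, h2⟩ := T7_spec T₀ hT₀ T hT b
    exact h1
  have h1 : ∀ i, ∀ c : ℂ, -(m * (infMult T (some c) - 1) : ℤ) ≤
      (((A i).rootMultiplicity c : ℤ) - (B i).rootMultiplicity c) * infMult T (some c) := by
    intro i c
    obtain ⟨O, v, hO, hv, h2, h3⟩ := T7_spec T₀ hT₀ T hT (some c)
    obtain ⟨O', v', hO', hv', h4, h5⟩ := sl_bound_fin T₀ hT₀ T hT ω a ha hω m F hF hreg c O hO v hv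
      (infMult T (some c)) h2 h3
    have h6 := h5 i
    have h7 : 1 ≤ v' (T - algebraMap ℂ K c) := by rw [h4]; exact_mod_cast h2
    rw [hAB i, hv'.map_div (hne _ (hA i)) (hne _ (hB i)), sl_ord_fin O' hO' v' hv' T hT c h7 _ (hA i),
      sl_ord_fin O' hO' v' hv' T hT c h7 _ (hB i), h4] at h6
    linarith
  have h2 : ∀ i, (m * (infMult T none + 1) : ℤ) ≤
      (((B i).natDegree : ℤ) - (A i).natDegree) * infMult T none := by
    intro i
    obtain ⟨O, v, hO, hv, h2, h3⟩ := T7_spec T₀ hT₀ T hT none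
    obtain ⟨O', v', hO', hv', h4, h5⟩ := sl_bound_inf T₀ hT₀ T hT ω a ha hω m F hF hreg O hO v hv
      (infMult T none) h2 h3
    have h6 := h5 i
    have h7 : 1 ≤ v' T⁻¹ := by rw [h4]; exact_mod_cast h2
    rw [hAB i, hv'.map_div (hne _ (hA i)) (hne _ (hB i)), sl_ord_inf O' hO' v' hv' T hT h7 _ (hA i),
      sl_ord_inf O' hO' v' hv' T hT h7 _ (hB i), h4] at h6
    linarith
  have h3 : ∀ i, ∀ c : ℂ, (((A i).rootMultiplicity c : ℤ) - (B i).rootMultiplicity c) *
      infMult T (some c) = -(m * (infMult T (some c) - 1)) := fun i c =>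
    sl_count (infMult T) hμ hb m (A i) (B i) (hA i) (hB i) (h1 i) (h2 i) c
  obtain ⟨c, hc⟩ := sl_const T hT (A 0) (B 0) (A 1) (B 1) (hA 0) (hB 0) (hA 1) (hB 1) (by
    intro c
    have h4 := (h3 0 c).trans (h3 1 c).symm
    have h5 : (infMult T (some c) : ℤ) ≠ 0 := by
      have := hμ (some c)
      omega
    exact mul_right_cancel₀ h5 h4)
  rw [← hAB 0, ← hAB 1, mul_div_mul_right _ _ (pow_ne_zero _ ha)] at hc
  apply htr
  rw [hc]
  exact isAlgebraic_algebraMap c

end Pool.Agent.AbPencil
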