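import Pool.Agent.Lib_MP_1209e6_sl.T0
import Pool.Agent.Lib_MP_1209e6_sk.C1

/-! PIECE T8b: orders of functions on a plane cubic. -/

set_option autoImplicit false

namespace Pool.Agent.AbPencil

open Pool.Agent.Campana

private lemma T8b_add {K : Type} [Field K] {O : ValuationSubring K} {v : K → ℤ} (hv : IsOrd O v)
    {x y : K} (hx : x ≠ 0) (hy : y = 0 ∨ v x < v y) : x + y ≠ 0 ∧ v (x + y) = v x := by
  rcases eq_or_ne y 0 with rfl | hy0
  · exact ⟨by simpa using hx, by simp⟩
  have hlt : v x < v y := hy.resolve_left hy0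
  have hne : x + y ≠ 0 := by
    intro h
    have h1 : x = -y := by linear_combination h
    rw [h1, hv.map_neg hy0] at hlt
    omega
  refine ⟨hne, ?_⟩
  have h1 := hv.le_add (x := x) (y := y) (B := v x) (Or.inr le_rfl) (Or.inr hlt.le)
  by_contra hn
  have h3 : v x + 1 ≤ v (x + y) := by
    have := h1.resolve_left hne
    omega
  have h2 := hv.le_add (x := x + y) (y := -y) (B := v x + 1) (Or.inr h3)
    (Or.inr (by rw [hv.map_neg hy0]; omega))
  rw [add_neg_cancel_right] at h2
  rcases h2 with h2 | h2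
  · exact hx h2
  · omega

private lemma T8b_ne {K : Type} [Field K] [Algebra ℂ K] {x : K} (hx : Transcendental ℂ x) (e : ℂ) :
    x - algebraMap ℂ K e ≠ 0 := by
  intro h
  apply hx
  rw [sub_eq_zero.1 h]
  exact isAlgebraic_algebraMap e

private lemma T8b_const {K : Type} [Field K] [Algebra ℂ K] {h : K} (hA : ¬ Transcendental ℂ h) :
    ∃ c : ℂ, algebraMap ℂ K c = h := by
  have hI : IsIntegral ℂ h := (not_not.1 hA : IsAlgebraic ℂ h).isIntegral
  exact (minpoly.mem_range_of_degree_eq_one ℂ h)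
    (IsAlgClosed.degree_eq_one_of_irreducible ℂ (minpoly.irreducible hI))

private lemma T8b_aeval {K : Type} [Field K] [Algebra ℂ K] {x : K} (hx : Transcendental ℂ x)
    {A : Polynomial ℂ} (hA : A ≠ 0) : Polynomial.aeval x A ≠ 0 :=
  fun h => hA (transcendental_iff.1 hx _ h)

/-- a square root of a cubic polynomial in `x` is not a polynomial in `x` -/
private lemma T8b_trans_y {K : Type} [Field K] [Algebra ℂ K] {x y : K} (hx : Transcendental ℂ x)
    (a b c : ℂ) (hy : y ^ 2 = x ^ 3 + algebraMap ℂ K a * x ^ 2 + algebraMap ℂ K b * x +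
      algebraMap ℂ K c) : Transcendental ℂ y := by
  by_contra hA
  obtain ⟨e, he⟩ := T8b_const hA
  have h1 : Polynomial.aeval x (Polynomial.C (e ^ 2) - (Polynomial.X ^ 3 +
      Polynomial.C a * Polynomial.X ^ 2 +
      Polynomial.C b * Polynomial.X + Polynomial.C c)) = 0 := by
    simp only [map_sub, map_add, map_mul, map_pow, Polynomial.aeval_X, Polynomial.aeval_C]
    rw [he, hy]
    ring
  have h2 := (transcendental_iff.1 hx) _ h1
  have h3 : (Polynomial.C (e ^ 2) : Polynomial ℂ).natDegree = 3 := by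
    rw [sub_eq_zero.1 h2]
    compute_degree!
  rw [Polynomial.natDegree_C] at h3
  omega

private lemma T8b_poly {K : Type} [Field K] [Algebra ℂ K] {O : ValuationSubring K} (hO : IsPlace O)
    {v : K → ℤ} (hv : IsOrd O v) {x : K} (hx : Transcendental ℂ x) (s : ℤ)
    (hs : ∀ e : ℂ, v (x - algebraMap ℂ K e) = s) :
    ∀ (n : ℕ) (A : Polynomial ℂ), A.natDegree = n → A ≠ 0 → v (Polynomial.aeval x A) = n * s := by
  intro n
  induction n with
  | zero =>
    intro A hA hA0
    obtain ⟨c, rfl⟩ := Polynomial.natDegree_eq_zero.1 hA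
    rw [Polynomial.aeval_C, ord_const hO hv]
    · simp
    · rintro rfl
      simp at hA0
  | succ n ih =>
    intro A hA hA0
    obtain ⟨r, hr⟩ := IsAlgClosed.exists_root A (by
      intro h
      have := Polynomial.natDegree_eq_of_degree_eq_some (p := A) (n := 0) (by simpa using h)
      omega)
    obtain ⟨B, rfl⟩ := Polynomial.dvd_iff_isRoot.2 hr
    have hB0 : B ≠ 0 := right_ne_zero_of_mul hA0
    have hBd : B.natDegree = n := by
      rw [Polynomial.natDegree_mul (Polynomial.X_sub_C_ne_zero r) hB0,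
        Polynomial.natDegree_X_sub_C] at hA
      omega
    rw [map_mul, map_sub, Polynomial.aeval_X, Polynomial.aeval_C,
      hv.map_mul (T8b_ne hx r) (T8b_aeval hx hB0), hs, ih B hBd hB0]
    push_cast
    ring

/-- the cubic polynomial -/
private noncomputable def T8b_P (a b c : ℂ) : Polynomial ℂ :=
  Polynomial.X ^ 3 + Polynomial.C a * Polynomial.X ^ 2 + Polynomial.C b * Polynomial.X +
    Polynomial.C c

private lemma T8b_P_deg (a b c : ℂ) : (T8b_P a b c).natDegree = 3 := by
  unfold T8b_P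
  compute_degree!

private lemma T8b_P_ne (a b c : ℂ) : T8b_P a b c ≠ 0 := by
  intro h
  have := T8b_P_deg a b c
  rw [h] at this
  simp at this

private lemma T8b_P_aeval {K : Type} [Field K] [Algebra ℂ K] (a b c : ℂ) (x : K) :
    Polynomial.aeval x (T8b_P a b c) =
      x ^ 3 + algebraMap ℂ K a * x ^ 2 + algebraMap ℂ K b * x + algebraMap ℂ K c := by
  simp [T8b_P]

/-- the norm `A² - B² P` does not vanish -/
private lemma T8b_norm_ne (a b c : ℂ) (A B : Polynomial ℂ) (h : A ≠ 0 ∨ B ≠ 0) :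
    A ^ 2 - B ^ 2 * T8b_P a b c ≠ 0 := by
  intro h0
  have h1 : A ^ 2 = B ^ 2 * T8b_P a b c := sub_eq_zero.1 h0
  rcases eq_or_ne B 0 with rfl | hB
  · have : A = 0 := by simpa using h1
    simp [this] at h
  · have h2 := congrArg Polynomial.natDegree h1
    rw [Polynomial.natDegree_mul (pow_ne_zero 2 hB) (T8b_P_ne a b c), Polynomial.natDegree_pow,
      Polynomial.natDegree_pow, T8b_P_deg] at h2
    omega

private lemma T8b_form {K : Type} [Field K] [Algebra ℂ K] (a b c : ℂ) (x y : K)
    (hx : Transcendental ℂ x)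
    (hy : y ^ 2 = x ^ 3 + algebraMap ℂ K a * x ^ 2 + algebraMap ℂ K b * x + algebraMap ℂ K c)
    (G : K) (hG : G ∈ FT ![x, y]) :
    ∃ A B C : Polynomial ℂ, C ≠ 0 ∧
      G * Polynomial.aeval x C = Polynomial.aeval x A + Polynomial.aeval x B * y := by
  have hP := T8b_P_aeval a b c x
  induction hG using IntermediateField.adjoin_induction with
  | mem g hg =>
    obtain ⟨i, rfl⟩ := hg
    fin_cases i
    · exact ⟨Polynomial.X, 0, 1, one_ne_zero, by simp⟩
    · exact ⟨0, 1, 1, one_ne_zero, by simp⟩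
  | algebraMap z => exact ⟨Polynomial.C z, 0, 1, one_ne_zero, by simp⟩
  | add g h _ _ ig ih =>
    obtain ⟨A, B, C, hC, h1⟩ := ig
    obtain ⟨A', B', C', hC', h2⟩ := ih
    refine ⟨A * C' + A' * C, B * C' + B' * C, C * C', mul_ne_zero hC hC', ?_⟩
    simp only [map_mul, map_add]
    linear_combination Polynomial.aeval x C' * h1 + Polynomial.aeval x C * h2
  | inv g _ ig =>
    obtain ⟨A, B, C, hC, h1⟩ := ig
    rcases eq_or_ne g 0 with rfl | hg0
    · exact ⟨0, 0, 1, one_ne_zero, by simp⟩
    have hAB : A ≠ 0 ∨ B ≠ 0 := by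
      by_contra hn
      push Not at hn
      rw [hn.1, hn.2] at h1
      simp only [map_zero, zero_mul, add_zero, mul_eq_zero] at h1
      exact h1.elim hg0 (T8b_aeval hx hC)
    refine ⟨C * A, -(C * B), A ^ 2 - B ^ 2 * T8b_P a b c, T8b_norm_ne a b c A B hAB, ?_⟩
    simp only [map_mul, map_sub, map_pow, map_neg]
    rw [hP, ← hy, inv_mul_eq_iff_eq_mul₀ hg0]
    linear_combination -(Polynomial.aeval x A - Polynomial.aeval x B * y) * h1
  | mul g h _ _ ig ih =>
    obtain ⟨A, B, C, hC, h1⟩ := ig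
    obtain ⟨A', B', C', hC', h2⟩ := ih
    refine ⟨A * A' + B * B' * T8b_P a b c, A * B' + A' * B, C * C', mul_ne_zero hC hC', ?_⟩
    simp only [map_mul, map_add]
    rw [hP, ← hy]
    linear_combination h * Polynomial.aeval x C' * h1 +
      (Polynomial.aeval x A + Polynomial.aeval x B * y) * h2

/-- The order at infinity of a function on the cubic, measured at places of `K`. Proof. `G = (A(x) + B(x) y) / C(x)` with polynomials
`A, B, C`. At a place with `v x < 0`: `2 v y = 3 v x`, `2 v (A(x)) = 2 deg A · v x`, `2 v (B(x) y) = (2 deg B + 3) v x` are different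
(parity), so `2 v (A(x) + B(x) y)` is the smaller one, and `2 v (C(x)) = 2 deg C · v x`. -/
theorem sl_inf_order {K : Type} [Field K] [Algebra ℂ K] (a b c : ℂ) (x y : K)
    (hx : Transcendental ℂ x)
    (hy : y ^ 2 = x ^ 3 + algebraMap ℂ K a * x ^ 2 + algebraMap ℂ K b * x + algebraMap ℂ K c)
    (G : K) (hG : G ∈ FT ![x, y]) (hG0 : G ≠ 0) :
    ∃ n : ℤ, ∀ (O : ValuationSubring K) (v : K → ℤ), IsPlace O → IsOrd O v → v x < 0 →
      2 * v G = n * v x := by
  obtain ⟨A, B, C, hC, h1⟩ := T8b_form a b c x y hx hy G hG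
  have hyt := T8b_trans_y hx a b c hy
  have hx0 : x ≠ 0 := by
    rintro rfl
    exact hx isAlgebraic_zero
  have hy0 : y ≠ 0 := by
    rintro rfl
    exact hyt isAlgebraic_zero
  have hCx := T8b_aeval hx hC
  -- the order of the numerator
  obtain ⟨n, hn⟩ : ∃ n : ℤ, ∀ (O : ValuationSubring K) (v : K → ℤ), IsPlace O → IsOrd O v →
      v x < 0 → 2 * v (Polynomial.aeval x A + Polynomial.aeval x B * y) = n * v x := by
    have hpole : ∀ (O : ValuationSubring K) (v : K → ℤ), IsPlace O → IsOrd O v → v x < 0 →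
        ∀ e : ℂ, v (x - algebraMap ℂ K e) = v x := by
      intro O v hO hv h e
      rw [sub_eq_add_neg]
      refine (T8b_add hv hx0 ?_).2
      rcases eq_or_ne e 0 with rfl | he
      · left
        simp
      · right
        rw [hv.map_neg ((map_ne_zero _).2 he), ord_const hO hv he]
        exact h
    have hvy : ∀ (O : ValuationSubring K) (v : K → ℤ), IsPlace O → IsOrd O v → v x < 0 →
        2 * v y = 3 * v x := by
      intro O v hO hv h
      have h2 := T8b_poly hO hv hx (v x) (hpole O v hO hv h) 3 (T8b_P a b c) (T8b_P_deg a b c)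
        (T8b_P_ne a b c)
      rw [T8b_P_aeval, ← hy, hv.map_pow hy0] at h2
      exact_mod_cast h2
    rcases eq_or_ne B 0 with rfl | hB
    · have hA : A ≠ 0 := by
        rintro rfl
        simp only [map_zero, zero_mul, add_zero, mul_eq_zero] at h1
        exact h1.elim hG0 hCx
      refine ⟨2 * A.natDegree, fun O v hO hv h => ?_⟩
      rw [map_zero, zero_mul, add_zero, T8b_poly hO hv hx (v x) (hpole O v hO hv h) _ A rfl hA]
      ring
    rcases eq_or_ne A 0 with rfl | hA
    · refine ⟨2 * B.natDegree + 3, fun O v hO hv h => ?_⟩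
      rw [map_zero, zero_add, hv.map_mul (T8b_aeval hx hB) hy0,
        T8b_poly hO hv hx (v x) (hpole O v hO hv h) _ B rfl hB, mul_add, hvy O v hO hv h]
      ring
    rcases lt_or_gt_of_ne (show 2 * A.natDegree ≠ 2 * B.natDegree + 3 by omega) with hlt | hgt
    · refine ⟨2 * B.natDegree + 3, fun O v hO hv h => ?_⟩
      have hvA := T8b_poly hO hv hx (v x) (hpole O v hO hv h) _ A rfl hA
      have hvB := T8b_poly hO hv hx (v x) (hpole O v hO hv h) _ B rfl hB
      have hvy' := hvy O v hO hv h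
      have hBy : v (Polynomial.aeval x B * y) = v (Polynomial.aeval x B) + v y :=
        hv.map_mul (T8b_aeval hx hB) hy0
      have hcmp : v (Polynomial.aeval x B * y) < v (Polynomial.aeval x A) := by
        rw [hBy, hvA, hvB]
        have h3 : ((2 * A.natDegree : ℕ) : ℤ) < ((2 * B.natDegree + 3 : ℕ) : ℤ) := by
          exact_mod_cast hlt
        push_cast at h3
        nlinarith
      rw [add_comm, (T8b_add hv (mul_ne_zero (T8b_aeval hx hB) hy0) (Or.inr hcmp)).2, hBy, hvB]
      linear_combination hvy'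
    · refine ⟨2 * A.natDegree, fun O v hO hv h => ?_⟩
      have hvA := T8b_poly hO hv hx (v x) (hpole O v hO hv h) _ A rfl hA
      have hvB := T8b_poly hO hv hx (v x) (hpole O v hO hv h) _ B rfl hB
      have hvy' := hvy O v hO hv h
      have hBy : v (Polynomial.aeval x B * y) = v (Polynomial.aeval x B) + v y :=
        hv.map_mul (T8b_aeval hx hB) hy0
      have hcmp : v (Polynomial.aeval x A) < v (Polynomial.aeval x B * y) := by
        rw [hBy, hvA, hvB]
        have h3 : ((2 * B.natDegree + 3 : ℕ) : ℤ) < ((2 * A.natDegree : ℕ) : ℤ) := by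
          exact_mod_cast hgt
        push_cast at h3
        nlinarith
      rw [(T8b_add hv (T8b_aeval hx hA) (Or.inr hcmp)).2, hvA]
      ring
  refine ⟨n - 2 * C.natDegree, fun O v hO hv h => ?_⟩
  have h2 := hn O v hO hv h
  have hpole : ∀ e : ℂ, v (x - algebraMap ℂ K e) = v x := by
    intro e
    rw [sub_eq_add_neg]
    refine (T8b_add hv hx0 ?_).2
    rcases eq_or_ne e 0 with rfl | he
    · left
      simp
    · right
      rw [hv.map_neg ((map_ne_zero _).2 he), ord_const hO hv he]
      exact h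
  rw [← h1, hv.map_mul hG0 hCx, T8b_poly hO hv hx (v x) hpole _ C rfl hC] at h2
  linear_combination h2

/-- Each place of `K` lies over the generic point or over a point of the cubic. Proof. If `v x ≥ 0` and `v (x - x₀) ≤ 0` for all
`x₀` then `v (x - x₀) = 0`, so `v` vanishes on the nonzero polynomials in `x` (they split), so on `ℂ(x) ∖ 0`; all
elements of `ℂ(x, y)` are integral over the field `ℂ(x) ⊆ O`, so they and their inverses are in `O`. If `v (x - x₀) ≥ 1` take `y₀` with
`y₀² = x₀³ + …`: `(y - y₀)(y + y₀)` has positive order, so one factor has (change the sign of `y₀`). -/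
theorem sl_cover {K : Type} [Field K] [Algebra ℂ K] (a b c : ℂ) (x y : K)
    (hx : Transcendental ℂ x)
    (hy : y ^ 2 = x ^ 3 + algebraMap ℂ K a * x ^ 2 + algebraMap ℂ K b * x + algebraMap ℂ K c)
    (O : ValuationSubring K) (v : K → ℤ) (hO : IsPlace O) (hv : IsOrd O v) :
    (∀ G ∈ FT ![x, y], G ≠ 0 → v G = 0) ∨ v x < 0 ∨
      ∃ x₀ y₀ : ℂ, y₀ ^ 2 = x₀ ^ 3 + a * x₀ ^ 2 + b * x₀ + c ∧ 1 ≤ v (x - algebraMap ℂ K x₀) ∧
        1 ≤ v (y - algebraMap ℂ K y₀) := by
  have hyt := T8b_trans_y hx a b c hy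
  have hx0 : x ≠ 0 := by
    rintro rfl
    exact hx isAlgebraic_zero
  have hy0 : y ≠ 0 := by
    rintro rfl
    exact hyt isAlgebraic_zero
  have hC : ∀ e : ℂ, algebraMap ℂ K e ∈ O := hO.1
  rcases lt_or_ge (v x) 0 with hneg | hpos
  · exact Or.inr (Or.inl hneg)
  have hxO : x ∈ O := (hv.mem_iff hx0).2 hpos
  by_cases hex : ∃ x₀ : ℂ, 1 ≤ v (x - algebraMap ℂ K x₀)
  · right
    right
    obtain ⟨x₀, h1⟩ := hex
    obtain ⟨y₀, h2⟩ := IsAlgClosed.exists_pow_nat_eq (x₀ ^ 3 + a * x₀ ^ 2 + b * x₀ + c)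
      (n := 2) (by norm_num)
    have hym : y - algebraMap ℂ K y₀ ≠ 0 := T8b_ne hyt y₀
    have hyp : y - algebraMap ℂ K (-y₀) ≠ 0 := T8b_ne hyt (-y₀)
    have hprod : (y - algebraMap ℂ K y₀) * (y - algebraMap ℂ K (-y₀)) =
        (x - algebraMap ℂ K x₀) * (x ^ 2 + x * algebraMap ℂ K x₀ + algebraMap ℂ K x₀ ^ 2 +
          algebraMap ℂ K a * (x + algebraMap ℂ K x₀) + algebraMap ℂ K b) := by
      have h3 := congrArg (algebraMap ℂ K) h2
      simp only [map_add, map_mul, map_pow] at h3
      rw [map_neg]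
      linear_combination hy - h3
    have hq : (x ^ 2 + x * algebraMap ℂ K x₀ + algebraMap ℂ K x₀ ^ 2 +
        algebraMap ℂ K a * (x + algebraMap ℂ K x₀) + algebraMap ℂ K b) ∈ O := by
      refine O.add_mem _ _ (O.add_mem _ _ (O.add_mem _ _ (O.add_mem _ _ (pow_mem hxO 2)
        (O.mul_mem _ _ hxO (hC _))) (pow_mem (hC _) 2)) (O.mul_mem _ _ (hC _)
        (O.add_mem _ _ hxO (hC _)))) (hC _)
    have hq0 : (x ^ 2 + x * algebraMap ℂ K x₀ + algebraMap ℂ K x₀ ^ 2 +
        algebraMap ℂ K a * (x + algebraMap ℂ K x₀) + algebraMap ℂ K b) ≠ 0 := by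
      intro h
      rw [h, mul_zero] at hprod
      exact (mul_ne_zero hym hyp) hprod
    have hvp := congrArg v hprod
    rw [hv.map_mul hym hyp, hv.map_mul (T8b_ne hx x₀) hq0] at hvp
    have hvq := (hv.mem_iff hq0).1 hq
    rcases le_or_gt 1 (v (y - algebraMap ℂ K y₀)) with h4 | h4
    · exact ⟨x₀, y₀, h2, h1, h4⟩
    · exact ⟨x₀, -y₀, by rw [neg_sq]; exact h2, h1, by omega⟩
  · left
    push Not at hex
    have hs : ∀ e : ℂ, v (x - algebraMap ℂ K e) = 0 := by
      intro e
      have h1 := (hv.mem_iff (T8b_ne hx e)).1 (O.sub_mem hxO (hC e))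
      have h2 := hex e
      omega
    have hpoly : ∀ A : Polynomial ℂ, A ≠ 0 → v (Polynomial.aeval x A) = 0 := by
      intro A hA
      rw [T8b_poly hO hv hx 0 hs _ A rfl hA, mul_zero]
    have hmemO : ∀ A : Polynomial ℂ, Polynomial.aeval x A ∈ O := by
      intro A
      rcases eq_or_ne A 0 with rfl | hA
      · rw [map_zero]
        exact O.zero_mem
      · exact (hv.mem_iff (T8b_aeval hx hA)).2 (hpoly A hA).ge
    have hyO : y ∈ O := by
      have h2 := hpoly (T8b_P a b c) (T8b_P_ne a b c)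
      rw [T8b_P_aeval, ← hy, hv.map_pow hy0] at h2
      rw [hv.mem_iff hy0]
      push_cast at h2
      omega
    intro G hG hG0
    obtain ⟨A, B, C, hC0, h1⟩ := T8b_form a b c x y hx hy G hG
    have hCx := T8b_aeval hx hC0
    have hAB : A ≠ 0 ∨ B ≠ 0 := by
      by_contra hn
      push Not at hn
      rw [hn.1, hn.2] at h1
      simp only [map_zero, zero_mul, add_zero, mul_eq_zero] at h1
      exact h1.elim hG0 hCx
    have hN := T8b_norm_ne a b c A B hAB
    have hNx := T8b_aeval hx hN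
    have hfac : (Polynomial.aeval x A + Polynomial.aeval x B * y) *
        (Polynomial.aeval x A - Polynomial.aeval x B * y) =
        Polynomial.aeval x (A ^ 2 - B ^ 2 * T8b_P a b c) := by
      simp only [map_mul, map_sub, map_pow]
      rw [T8b_P_aeval, ← hy]
      ring
    have hn1 : Polynomial.aeval x A + Polynomial.aeval x B * y ≠ 0 := by
      intro h
      rw [h, zero_mul] at hfac
      exact hNx hfac.symm
    have hn2 : Polynomial.aeval x A - Polynomial.aeval x B * y ≠ 0 := by
      intro h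
      rw [h, mul_zero] at hfac
      exact hNx hfac.symm
    have hv1 := congrArg v hfac
    rw [hv.map_mul hn1 hn2, hpoly _ hN] at hv1
    have hm1 := (hv.mem_iff hn1).1 (O.add_mem _ _ (hmemO A) (O.mul_mem _ _ (hmemO B) hyO))
    have hm2 := (hv.mem_iff hn2).1 (O.sub_mem (hmemO A) (O.mul_mem _ _ (hmemO B) hyO))
    have hvG := congrArg v h1
    rw [hv.map_mul hG0 hCx, hpoly C hC0] at hvG
    omega

end Pool.Agent.AbPencil
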