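import Pool.Agent.Lib_MP_1209e6_sl.T0
import Pool.Agent.Lib_MP_1209e6_sl.R7
import Pool.Agent.Lib_MP_1209e6_sk.C1

/-! PIECE T8c: good places over the points of a plane cubic. -/

set_option autoImplicit false

namespace Pool.Agent.AbPencil

open Pool.Agent.Campana

private lemma slt8c_add {K : Type} [Field K] {O : ValuationSubring K} {v : K → ℤ} (hv : IsOrd O v)
    {x y : K} (hx : x ≠ 0) (hy : y = 0 ∨ v x < v y) : x + y ≠ 0 ∧ v (x + y) = v x := by
  rcases eq_or_ne y 0 with rfl | hy0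
  · exact ⟨by simpa using hx, by simp⟩
  have hlt : v x < v y := hy.resolve_left hy0
  have hne : x + y ≠ 0 := by
    intro h
    have h1 : x = -y := by linear_combination h
    rw [h1, hv.map_neg hy0] at hlt
    omega
  refine ⟨hne, ?_⟩
  have h1 := hv.le_add (x := x) (y := y) (B := v x) (Or.inr le_rfl) (Or.inr hlt.le)
  by_contra hn
  have h3 : v x + 1 ≤ v (x + y) := by
    have := h1.resolve_left hne
    omega
  have h2 := hv.le_add (x := x + y) (y := -y) (B := v x + 1) (Or.inr h3)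
    (Or.inr (by rw [hv.map_neg hy0]; omega))
  rw [add_neg_cancel_right] at h2
  rcases h2 with h2 | h2
  · exact hx h2
  · omega

private lemma slt8c_const {K : Type} [Field K] [Algebra ℂ K] {O : ValuationSubring K} (hO : IsPlace O)
    {v : K → ℤ} (hv : IsOrd O v) (a : ℂ) {z : K} (hz : z ≠ 0) :
    algebraMap ℂ K a * z = 0 ∨ v (algebraMap ℂ K a * z) = v z := by
  rcases eq_or_ne a 0 with rfl | ha
  · left
    simp
  · right
    have ha' : algebraMap ℂ K a ≠ 0 := (map_ne_zero _).mpr ha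
    rw [hv.map_mul ha' hz, ord_const hO hv ha]
    ring

/-- Proof. `cubic_inf` (sk/C1) for `h, k` gives a place with `v h = -2`. `sl_good_place` with `τ = h⁻¹`, `e = 2`: `O', v', D` with `v' h = -2`, so
`v' k = -3`, and `v' (D h⁻¹) = 1`, so `D h ≠ 0`, `v' (D h) = 1 - 4 = -3`. `RegularAt` gives `F i a'^m (D x)^m ∈ O'`, and `D x ≠ 0` by `hD`; by `hD`
`y = - (D x) k / D h`, so `v' (F i a'^m y^m) = v' (F i a'^m (D x)^m) + m (v' k - v' (D h)) ≥ 0`. -/
theorem sl_good_cubic {K : Type} [Field K] [Algebra ℂ K] (T₀ : Finset K)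
    (hT₀ : IntermediateField.adjoin ℂ (T₀ : Set K) = ⊤) (hbd : PencilBound K) (a b c : ℂ)
    (hd : ∀ x : ℂ, x ^ 3 + a * x ^ 2 + b * x + c = 0 → 3 * x ^ 2 + 2 * a * x + b ≠ 0) (h k x y : K)
    (hh : Transcendental ℂ h)
    (hk : k ^ 2 = h ^ 3 + algebraMap ℂ K a * h ^ 2 + algebraMap ℂ K b * h + algebraMap ℂ K c)
    (hy : y ≠ 0) (hD : ∀ D : Derivation ℂ K K, D h * y = -(D x * k) ∨ D h * y = D x * k)
    (ω : Form K 1) (a' : K) (ha : a' ≠ 0)
    (hω : ∀ D : Derivation ℂ K K, ω (fun _ => D) = a' * D x) (m : ℕ) (F : Fin 2 → K) (hF : ∀ i, F i ≠ 0)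
    (hreg : ∀ O : ValuationSubring K, IsPlace O → ∀ i, RegularAt O ω m (F i)) :
    ∃ (O : ValuationSubring K) (v : K → ℤ), IsPlace O ∧ IsOrd O v ∧ v h < 0 ∧
      ∀ i, 0 ≤ v (F i * a' ^ m * y ^ m) := by
  obtain ⟨O₁, v₁, hO₁, hv₁, h1, -⟩ := cubic_inf T₀ hT₀ hbd a b c hd h k hh hk
  have hh0 : h ≠ 0 := by
    rintro rfl
    exact hh isAlgebraic_zero
  have hi0 : h⁻¹ ≠ 0 := inv_ne_zero hh0
  obtain ⟨O, v, D, hO, hv, hτ, hDO, hD0, hvD⟩ := sl_good_place T₀ hT₀ O₁ hO₁ v₁ hv₁ h⁻¹ hi0 2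
    (by norm_num) (by rw [hv₁.map_inv hh0, h1]; norm_num)
  have hvh : v h = -2 := by
    rw [hv.map_inv hh0] at hτ
    push_cast at hτ
    omega
  -- the order of k
  have hh2 : v (h ^ 2) = -4 := by rw [hv.map_pow hh0, hvh]; norm_num
  have hh3 : v (h ^ 3) = -6 := by rw [hv.map_pow hh0, hvh]; norm_num
  have s1 := slt8c_add hv (x := h ^ 3) (y := algebraMap ℂ K a * h ^ 2) (pow_ne_zero _ hh0) (by
    rcases slt8c_const hO hv a (pow_ne_zero 2 hh0) with h5 | h5
    · exact Or.inl h5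
    · right
      rw [h5, hh2, hh3]
      norm_num)
  have s2 := slt8c_add hv (x := h ^ 3 + algebraMap ℂ K a * h ^ 2) (y := algebraMap ℂ K b * h) s1.1 (by
    rcases slt8c_const hO hv b hh0 with h5 | h5
    · exact Or.inl h5
    · right
      rw [h5, s1.2, hh3, hvh]
      norm_num)
  have s3 := slt8c_add hv (x := h ^ 3 + algebraMap ℂ K a * h ^ 2 + algebraMap ℂ K b * h)
    (y := algebraMap ℂ K c) s2.1 (by
    rcases slt8c_const hO hv c (one_ne_zero : (1 : K) ≠ 0) with h5 | h5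
    · rw [mul_one] at h5
      exact Or.inl h5
    · right
      rw [mul_one, hv.map_one] at h5
      rw [h5, s2.2, s1.2, hh3]
      norm_num)
  rw [← hk, s2.2, s1.2, hh3] at s3
  have hk0 : k ≠ 0 := by
    rintro rfl
    exact s3.1 (by simp)
  have hvk : v k = -3 := by
    have := s3.2
    rw [hv.map_pow hk0] at this
    push_cast at this
    omega
  -- the derivation
  have hDinv : D h⁻¹ = -(h⁻¹ ^ 2 * D h) := by
    have h6 : D (h * h⁻¹) = h • D h⁻¹ + h⁻¹ • D h := D.leibniz h h⁻¹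
    rw [mul_inv_cancel₀ hh0, D.map_one_eq_zero, smul_eq_mul, smul_eq_mul] at h6
    have h7 : h⁻¹ * (h * D h⁻¹ + h⁻¹ * D h) = 0 := by rw [← h6, mul_zero]
    rw [mul_add, ← mul_assoc, inv_mul_cancel₀ hh0, one_mul] at h7
    linear_combination h7
  have hDh0 : D h ≠ 0 := by
    intro h6
    apply hD0
    rw [hDinv, h6]
    ring
  have hvDh : v (D h) = -3 := by
    have h6 : v (D h⁻¹) = 1 := by rw [hvD]; norm_num
    rw [hDinv, hv.map_neg (mul_ne_zero (pow_ne_zero _ hi0) hDh0),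
      hv.map_mul (pow_ne_zero _ hi0) hDh0, hv.map_pow hi0, hv.map_inv hh0, hvh] at h6
    push_cast at h6
    omega
  have hDx : D x ≠ 0 := by
    intro h6
    rcases hD D with h7 | h7
    · rw [h6, zero_mul, neg_zero] at h7
      exact mul_ne_zero hDh0 hy h7
    · rw [h6, zero_mul] at h7
      exact mul_ne_zero hDh0 hy h7
  have hvy : v y = v (D x) := by
    have h6 : v (D h * y) = v (D x * k) := by
      rcases hD D with h7 | h7
      · rw [h7, hv.map_neg (mul_ne_zero hDx hk0)]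
      · rw [h7]
    rw [hv.map_mul hDh0 hy, hv.map_mul hDx hk0, hvDh, hvk] at h6
    omega
  refine ⟨O, v, hO, hv, by omega, fun i => ?_⟩
  obtain ⟨u, hu, hu1, hu2⟩ := hreg O hO i
  have h8 := hu1 (fun _ => D) (fun _ => hDO)
  rw [hω D] at h8
  have h9 : F i * a' ^ m * (D x) ^ m ∈ O := by
    have h10 := O.mul_mem _ _ hu2 (pow_mem h8 m)
    have h11 : F i * u ^ m * (u⁻¹ * (a' * D x)) ^ m = F i * a' ^ m * (D x) ^ m := by
      rw [mul_pow, mul_pow, inv_pow]
      have := pow_ne_zero m hu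
      field_simp
    rw [h11] at h10
    exact h10
  have n1 : F i * a' ^ m ≠ 0 := mul_ne_zero (hF i) (pow_ne_zero _ ha)
  have h12 := (hv.mem_iff (mul_ne_zero n1 (pow_ne_zero _ hDx))).1 h9
  rw [hv.map_mul n1 (pow_ne_zero _ hDx), hv.map_pow hDx] at h12
  rw [hv.map_mul n1 (pow_ne_zero _ hy), hv.map_pow hy, hvy]
  exact h12

end Pool.Agent.AbPencil
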