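import Pool.Agent.Lib_MP_1209e6_sl.T8a
import Pool.Agent.Lib_MP_1209e6_sl.T8b
import Pool.Agent.Lib_MP_1209e6_sl.T8c

/-! PIECE T8: no sections over an elliptic curve. -/

set_option autoImplicit false

namespace Pool.Agent.AbPencil

open Pool.Agent.Campana

private lemma slt8_upd {K : Type} [Field K] [Algebra ℂ K] (A B : Derivation ℂ K K) :
    Function.update (fun _ : Fin 1 => A) 0 B = fun _ => B := by
  ext1 a
  rw [Subsingleton.elim a 0, Function.update_self]

private lemma slt8_add {K : Type} [Field K] [Algebra ℂ K] (ω : Form K 1) (A B : Derivation ℂ K K) :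
    ω (fun _ => A + B) = ω (fun _ => A) + ω (fun _ => B) := by
  have h := ω.map_update_add (fun _ => A) 0 A B
  rwa [slt8_upd, slt8_upd, slt8_upd] at h

private lemma slt8_smul {K : Type} [Field K] [Algebra ℂ K] (ω : Form K 1) (c : K)
    (A : Derivation ℂ K K) : ω (fun _ => c • A) = c * ω (fun _ => A) := by
  have h := ω.map_update_smul (fun _ => A) 0 c A
  rwa [slt8_upd, slt8_upd, smul_eq_mul] at h

private lemma slt8_pres {K : Type} [Field K] [Algebra ℂ K] {n : ℕ} (t : Fin n → K)
    (E : Derivation ℂ K K) (hE : ∀ i, E (t i) ∈ FT t) : ∀ z ∈ FT t, E z ∈ FT t := by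
  intro z hz
  induction hz using IntermediateField.adjoin_induction with
  | mem y hy =>
    obtain ⟨i, rfl⟩ := hy
    exact hE i
  | algebraMap c =>
    rw [E.map_algebraMap]
    exact (FT t).zero_mem
  | add y z _ _ h1 h2 =>
    rw [map_add]
    exact (FT t).add_mem h1 h2
  | mul y z hy hz h1 h2 =>
    rw [Derivation.leibniz, smul_eq_mul, smul_eq_mul]
    exact (FT t).add_mem ((FT t).mul_mem hy h2) ((FT t).mul_mem hz h1)
  | inv y hy h1 =>
    rw [Derivation.leibniz_inv, smul_eq_mul]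
    exact (FT t).mul_mem ((FT t).neg_mem (pow_mem ((FT t).inv_mem hy) 2)) h1

private lemma slt8_const {K : Type} [Field K] [Algebra ℂ K] {h : K} (hA : ¬ Transcendental ℂ h) :
    ∃ c : ℂ, algebraMap ℂ K c = h := by
  have hI : IsIntegral ℂ h := (not_not.1 hA : IsAlgebraic ℂ h).isIntegral
  exact (minpoly.mem_range_of_degree_eq_one ℂ h)
    (IsAlgClosed.degree_eq_one_of_irreducible ℂ (minpoly.irreducible hI))

private lemma slt8_cubic_ne {K : Type} [Field K] [Algebra ℂ K] (a b c : ℂ) {x y : K}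
    (hx : Transcendental ℂ x)
    (hy : y ^ 2 = x ^ 3 + algebraMap ℂ K a * x ^ 2 + algebraMap ℂ K b * x + algebraMap ℂ K c) :
    y ≠ 0 := by
  rintro rfl
  apply hx
  refine ⟨Polynomial.X ^ 3 + Polynomial.C a * Polynomial.X ^ 2 + Polynomial.C b * Polynomial.X +
    Polynomial.C c, ?_, ?_⟩
  · intro h
    have h1 : (Polynomial.X ^ 3 + Polynomial.C a * Polynomial.X ^ 2 + Polynomial.C b * Polynomial.X +
      Polynomial.C c : Polynomial ℂ).degree = 3 := by compute_degree!
    rw [h, Polynomial.degree_zero] at h1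
    exact absurd h1 (by decide)
  · simp only [map_add, map_mul, map_pow, Polynomial.aeval_X, Polynomial.aeval_C]
    rw [← hy]
    simp

/-- Proof. Let `ω, m, F` be as in `HasBaseSections`. Choose `E` with `E x = 1`, so `E y = (3 x² + 2 a x + b) / (2 y)` and `E` preserves
`FT ![x, y]`; `a' = ω(E)`, `ω(D) = a' D x` for all `D` (`D - (D x) E` vanishes on `x` and `y`), `a' ≠ 0`. `G i = F i a'^m y^m ∈ FT ![x, y]`. Claim:
`v (G i) ≥ 0` at all places of `K`. `sl_cover`: clear in the first case. `v x < 0`: `sl_good_cubic` with `h = x`, `k = y` and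
`sl_inf_order` (compare the two places). A point `(x₀, y₀)`: `sl_translate`, `v h < 0`; `G i ∈ FT ![h, k]` since
`x, y ∈ FT ![h, k]`; `sl_good_cubic` for `h, k` and `sl_inf_order` for `h, k`. So `G i` is constant (otherwise
`exists_place_over` (sp/P0) for `(G i)⁻¹` gives a place with `v (G i) < 0`), and `F 1 / F 0 = G 1 / G 0` is constant, a
contradiction. -/
theorem sl_cubic {K : Type} [Field K] [Algebra ℂ K] (T₀ : Finset K)
    (hT₀ : IntermediateField.adjoin ℂ (T₀ : Set K) = ⊤) (hbd : PencilBound K) (a b c : ℂ)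
    (hd : ∀ x : ℂ, x ^ 3 + a * x ^ 2 + b * x + c = 0 → 3 * x ^ 2 + 2 * a * x + b ≠ 0) (x y : K)
    (hx : Transcendental ℂ x)
    (hy : y ^ 2 = x ^ 3 + algebraMap ℂ K a * x ^ 2 + algebraMap ℂ K b * x + algebraMap ℂ K c) :
    ¬ HasBaseSections ![x, y] := by
  rintro ⟨ω, m, F, hm, hω0, hF, htr, hreg, hvan, hbase⟩
  have hy0 : y ≠ 0 := slt8_cubic_ne a b c hx hy
  have h20 : (2 : K) ≠ 0 := by
    have : CharZero K := charZero_of_injective_algebraMap (algebraMap ℂ K).injective
    exact two_ne_zero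
  -- differentiating the equation
  have hdiff : ∀ D : Derivation ℂ K K, 2 * y * D y =
      (3 * x ^ 2 + 2 * algebraMap ℂ K a * x + algebraMap ℂ K b) * D x := by
    intro D
    have h1 := congrArg D hy
    simp only [map_add, Derivation.leibniz, Derivation.leibniz_pow, Derivation.map_algebraMap,
      smul_eq_mul, nsmul_eq_mul, mul_zero, add_zero] at h1
    push_cast at h1
    linear_combination h1
  obtain ⟨E, hE⟩ := exists_derivation (k := ℂ) (fun _ : Fin 1 => x)
    (by rw [algebraicIndependent_unique_type_iff]; exact hx) (fun _ => 1)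
  have hEx : E x = 1 := hE 0
  have hxm : x ∈ FT ![x, y] := IntermediateField.subset_adjoin _ _ ⟨0, rfl⟩
  have hym : y ∈ FT ![x, y] := IntermediateField.subset_adjoin _ _ ⟨1, rfl⟩
  have hEy : E y = (3 * x ^ 2 + 2 * algebraMap ℂ K a * x + algebraMap ℂ K b) / (2 * y) := by
    have h1 := hdiff E
    rw [hEx, mul_one] at h1
    rw [← h1, mul_div_cancel_left₀ _ (mul_ne_zero h20 hy0)]
  have hc : ∀ e : ℂ, algebraMap ℂ K e ∈ FT ![x, y] := fun e => (FT ![x, y]).algebraMap_mem e
  have hnat : ∀ k : ℕ, (k : K) ∈ FT ![x, y] := fun k => natCast_mem _ k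
  have h2m : (2 : K) ∈ FT ![x, y] := by exact_mod_cast hnat 2
  have h3m : (3 : K) ∈ FT ![x, y] := by exact_mod_cast hnat 3
  have hEpres : ∀ z ∈ FT ![x, y], E z ∈ FT ![x, y] := by
    apply slt8_pres
    intro i
    fin_cases i
    · change E x ∈ _
      rw [hEx]
      exact (FT ![x, y]).one_mem
    · change E y ∈ _
      rw [hEy]
      exact (FT ![x, y]).div_mem ((FT ![x, y]).add_mem ((FT ![x, y]).add_mem
        ((FT ![x, y]).mul_mem h3m (pow_mem hxm 2))
        ((FT ![x, y]).mul_mem ((FT ![x, y]).mul_mem h2m (hc a)) hxm)) (hc b))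
        ((FT ![x, y]).mul_mem h2m hym)
  have hω : ∀ D : Derivation ℂ K K, ω (fun _ => D) = ω (fun _ => E) * D x := by
    intro D
    have h1 : ω (fun _ => D - D x • E) = 0 := by
      apply hvan
      intro i
      fin_cases i
      · change (D - D x • E) x = 0
        rw [Derivation.sub_apply, Derivation.smul_apply, hEx, smul_eq_mul, mul_one, sub_self]
      · change (D - D x • E) y = 0
        rw [Derivation.sub_apply, Derivation.smul_apply, hEy, smul_eq_mul, sub_eq_zero]
        rw [mul_div_assoc', eq_div_iff (mul_ne_zero h20 hy0)]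
        linear_combination hdiff D
    have h2 := slt8_add ω (D - D x • E) (D x • E)
    rw [sub_add_cancel, h1, zero_add, slt8_smul] at h2
    rw [h2, mul_comm]
  have ha0 : ω (fun _ => E) ≠ 0 := by
    intro h0
    apply hω0
    ext D
    have h1 : D = fun _ => D 0 := by
      ext1 i
      rw [Subsingleton.elim i 0]
    rw [h1, hω, h0, zero_mul]
    rfl
  set a' := ω (fun _ => E) with ha'
  have hG0 : ∀ i, F i * a' ^ m * y ^ m ≠ 0 := fun i =>
    mul_ne_zero (mul_ne_zero (hF i) (pow_ne_zero _ ha0)) (pow_ne_zero _ hy0)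
  have hGm : ∀ i, F i * a' ^ m * y ^ m ∈ FT ![x, y] := fun i =>
    (FT ![x, y]).mul_mem (hbase E hEpres i) (pow_mem hym m)
  have hpos : ∀ (O : ValuationSubring K) (v : K → ℤ), IsPlace O → IsOrd O v →
      ∀ i, 0 ≤ v (F i * a' ^ m * y ^ m) := by
    intro O v hO hv i
    rcases sl_cover a b c x y hx hy O v hO hv with h1 | h1 | ⟨x₀, y₀, h₀, h1, h2⟩
    · exact (h1 _ (hGm i) (hG0 i)).ge
    · obtain ⟨O₁, v₁, hO₁, hv₁, hx₁, hpos₁⟩ := sl_good_cubic T₀ hT₀ hbd a b c hd x y x y hx hy hy0
        (fun D => Or.inr rfl) ω a' ha0 hω m F hF hreg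
      obtain ⟨n, hn⟩ := sl_inf_order a b c x y hx hy _ (hGm i) (hG0 i)
      have e1 := hn O₁ v₁ hO₁ hv₁ hx₁
      have e2 := hn O v hO hv h1
      have e3 := hpos₁ i
      have hn0 : n ≤ 0 := by
        by_contra hcon
        have : n * v₁ x < 0 := mul_neg_of_pos_of_neg (by omega) hx₁
        omega
      have : 0 ≤ n * v x := mul_nonneg_of_nonpos_of_nonpos hn0 h1.le
      omega
    · obtain ⟨h, k, hh, hk, hxh, hyh, hD, hvh⟩ := sl_translate a b c hd x y hx hy x₀ y₀ h₀
      obtain ⟨O₁, v₁, hO₁, hv₁, hx₁, hpos₁⟩ := sl_good_cubic T₀ hT₀ hbd a b c hd h k x y hh hk hy0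
        (fun D => Or.inl (hD D)) ω a' ha0 hω m F hF hreg
      have hle : FT ![x, y] ≤ FT ![h, k] := by
        rw [IntermediateField.adjoin_le_iff]
        rintro _ ⟨i, rfl⟩
        fin_cases i
        · exact hxh
        · exact hyh
      obtain ⟨n, hn⟩ := sl_inf_order a b c h k hh hk _ (hle (hGm i)) (hG0 i)
      have e1 := hn O₁ v₁ hO₁ hv₁ hx₁
      have h3 := hvh O v hO hv h1 h2
      have e2 := hn O v hO hv h3
      have e3 := hpos₁ i
      have hn0 : n ≤ 0 := by
        by_contra hcon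
        have : n * v₁ h < 0 := mul_neg_of_pos_of_neg (by omega) hx₁
        omega
      have : 0 ≤ n * v h := mul_nonneg_of_nonpos_of_nonpos hn0 h3.le
      omega
  have hconst : ∀ i, ∃ c₀ : ℂ, algebraMap ℂ K c₀ = F i * a' ^ m * y ^ m := by
    intro i
    apply slt8_const
    intro htr1
    have htr2 : Transcendental ℂ (F i * a' ^ m * y ^ m)⁻¹ := by
      intro h1
      exact htr1 (by simpa using h1.inv)
    obtain ⟨O, v, hO, hv, h1⟩ := exists_place_over T₀ hT₀ _ htr2
    rw [hv.map_inv (hG0 i)] at h1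
    have := hpos O v hO hv i
    omega
  obtain ⟨c₀, hc₀⟩ := hconst 0
  obtain ⟨c₁, hc₁⟩ := hconst 1
  apply htr
  have h1 : F 1 / F 0 = algebraMap ℂ K (c₁ / c₀) := by
    rw [map_div₀, hc₀, hc₁]
    have n1 := pow_ne_zero m ha0
    have n2 := pow_ne_zero m hy0
    have n3 := hF 0
    field_simp
  rw [h1]
  exact isAlgebraic_algebraMap _

end Pool.Agent.AbPencil
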