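import Pool.Agent.Lib_MP_1209e6_sl.M0
import Pool.Agent.Lib_MP_1209e6_sl.Q3
import Pool.Agent.Lib_MP_1209e6_sl.T6
import Pool.Agent.Lib_MP_1209e6_sl.T7
import Pool.Agent.Lib_MP_1209e6_sl.T8
import Pool.Agent.Lib_MP_1209e6_sk.Main

/-! Assembly: the equivalence for pencils of abelian type. -/

set_option autoImplicit false

namespace Pool.Agent.AbPencil

open Pool.Agent.Campana Pool.Agent.CampanaFlow Pool.Agent.AbFib

/-- The coordinates of a base curve of genus at most one are algebraic over `ℂ(t 0)`. -/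
private theorem isAlgebraic_base {K : Type} [Field K] [Algebra ℂ K] (t : Fin (1 + 1) → K)
    (ht : IsBase t) : ∀ i, IsAlgebraic (FT fun _ : Fin 1 => t 0) (t i) := by
  have h0 : t 0 ∈ FT fun _ : Fin 1 => t 0 :=
    IntermediateField.subset_adjoin _ _ ⟨0, rfl⟩
  have hA0 : IsAlgebraic (FT fun _ : Fin 1 => t 0) (t 0) :=
    isAlgebraic_algebraMap (⟨t 0, h0⟩ : FT fun _ : Fin 1 => t 0)
  have hc : ∀ a : ℂ, IsAlgebraic (FT fun _ : Fin 1 => t 0) (algebraMap ℂ K a) := fun a =>
    isAlgebraic_algebraMap (⟨algebraMap ℂ K a, IntermediateField.algebraMap_mem _ a⟩ :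
      FT fun _ : Fin 1 => t 0)
  obtain ⟨-, h1 | ⟨a, b, c, -, h1⟩⟩ := ht
  · intro i
    fin_cases i
    · exact hA0
    · show IsAlgebraic _ (t 1)
      rw [h1]
      exact isAlgebraic_zero
  · intro i
    fin_cases i
    · exact hA0
    · show IsAlgebraic _ (t 1)
      refine IsAlgebraic.of_pow (n := 2) (by norm_num) ?_
      rw [h1]
      exact (((hA0.pow 3).add ((hc a).mul (hA0.pow 2))).add ((hc b).mul hA0)).add (hc c)

/-- `PencilBound` implies special, under the hypothesis that no 1-form of the generic fibre lifts. -/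
theorem special_of_bound {m r N : ℕ} (P : Ideal (MvPolynomial (Fin (m + 1)) ℂ)) [P.IsPrime]
    (t : Fin 2 → FunField P) (ht : IsBase t)
    (δ : Fin r → FunField P) (hδ : ∀ i, δ i ≠ 0) (n : Fin r → ℕ) (hn : ∀ i, 1 ≤ n i)
    (x : Fin (N + 1) → KW (FunField P) r) (h : IsAbelianFibration (twist t δ n) x)
    (hcl : ClosedIn t) (hno : NoLift (twist t δ n)) (hb : PencilBound (FunField P)) :
    SpecialField (FunField P) := by
  obtain ⟨T₀, hT₀⟩ := funField_fg P
  have ht2 : t = ![t 0, t 1] := by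
    funext i
    fin_cases i <;> rfl
  by_contra hs
  have hB : HasBaseSections t :=
    sl_reduce_tw ⟨T₀, hT₀⟩ t δ hδ n hn x (sl_homogeneous _ x h) hcl hno
      (sl_trdeg t (isAlgebraic_base t ht)) hs
  obtain ⟨h0, h1 | ⟨a, b, c, hd, hc⟩⟩ := ht
  · refine sl_line T₀ hT₀ t (t 0) h0 ?_ ?_ hB
    · apply le_antisymm
      · rw [IntermediateField.adjoin_le_iff]
        rintro _ ⟨i, rfl⟩
        fin_cases i
        · exact IntermediateField.subset_adjoin _ _ ⟨0, rfl⟩
        · show t 1 ∈ _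
          rw [h1]
          exact zero_mem _
      · rw [IntermediateField.adjoin_le_iff]
        rintro _ ⟨i, rfl⟩
        exact IntermediateField.subset_adjoin _ _ ⟨0, rfl⟩
    · exact hb (t 0) h0 (infMult (t 0)) (one_le_infMult P (t 0) h0) (infMult_le P (t 0))
  · rw [ht2] at hB
    exact sl_cubic T₀ hT₀ hb a b c hd (t 0) (t 1) h0 hc hB

end Pool.Agent.AbPencil
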