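import Pool.Agent.Lib_MP_1209e6_sl.Defs
import Pool.Agent.Lib_MP_1209e6_ab.B1
import Pool.Agent.Lib_MP_1209e6_sp.S

/-! PIECE U2: two points of a fibre with different values of an algebraic function. -/

set_option autoImplicit false

open Filter Topology

namespace Pool.Agent.AbPencil

open Pool.Agent.Campana Pool.Agent.AbFib MvPolynomial

/-- An element of a purely transcendental extension which is algebraic over the ground field is in the
ground field. -/
private theorem mem_of_alg {k E : Type} [Field k] [Field E] [Algebra k E] {ι : Type} {y : ι → E}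
    (hy : AlgebraicIndependent k y) {a : E} (ha : IsAlgebraic k a)
    (h : a ∈ IntermediateField.adjoin k (Set.range y)) : a ∈ (algebraMap k E).range := by
  obtain ⟨f, g, hfg⟩ := (IntermediateField.mem_adjoin_range_iff k y a).1 h
  by_cases hg : aeval y g = 0
  · rw [hg, div_zero] at hfg
    rw [hfg]
    exact zero_mem _
  have h1 : a * aeval y g = aeval y f := by rw [hfg, div_mul_cancel₀ _ hg]
  have hg0 : g ≠ 0 := by
    rintro rfl
    exact hg (map_zero _)
  let a' : algebraicClosure k E := ⟨a, mem_algebraicClosure_iff.2 ha⟩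
  have hy' : AlgebraicIndependent (algebraicClosure k E) y := hy.algebraicClosure
  have h2 : aeval y (C a' * map (algebraMap k (algebraicClosure k E)) g -
      map (algebraMap k (algebraicClosure k E)) f) = 0 := by
    rw [map_sub, map_mul, algHom_C, aeval_map_algebraMap, aeval_map_algebraMap, sub_eq_zero]
    exact h1
  have h3 := (algebraicIndependent_iff.1 hy') _ h2
  obtain ⟨m, hm⟩ := ne_zero_iff.1 hg0
  have h4 : coeff m (C a' * map (algebraMap k (algebraicClosure k E)) g -
      map (algebraMap k (algebraicClosure k E)) f) = 0 := by rw [h3, coeff_zero]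
  rw [coeff_sub, coeff_C_mul, coeff_map, coeff_map, sub_eq_zero] at h4
  have h5 : a * algebraMap k E (coeff m g) = algebraMap k E (coeff m f) := congrArg Subtype.val h4
  have h6 : algebraMap k E (coeff m g) ≠ 0 := by
    rwa [Ne, map_eq_zero]
  refine ⟨coeff m f / coeff m g, ?_⟩
  rw [map_div₀, ← h5, mul_div_cancel_right₀ _ h6]

/-- An embedding which moves a given element. -/
private theorem exists_move {k M : Type} [Field k] [Field M] [Algebra k M] [CharZero k] (a : M)
    (ha : IsAlgebraic k a) (hna : a ∉ (algebraMap k M).range) :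
    ∃ σ : M →ₐ[k] AlgebraicClosure M, σ a ≠ algebraMap M (AlgebraicClosure M) a := by
  obtain ⟨s, hs⟩ := exists_isTranscendenceBasis k M
  have h1 : Algebra.IsAlgebraic (IntermediateField.adjoin k (Set.range ((↑) : s → M))) M :=
    hs.isAlgebraic_field
  have hna' : a ∉ IntermediateField.adjoin k (Set.range ((↑) : s → M)) := fun h =>
    hna (mem_of_alg hs.1 ha h)
  generalize IntermediateField.adjoin k (Set.range ((↑) : s → M)) = F at h1 hna'
  have h2 : Algebra.IsAlgebraic F (AlgebraicClosure M) := Algebra.IsAlgebraic.trans F M _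
  have h3 : IsAlgClosure F (AlgebraicClosure M) := ⟨inferInstance, h2⟩
  have h4 : CharZero F := inferInstance
  have h5 : IsGalois F (AlgebraicClosure M) := inferInstance
  have h6 : algebraMap M (AlgebraicClosure M) a ∉
      (⊥ : IntermediateField F (AlgebraicClosure M)) := by
    intro h
    obtain ⟨b, hb⟩ := IntermediateField.mem_bot.1 h
    rw [IsScalarTower.algebraMap_apply F M (AlgebraicClosure M)] at hb
    apply hna'
    rw [← (algebraMap M (AlgebraicClosure M)).injective hb]
    exact b.2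
  rw [InfiniteGalois.mem_bot_iff_fixed] at h6
  push Not at h6
  obtain ⟨f, hf⟩ := h6
  exact ⟨((f : AlgebraicClosure M →ₐ[F] AlgebraicClosure M).restrictScalars k).comp
    (IsScalarTower.toAlgHom k M (AlgebraicClosure M)), hf⟩

/-- A point of a fibre. -/
private theorem mem_fibre {M : Type} [Field M] [Algebra ℂ M] {n N : ℕ} (t : Fin n → M)
    (x : Fin (N + 1) → M) (hx : ∀ l, x l ≠ 0) {u : Fin n → ℂ} {v : Fin (N + 1) → ℂ} (h0 : v 0 = 1)
    (h : ∀ p : MvPolynomial (Fin n ⊕ Fin (N + 1)) ℂ, aeval (co t x 0) p = 0 →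
      aeval (Sum.elim u v) p = 0) : v ∈ Fibre t x u := by
  have hv0 : v 0 ≠ 0 := by rw [h0]; exact one_ne_zero
  refine ⟨fun h' => hv0 (by rw [h']; rfl), fun j' hj' p hp' => ?_⟩
  obtain ⟨p', d, hd⟩ := change_chart p j' 0
  have h1 := hd t x (hx 0)
  rw [hp', mul_zero] at h1
  have h2 := h p' h1
  rw [← Fam.co_self 0 u v h0, hd u v hv0] at h2
  exact (mul_eq_zero.1 h2).resolve_left (pow_ne_zero _ (div_ne_zero hj' hv0))

/-- A polynomial relation of `a` with coefficients in `ℂ[t]`. -/
private theorem exists_rel {M : Type} [Field M] [Algebra ℂ M] {n : ℕ} (t : Fin n → M) (a : M)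
    (ha : IsAlgebraic (FT t) a) : ∃ P : Polynomial (MvPolynomial (Fin n) ℂ),
      P.eval₂ (aeval t : MvPolynomial (Fin n) ℂ →ₐ[ℂ] M).toRingHom a = 0 ∧
      ∃ i, aeval t (P.coeff i) ≠ 0 := by
  obtain ⟨p, hp0, hp⟩ := IntermediateField.isAlgebraic_adjoin_iff.1 ha
  have hl : ∀ b : Algebra.adjoin ℂ (Set.range t), ∃ c : MvPolynomial (Fin n) ℂ, aeval t c = (b : M) := by
    intro b
    exact (Algebra.adjoin_range_eq_range_aeval ℂ t).le b.2
  choose c hc using hl
  refine ⟨∑ i ∈ Finset.range (p.natDegree + 1), Polynomial.monomial i (c (p.coeff i)), ?_, ?_⟩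
  · rw [Polynomial.eval₂_finsetSum]
    rw [Polynomial.aeval_eq_sum_range] at hp
    rw [← hp]
    refine Finset.sum_congr rfl fun i _ => ?_
    rw [Polynomial.eval₂_monomial]
    change aeval t (c (p.coeff i)) * a ^ i = _
    rw [hc, Algebra.smul_def]
    rfl
  · refine ⟨p.natDegree, ?_⟩
    rw [Polynomial.finsetSum_coeff]
    simp only [Polynomial.coeff_monomial]
    rw [Finset.sum_ite_eq' (Finset.range (p.natDegree + 1)) p.natDegree, if_pos (by simp), hc]
    intro h
    apply hp0
    rw [← Polynomial.leadingCoeff_eq_zero]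
    exact Subtype.ext h

/-- Proof. `k = FT t`. As `a ∉ k` is algebraic over `k` (characteristic zero) its minimal polynomial has another root `a' ≠ a`
in an algebraic closure `Ω` of `M`; the `k`-embedding `k(a) → Ω`, `a ↦ a'` extends to `σ : M → Ω` (`y ↦ y` on a transcendence basis
`y` of `M` over `k(a)`, then `IsAlgClosed.lift`). Let `ι : M → Ω` be the inclusion, `D` the `ℂ`-subalgebra of `Ω` generated by
`ι, σ` of `t`, `x_l / x_0`, the inverses of `ι, σ` of `aeval (co t x 0) B`, and of `ι (aeval t h)`, `a - a'`. A homomorphism `D → ℂ` (`exists_point` in sp/S, a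
finitely generated domain) gives `u` (`ι = σ` on `t`), `v = ` values of `ι (x_l / x_0)`, `v' = ` values of `σ (x_l / x_0)`; they satisfy the
relations in the chart `0`, so in all charts (`change_chart`, see `Fam.mem_fib_iff` in ab/B1). Finite set of values: a nonzero
polynomial `p` over `k` with `p(a) = 0`, multiplied by a denominator: coefficients `c_i(t)`, `c_i ∈ ℂ[t]`; add `(c_q(t))⁻¹`, `q` the
degree, to the generators of `D`. The relation `∑ c_i(t) A^i B^(q-i) = 0` holds at all points of the fibre, so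
the values `A / B` are roots of the nonzero polynomial `∑ c_i(u) X^i`. -/
theorem sl_points {M : Type} [Field M] [Algebra ℂ M] {n N : ℕ} (t : Fin n → M)
    (x : Fin (N + 1) → M) (hx : ∀ l, x l ≠ 0) (a : M) (ha : IsAlgebraic (FT t) a) (hna : a ∉ FT t)
    (A B : MvPolynomial (Fin n ⊕ Fin (N + 1)) ℂ) (hB : aeval (co t x 0) B ≠ 0)
    (hA : a * aeval (co t x 0) B = aeval (co t x 0) A) (h : MvPolynomial (Fin n) ℂ)
    (hh : aeval t h ≠ 0) :
    ∃ (u : Fin n → ℂ) (v v' : Fin (N + 1) → ℂ) (R : Set ℂ), eval u h ≠ 0 ∧ v ∈ Fibre t x u ∧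
      v' ∈ Fibre t x u ∧ v 0 = 1 ∧ v' 0 = 1 ∧ aeval (Sum.elim u v) B ≠ 0 ∧
      aeval (Sum.elim u v') B ≠ 0 ∧
      aeval (Sum.elim u v) A / aeval (Sum.elim u v) B ≠
        aeval (Sum.elim u v') A / aeval (Sum.elim u v') B ∧ R.Finite ∧
      ∀ w ∈ Fibre t x u, w 0 = 1 → aeval (Sum.elim u w) B ≠ 0 →
        aeval (Sum.elim u w) A / aeval (Sum.elim u w) B ∈ R := by
  classical
  -- the two embeddings
  obtain ⟨σ₀, hσ₀⟩ := exists_move (k := FT t) a ha (by
    rintro ⟨b, hb⟩
    apply hna
    rw [← hb]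
    exact b.2)
  let ι : M →ₐ[ℂ] AlgebraicClosure M := IsScalarTower.toAlgHom ℂ M (AlgebraicClosure M)
  let σ : M →ₐ[ℂ] AlgebraicClosure M := σ₀.restrictScalars ℂ
  have hσ : σ a ≠ ι a := hσ₀
  have hσt : ∀ i, σ (t i) = ι (t i) := by
    intro i
    have h1 : t i ∈ FT t := IntermediateField.subset_adjoin _ _ ⟨i, rfl⟩
    exact σ₀.commutes ⟨t i, h1⟩
  have hιi : Function.Injective ι := ι.toRingHom.injective
  have hσi : Function.Injective σ := σ.toRingHom.injective
  -- the relation
  obtain ⟨P, hP, q, hq⟩ := exists_rel t a ha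
  -- the generators
  let G : (Fin n ⊕ Fin (N + 1)) ⊕ (Fin n ⊕ Fin (N + 1)) → AlgebraicClosure M :=
    Sum.elim (fun s => ι (co t x 0 s)) (fun s => σ (co t x 0 s))
  have hft : Algebra.FiniteType ℂ (Algebra.adjoin ℂ (Set.range G)) :=
    (Subalgebra.fg_iff_finiteType _).1 (Subalgebra.fg_def.2 ⟨_, Set.finite_range G, rfl⟩)
  let Y : Fin n ⊕ Fin (N + 1) → Algebra.adjoin ℂ (Set.range G) := fun s =>
    ⟨ι (co t x 0 s), Algebra.subset_adjoin ⟨Sum.inl s, rfl⟩⟩
  let Y' : Fin n ⊕ Fin (N + 1) → Algebra.adjoin ℂ (Set.range G) := fun s =>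
    ⟨σ (co t x 0 s), Algebra.subset_adjoin ⟨Sum.inr s, rfl⟩⟩
  have hY : ∀ p : MvPolynomial (Fin n ⊕ Fin (N + 1)) ℂ,
      ((aeval Y p : Algebra.adjoin ℂ (Set.range G)) : AlgebraicClosure M) =
        ι (aeval (co t x 0) p) := by
    intro p
    rw [MvPolynomial.comp_aeval_apply]
    exact MvPolynomial.comp_aeval_apply (f := Y) (Algebra.adjoin ℂ (Set.range G)).val p
  have hY' : ∀ p : MvPolynomial (Fin n ⊕ Fin (N + 1)) ℂ,
      ((aeval Y' p : Algebra.adjoin ℂ (Set.range G)) : AlgebraicClosure M) =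
        σ (aeval (co t x 0) p) := by
    intro p
    rw [MvPolynomial.comp_aeval_apply]
    exact MvPolynomial.comp_aeval_apply (f := Y') (Algebra.adjoin ℂ (Set.range G)).val p
  have hYt : ∀ i, Y (Sum.inl i) = Y' (Sum.inl i) := fun i => Subtype.ext (hσt i).symm
  have hYp : ∀ p : MvPolynomial (Fin n) ℂ,
      ((aeval (fun i => Y (Sum.inl i)) p : Algebra.adjoin ℂ (Set.range G)) :
        AlgebraicClosure M) = ι (aeval t p) := by
    intro p
    rw [MvPolynomial.comp_aeval_apply]
    exact MvPolynomial.comp_aeval_apply (f := fun i => Y (Sum.inl i))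
      (Algebra.adjoin ℂ (Set.range G)).val p
  -- the nonzero element
  have e1 : aeval Y B ≠ 0 := by
    intro h0
    have h1 := hY B
    rw [h0] at h1
    exact hB ((map_eq_zero_iff ι hιi).1 h1.symm)
  have e2 : aeval Y' B ≠ 0 := by
    intro h0
    have h1 := hY' B
    rw [h0] at h1
    exact hB ((map_eq_zero_iff σ hσi).1 h1.symm)
  have e3 : aeval (fun i => Y (Sum.inl i)) h ≠ 0 := by
    intro h0
    have h1 := hYp h
    rw [h0] at h1
    exact hh ((map_eq_zero_iff ι hιi).1 h1.symm)
  have e4 : aeval (fun i => Y (Sum.inl i)) (P.coeff q) ≠ 0 := by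
    intro h0
    have h1 := hYp (P.coeff q)
    rw [h0] at h1
    exact hq ((map_eq_zero_iff ι hιi).1 h1.symm)
  have e5 : aeval Y A * aeval Y' B - aeval Y' A * aeval Y B ≠ 0 := by
    intro h0
    have h1 : ι (aeval (co t x 0) A) * σ (aeval (co t x 0) B) -
        σ (aeval (co t x 0) A) * ι (aeval (co t x 0) B) = 0 := by
      rw [← hY, ← hY, ← hY', ← hY']
      exact congrArg Subtype.val h0
    rw [← hA, map_mul, map_mul] at h1
    have h2 : (ι a - σ a) * (ι (aeval (co t x 0) B) * σ (aeval (co t x 0) B)) = 0 := by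
      rw [← h1]
      ring
    rcases mul_eq_zero.1 h2 with h3 | h3
    · exact hσ (sub_eq_zero.1 h3).symm
    · rcases mul_eq_zero.1 h3 with h4 | h4
      · exact hB ((map_eq_zero_iff ι hιi).1 h4)
      · exact hB ((map_eq_zero_iff σ hσi).1 h4)
  obtain ⟨φ, hφ⟩ := exists_point (R := Algebra.adjoin ℂ (Set.range G))
    (aeval Y B * aeval Y' B * aeval (fun i => Y (Sum.inl i)) h *
    aeval (fun i => Y (Sum.inl i)) (P.coeff q) *
    (aeval Y A * aeval Y' B - aeval Y' A * aeval Y B))
    (mul_ne_zero (mul_ne_zero (mul_ne_zero (mul_ne_zero e1 e2) e3) e4) e5)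
  -- the points
  let u : Fin n → ℂ := fun i => φ (Y (Sum.inl i))
  let v : Fin (N + 1) → ℂ := fun l => φ (Y (Sum.inr l))
  let v' : Fin (N + 1) → ℂ := fun l => φ (Y' (Sum.inr l))
  have k1 : ∀ p : MvPolynomial (Fin n ⊕ Fin (N + 1)) ℂ, φ (aeval Y p) = aeval (Sum.elim u v) p := by
    intro p
    rw [MvPolynomial.comp_aeval_apply]
    congr 2
    funext s
    cases s with
    | inl i => rfl
    | inr l => rfl
  have k2 : ∀ p : MvPolynomial (Fin n ⊕ Fin (N + 1)) ℂ, φ (aeval Y' p) = aeval (Sum.elim u v') p := by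
    intro p
    rw [MvPolynomial.comp_aeval_apply]
    congr 2
    funext s
    cases s with
    | inl i =>
      change φ (Y' (Sum.inl i)) = φ (Y (Sum.inl i))
      rw [hYt]
    | inr l => rfl
  have k3 : ∀ p : MvPolynomial (Fin n) ℂ, φ (aeval (fun i => Y (Sum.inl i)) p) = eval u p := by
    intro p
    rw [MvPolynomial.comp_aeval_apply, ← MvPolynomial.aeval_eq_eval]
  have hv0 : v 0 = 1 := by
    change φ (Y (Sum.inr 0)) = 1
    have h1 : Y (Sum.inr 0) = 1 := by
      apply Subtype.ext
      change ι (x 0 / x 0) = 1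
      rw [div_self (hx 0), map_one]
    rw [h1, map_one]
  have hv0' : v' 0 = 1 := by
    change φ (Y' (Sum.inr 0)) = 1
    have h1 : Y' (Sum.inr 0) = 1 := by
      apply Subtype.ext
      change σ (x 0 / x 0) = 1
      rw [div_self (hx 0), map_one]
    rw [h1, map_one]
  rw [map_mul, map_mul, map_mul, map_mul, map_sub, map_mul, map_mul, k1, k1, k2, k2, k3, k3] at hφ
  have d5 := right_ne_zero_of_mul hφ
  have d4 := right_ne_zero_of_mul (left_ne_zero_of_mul hφ)
  have d3 := right_ne_zero_of_mul (left_ne_zero_of_mul (left_ne_zero_of_mul hφ))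
  have d2 := right_ne_zero_of_mul (left_ne_zero_of_mul (left_ne_zero_of_mul
    (left_ne_zero_of_mul hφ)))
  have d1 := left_ne_zero_of_mul (left_ne_zero_of_mul (left_ne_zero_of_mul
    (left_ne_zero_of_mul hφ)))
  -- the relation in the fibre
  let Q : MvPolynomial (Fin n ⊕ Fin (N + 1)) ℂ := ∑ i ∈ Finset.range (P.natDegree + 1),
    rename Sum.inl (P.coeff i) * A ^ i * B ^ (P.natDegree - i)
  have hQ : aeval (co t x 0) Q = 0 := by
    have h1 : aeval (co t x 0) Q = aeval (co t x 0) B ^ P.natDegree *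
        P.eval₂ (aeval t : MvPolynomial (Fin n) ℂ →ₐ[ℂ] M).toRingHom a := by
      rw [Polynomial.eval₂_eq_sum_range, Finset.mul_sum, map_sum]
      refine Finset.sum_congr rfl fun i hi => ?_
      rw [map_mul, map_mul, map_pow, map_pow, aeval_rename, ← hA]
      have h2 : (co t x 0) ∘ Sum.inl = t := rfl
      rw [h2]
      change aeval t (P.coeff i) * (a * aeval (co t x 0) B) ^ i *
        aeval (co t x 0) B ^ (P.natDegree - i) = aeval (co t x 0) B ^ P.natDegree *
        (aeval t (P.coeff i) * a ^ i)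
      have h3 : aeval (co t x 0) B ^ P.natDegree =
          aeval (co t x 0) B ^ i * aeval (co t x 0) B ^ (P.natDegree - i) := by
        rw [← pow_add, Nat.add_sub_cancel' (Nat.lt_succ_iff.1 (Finset.mem_range.1 hi))]
      rw [h3]
      ring
    rw [h1, hP, mul_zero]
  have hPu : P.map (eval u) ≠ 0 := by
    intro h0
    apply d4
    rw [← Polynomial.coeff_map, h0, Polynomial.coeff_zero]
  refine ⟨u, v, v', ((P.map (eval u)).roots.toFinset : Set ℂ), d3, mem_fibre t x hx hv0 ?_,
    mem_fibre t x hx hv0' ?_, hv0, hv0', d1, d2, ?_, Finset.finite_toSet _, ?_⟩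
  · intro p hp
    rw [← k1]
    have h1 := hY p
    rw [hp, map_zero] at h1
    have h2 : aeval Y p = 0 := Subtype.ext h1
    rw [h2, map_zero]
  · intro p hp
    rw [← k2]
    have h1 := hY' p
    rw [hp, map_zero] at h1
    have h2 : aeval Y' p = 0 := Subtype.ext h1
    rw [h2, map_zero]
  · intro h0
    apply d5
    rw [div_eq_div_iff d1 d2] at h0
    rw [sub_eq_zero]
    exact h0
  · intro w hw hw0 hwB
    rw [Finset.mem_coe, Multiset.mem_toFinset, Polynomial.mem_roots hPu, Polynomial.IsRoot,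
      Polynomial.eval_map, Polynomial.eval₂_eq_sum_range]
    have hw0' : w 0 ≠ 0 := by rw [hw0]; exact one_ne_zero
    have h1 := hw.2 0 hw0' Q hQ
    rw [Fam.co_self 0 u w hw0] at h1
    have h2 : aeval (Sum.elim u w) B ^ P.natDegree * ∑ i ∈ Finset.range (P.natDegree + 1),
        eval u (P.coeff i) * (aeval (Sum.elim u w) A / aeval (Sum.elim u w) B) ^ i =
        aeval (Sum.elim u w) Q := by
      rw [Finset.mul_sum, map_sum]
      refine Finset.sum_congr rfl fun i hi => ?_
      rw [map_mul, map_mul, map_pow, map_pow, aeval_rename]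
      have h2 : (Sum.elim u w) ∘ Sum.inl = u := rfl
      have h2' : aeval u (P.coeff i) = eval u (P.coeff i) := by rw [MvPolynomial.aeval_eq_eval]
      rw [h2, h2']
      have h3 : aeval (Sum.elim u w) B ^ P.natDegree =
          aeval (Sum.elim u w) B ^ i * aeval (Sum.elim u w) B ^ (P.natDegree - i) := by
        rw [← pow_add, Nat.add_sub_cancel' (Nat.lt_succ_iff.1 (Finset.mem_range.1 hi))]
      rw [h3, div_pow]
      field_simp
    rw [h1] at h2
    exact (mul_eq_zero.1 h2).resolve_left (pow_ne_zero _ hwB)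

end Pool.Agent.AbPencil
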