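import Pool.Agent.Lib_MP_1209e6_sl.U1
import Pool.Agent.Lib_MP_1209e6_sl.U2
import Pool.Agent.Lib_MP_1209e6_sk.Z0

/-! PIECE U3: connected fibres: the field of the base is algebraically closed. -/

set_option autoImplicit false

namespace Pool.Agent.AbPencil

open Pool.Agent.Campana Pool.Agent.CampanaFlow Pool.Agent.AbFib MvPolynomial

/-- Proof. Let `a ∈ M` be algebraic over `FT t` and `a ∉ FT t`. `a = A / B` with polynomials in `co t x 0` (`h.gen`). `exists_fam`,
`nonempty_algPack`, `nonempty_flowAPI`, `nonempty_good` (with `h.connected`, as in `of_entire` in ab/Main) give `F, Φ, G`. `sl_points` with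
`h = G.h`: `u, v, v'`, `G.orb` a `τ` with `Φ u τ (pm v) = pm v'`, and `sl_orbit_const` gives a contradiction. -/
theorem closedIn_of_abelian {M : Type} [Field M] [Algebra ℂ M] {n N : ℕ} (t : Fin n → M)
    (x : Fin (N + 1) → M) (h : IsAbelianFibration t x) : ClosedIn t := by
  intro a ha
  by_contra hna
  have h1 : a ∈ IntermediateField.adjoin ℂ (Set.range (co t x 0)) := by
    rw [h.gen]
    exact IntermediateField.mem_top
  rw [IntermediateField.mem_adjoin_range_iff] at h1
  obtain ⟨A, B, hAB⟩ := h1
  have hB : aeval (co t x 0) B ≠ 0 := by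
    intro hB
    rw [hB, div_zero] at hAB
    exact hna (by rw [hAB]; exact zero_mem _)
  rw [eq_div_iff hB] at hAB
  obtain ⟨g, F, rfl, rfl, hspan, c₀, hc₀, hc⟩ := exists_fam t x h
  obtain ⟨Alg⟩ := nonempty_algPack F hspan c₀ hc₀ hc
  obtain ⟨Φ⟩ := F.nonempty_flowAPI
  obtain ⟨h₀, hh₀, hconn⟩ := h.connected
  obtain ⟨G⟩ := nonempty_good Φ Alg h₀ hh₀ hconn
  obtain ⟨u, v, v', R, hu, hv, hv', hv0, hv0', hB1, hB2, hne, hR, hRw⟩ :=
    sl_points F.t F.x F.x_ne a ha hna A B hB hAB G.h G.h_ne
  obtain ⟨τ, hτ⟩ := G.orb u hu v hv v' hv'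
  exact hne (sl_orbit_const Φ u v hv hv0 τ v' hv' hv0' hτ A B hB1 hB2 R hR hRw)

/-- coefficients of polynomials in new variables lie in the field -/
private theorem coeff_mem_u3 {K : Type} [Field K] [Algebra ℂ K] {n₀ r : ℕ} (t : Fin n₀ → K)
    (p : MvPolynomial (Fin (n₀ + r)) ℂ) :
    ∀ s, coeff s (aeval (Fin.append (fun a => (C (t a) : MvPolynomial (Fin r) K)) X) p) ∈ FT t := by
  classical
  induction p using MvPolynomial.induction_on with
  | C c =>
    intro s
    rw [algHom_C, MvPolynomial.algebraMap_apply, coeff_C]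
    split_ifs
    · exact (FT t).algebraMap_mem c
    · exact zero_mem _
  | add p q hp hq =>
    intro s
    rw [map_add, coeff_add]
    exact add_mem (hp s) (hq s)
  | mul_X p i hp =>
    intro s
    rw [map_mul, aeval_X]
    refine Fin.addCases (fun a => ?_) (fun j => ?_) i
    · rw [Fin.append_left, mul_comm, coeff_C_mul]
      exact mul_mem (IntermediateField.subset_adjoin ℂ _ ⟨a, rfl⟩) (hp s)
    · rw [Fin.append_right, coeff_mul_X']
      split_ifs
      · exact hp _
      · exact zero_mem _

/-- Proof. Let `a ∈ K` be algebraic over `FT t`. Then it is algebraic over `FT (twist t δ n)`, so in it (`hcl`):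
`a B(t, u) = A(t, u)` with polynomials `A, B` and `B(t, u) ≠ 0`, `u = w ^ n / δ`. The monomials in `u` are linearly independent over `K`
(`u` is algebraically independent over `K`); comparing a coefficient with `B_s(t) ≠ 0`: `a B_s(t) = A_s(t)`. -/
theorem closedIn_descend {K : Type} [Field K] [Algebra ℂ K] {n₀ r : ℕ} (t : Fin n₀ → K) (δ : Fin r → K)
    (hδ : ∀ i, δ i ≠ 0) (n : Fin r → ℕ) (hn : ∀ i, 1 ≤ n i) (hcl : ClosedIn (twist t δ n)) :
    ClosedIn t := by
  classical
  intro a ha
  -- the embedding of fields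
  have hmem : ∀ c ∈ FT t, algebraMap K (KW K r) c ∈ FT (twist t δ n) := by
    intro c hc
    have h1 : (FT t) ≤ (FT (twist t δ n)).comap (IsScalarTower.toAlgHom ℂ K (KW K r)) := by
      rw [IntermediateField.adjoin_le_iff]
      rintro _ ⟨i, rfl⟩
      refine IntermediateField.subset_adjoin ℂ _ ⟨Fin.castAdd r i, ?_⟩
      exact Fin.append_left _ _ i
    exact h1 hc
  have halg : IsAlgebraic (FT (twist t δ n)) (algebraMap K (KW K r) a) := by
    obtain ⟨p, hp, hpa⟩ := ha
    let f : FT t →+* FT (twist t δ n) :=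
      ((algebraMap K (KW K r)).comp (algebraMap (FT t) K)).codRestrict (FT (twist t δ n)) fun c =>
        hmem c c.2
    refine ⟨p.map f, (Polynomial.map_ne_zero_iff f.injective).2 hp, ?_⟩
    rw [Polynomial.aeval_def, Polynomial.eval₂_map]
    have h2 : (algebraMap (FT (twist t δ n)) (KW K r)).comp f =
        (algebraMap K (KW K r)).comp (algebraMap (FT t) K) := by
      ext c
      rfl
    rw [h2, ← Polynomial.hom_eval₂, ← Polynomial.aeval_def, hpa, map_zero]
  have h3 := hcl _ halg
  rw [FT, IntermediateField.mem_adjoin_range_iff] at h3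
  obtain ⟨A, B, hAB⟩ := h3
  by_cases hB : aeval (twist t δ n) B = 0
  · rw [hB, div_zero] at hAB
    have h4 : a = 0 := (map_eq_zero _).1 hAB
    rw [h4]
    exact zero_mem _
  rw [eq_div_iff hB] at hAB
  -- the maps
  let ψ : MvPolynomial (Fin (n₀ + r)) ℂ →ₐ[ℂ] MvPolynomial (Fin r) K :=
    aeval (Fin.append (fun a => (C (t a) : MvPolynomial (Fin r) K)) X)
  let θ : MvPolynomial (Fin r) K →ₐ[K] KW K r := aeval fun i => wv i ^ n i / algebraMap K (KW K r) (δ i)
  have hθψ : ∀ p, aeval (twist t δ n) p = θ (ψ p) := by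
    intro p
    have h5 : aeval (twist t δ n) = (θ.restrictScalars ℂ).comp ψ := by
      refine MvPolynomial.algHom_ext fun i => ?_
      rw [aeval_X]
      change _ = θ (ψ (X i))
      rw [aeval_X]
      refine Fin.addCases (fun a => ?_) (fun j => ?_) i
      · rw [Fin.append_left, algHom_C]
        exact Fin.append_left _ _ a
      · rw [Fin.append_right, aeval_X]
        exact Fin.append_right _ _ j
    rw [h5]
    rfl
  have hind : AlgebraicIndependent K (fun i : Fin r => wv i ^ n i / algebraMap K (KW K r) (δ i)) := by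
    have h6 : AlgebraicIndependent K (fun i : Fin r => (wv i : KW K r)) := by
      have h7 := (MvPolynomial.algebraicIndependent_X (Fin r) K).map'
        (f := IsScalarTower.toAlgHom K (MvPolynomial (Fin r) K) (KW K r))
        (IsFractionRing.injective (MvPolynomial (Fin r) K) (KW K r))
      exact h7
    have h8 := h6.polynomial_aeval_of_transcendental
      (f := fun i => Polynomial.C (δ i)⁻¹ * Polynomial.X ^ n i) (fun i => by
        refine Polynomial.transcendental _ ?_ ?_
        · rw [Polynomial.natDegree_C_mul_X_pow _ _ (inv_ne_zero (hδ i))]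
          have := hn i
          omega
        · rw [Polynomial.leadingCoeff_C_mul_X_pow]
          exact mem_nonZeroDivisors_of_ne_zero (inv_ne_zero (hδ i)))
    convert! h8 using 1
    funext i
    rw [map_mul, Polynomial.aeval_C, map_pow, Polynomial.aeval_X, map_inv₀, div_eq_mul_inv, mul_comm]
  have hinj : Function.Injective θ := hind
  have h9 : C a * ψ B = ψ A := by
    apply hinj
    rw [map_mul, algHom_C, ← hθψ, ← hθψ]
    exact hAB
  have h10 : ψ B ≠ 0 := by
    intro h0
    apply hB
    rw [hθψ, h0, map_zero]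
  obtain ⟨s, hs⟩ := MvPolynomial.ne_zero_iff.1 h10
  have h11 : a * coeff s (ψ B) = coeff s (ψ A) := by
    rw [← h9, coeff_C_mul]
  have h12 : a = coeff s (ψ A) / coeff s (ψ B) := by
    rw [eq_div_iff hs, h11]
  rw [h12]
  exact div_mem (coeff_mem_u3 t A s) (coeff_mem_u3 t B s)

end Pool.Agent.AbPencil
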