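import Pool.Agent.Lib_MP_1209e6_sl.Stmt
import Pool.Agent.Lib_MP_1209e6_sl.T9
import Pool.Agent.Lib_MP_1209e6_sl.U3
import Pool.Agent.Lib_MP_1209e6_sp.N5

/-! Special pencils of abelian type: both implications. -/

set_option autoImplicit false

namespace Pool.Agent.AbPencil

open Pool.Agent.Campana Pool.Agent.CampanaFlow Pool.Agent.AbFib

/-- Special pencils of abelian type have a Zariski dense entire curve; the converse holds if no 1-form of the
abelian torsor lifts. -/
theorem equiv_tw {m r N : ℕ} (P : Ideal (MvPolynomial (Fin (m + 1)) ℂ)) [P.IsPrime]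
    (hP : IsVariety P) (t : Fin 2 → FunField P) (ht : IsBase t)
    (δ : Fin r → FunField P) (hδ : ∀ i, δ i ≠ 0) (n : Fin r → ℕ) (hn : ∀ i, 1 ≤ n i)
    (x : Fin (N + 1) → KW (FunField P) r) (h : IsAbelianFibration (twist t δ n) x) :
    (SpecialField (FunField P) → BrodySpecial P) ∧
    (NoLift (twist t δ n) → BrodySpecial P → SpecialField (FunField P)) := by
  refine ⟨main_tw P hP t ht δ hδ n hn x h, fun hno hB => ?_⟩
  refine special_of_bound P t ht δ hδ n hn x h
    (closedIn_descend t δ hδ n hn (closedIn_of_abelian _ x h)) hno ?_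
  intro T hT μ h1 h2
  exact sum_le_two_of_brody P hP hB T hT μ h1 h2

/-- Special pencils of abelian type have a Zariski dense entire curve; the converse holds if no 1-form of some
abelian cover lifts. -/
theorem equiv_type {m : ℕ} (P : Ideal (MvPolynomial (Fin (m + 1)) ℂ)) [P.IsPrime] (hP : IsVariety P)
    (t : Fin 2 → FunField P) (ht : IsBase t) (h : IsAbelianType t) :
    (SpecialField (FunField P) → BrodySpecial P) ∧
    (IsAbelianTypeNoLift t → BrodySpecial P → SpecialField (FunField P)) := by
  constructor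
  · obtain ⟨r, N, δ, n, x, hδ, hn, hx⟩ := h
    exact (equiv_tw P hP t ht δ hδ n hn x hx).1
  · rintro ⟨r, N, δ, n, x, hδ, hn, hx, hno⟩
    exact (equiv_tw P hP t ht δ hδ n hn x hx).2 hno

end Pool.Agent.AbPencil
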