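import Pool.Agent.Lib_MP_1209e6_sl.Defs

/-! PIECE M0: the field of a curve has transcendence degree one. -/

set_option autoImplicit false

namespace Pool.Agent.AbPencil

/-- Every element of `ℂ(t)` is algebraic over `ℂ(t 0)`. -/
private theorem isAlgebraic_of_mem {K : Type} [Field K] [Algebra ℂ K] {n : ℕ} (t : Fin (n + 1) → K)
    (ht : ∀ i, IsAlgebraic (FT fun _ : Fin 1 => t 0) (t i)) (x : K) (hx : x ∈ FT t) :
    IsAlgebraic (FT fun _ : Fin 1 => t 0) x := by
  let L : IntermediateField ℂ K :=
    (algebraicClosure (FT fun _ : Fin 1 => t 0) K).restrictScalars ℂ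
  have h : FT t ≤ L := by
    rw [IntermediateField.adjoin_le_iff]
    rintro _ ⟨i, rfl⟩
    exact mem_algebraicClosure_iff.mpr (ht i)
  exact mem_algebraicClosure_iff.mp (h hx)

/-- The field `ℂ(t)` has transcendence degree at most one if all `t i` are algebraic over `ℂ(t 0)`. Proof. All elements
of `ℂ(t)` are algebraic over `ℂ(t 0)`. If `![a, b]` is algebraically independent then exchange: `t 0` is algebraic over `ℂ(a)`
(a transcendence degree argument: `Algebra.trdeg`, or `AlgebraicIndependent` exchange lemmas / matroid rank), so `b` is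
algebraic over `ℂ(a)`, a contradiction. -/
theorem sl_trdeg {K : Type} [Field K] [Algebra ℂ K] {n : ℕ} (t : Fin (n + 1) → K)
    (ht : ∀ i, IsAlgebraic (FT fun _ : Fin 1 => t 0) (t i)) :
    ∀ a ∈ FT t, ∀ b ∈ FT t, ¬ AlgebraicIndependent ℂ ![a, b] := by
  intro a ha b hb hab
  let M := AlgebraicIndependent.matroid ℂ K
  have hcl : ∀ x ∈ FT t, x ∈ M.closure (Set.range fun _ : Fin 1 => t 0) := by
    intro x hx
    have h1 := isAlgebraic_of_mem t ht x hx
    have h2 : IsAlgebraic (Algebra.adjoin ℂ (Set.range fun _ : Fin 1 => t 0)) x :=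
      IntermediateField.isAlgebraic_adjoin_iff.mp h1
    show x ∈ (AlgebraicIndependent.matroid ℂ K).closure _
    rw [AlgebraicIndependent.matroid_closure_eq]
    exact h2
  have hind : M.Indep (Set.range ![a, b]) := hab.to_subtype_range
  have hinj : Function.Injective ![a, b] := hab.injective
  have hcard : (Set.range ![a, b]).encard = 2 := by
    rw [← Set.image_univ, hinj.encard_image]
    simp
  have hsub : Set.range ![a, b] ⊆ M.closure (Set.range fun _ : Fin 1 => t 0) := by
    rintro _ ⟨i, rfl⟩
    fin_cases i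
    · exact hcl a ha
    · exact hcl b hb
  have h1 : (Set.range ![a, b]).encard ≤ M.eRk (M.closure (Set.range fun _ : Fin 1 => t 0)) :=
    hind.encard_le_eRk_of_subset hsub
  rw [M.eRk_closure_eq] at h1
  have h2 := M.eRk_le_encard (Set.range fun _ : Fin 1 => t 0)
  have h3 : (Set.range fun _ : Fin 1 => t 0).encard ≤ 1 := by
    rw [Set.range_const]
    simp
  rw [hcard] at h1
  exact absurd (h1.trans (h2.trans h3)) (by decide)

end Pool.Agent.AbPencil
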