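import Pool.Agent.Lib_MP_1209e6_sl.M0
import Pool.Agent.Lib_MP_1209e6_sl.Q1a
import Pool.Agent.Lib_MP_1209e6_sl.Q1b
import Pool.Agent.Lib_MP_1209e6_sl.Q2
import Pool.Agent.Lib_MP_1209e6_sl.Q3

/-! PIECE Main: pencils over the line. -/

set_option autoImplicit false

namespace Pool.Agent.AbPencil

open Pool.Agent.Campana Pool.Agent.CampanaFlow Pool.Agent.AbFib

private theorem Main_add {K : Type} [Field K] [Algebra ℂ K] (ω : Form K 1) (A B : Derivation ℂ K K) :
    ω (fun _ => A + B) = ω (fun _ => A) + ω (fun _ => B) := by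
  have h := ω.map_update_add (fun _ => A) 0 A B
  have e : ∀ C : Derivation ℂ K K, Function.update (fun _ : Fin 1 => A) 0 C = fun _ => C := by
    intro C
    funext i
    rw [Subsingleton.elim i 0, Function.update_self]
  rw [e, e, e] at h
  exact h

private theorem Main_smul {K : Type} [Field K] [Algebra ℂ K] (ω : Form K 1) (c : K)
    (A : Derivation ℂ K K) : ω (fun _ => c • A) = c * ω (fun _ => A) := by
  have h := ω.map_update_smul (fun _ => A) 0 c A
  have e : ∀ C : Derivation ℂ K K, Function.update (fun _ : Fin 1 => A) 0 C = fun _ => C := by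
    intro C
    funext i
    rw [Subsingleton.elim i 0, Function.update_self]
  rw [e, e] at h
  exact h

/-- the order of a quotient -/
private theorem Main_ord_div {K : Type} [Field K] {O : ValuationSubring K} {v : K → ℤ}
    (hv : IsOrd O v) {a b : K} (ha : a ≠ 0) (hb : b ≠ 0) : v (a / b) = v a - v b := by
  have h := hv.1 (a / b) b (div_ne_zero ha hb) hb
  rw [div_mul_cancel₀ a hb] at h
  omega

private theorem Main_aeval_ne {K : Type} [Field K] [Algebra ℂ K] {T : K} (hT : Transcendental ℂ T)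
    {A : Polynomial ℂ} (hA : A ≠ 0) : Polynomial.aeval T A ≠ 0 := by
  intro h
  exact hT ⟨A, hA, h⟩

/-- Proof. `sl_reduce` (`sl_trdeg`). Choose `E` with `E T = 1` (`T` transcendental), it preserves `ℂ(T)`;
`a = ω(E)`, `ω(D) = a D T` for all `D` (`D - (D T) E` vanishes on `T`), `a ≠ 0` as `ω ≠ 0`. `G i = F i a^m ∈ ℂ(T)`
(`sl_mem_base`), `G i = A i (T) / B i (T)`. For each `b` take a place with multiplicity `infMult T b` (`infMult_spec`) and
apply `sl_bound_fin`, `sl_bound_inf`; with `sl_ord_fin`, `sl_ord_inf` these are the assumptions of `sl_count`, for `i = 0` and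
`i = 1`. Then `sl_const`: `G 1 / G 0 = F 1 / F 0` is constant, a contradiction. -/
theorem special_of_baseSpecial {m N : ℕ} (P : Ideal (MvPolynomial (Fin (m + 1)) ℂ)) [P.IsPrime]
    (T : FunField P) (hT : Transcendental ℂ T) (x : Fin (N + 1) → FunField P)
    (h : IsAbelianFibration (fun _ : Fin 1 => T) x) (hcl : ClosedIn (fun _ : Fin 1 => T))
    (hno : NoVerticalForm (fun _ : Fin 1 => T)) (hb : BaseSpecial T) : SpecialField (FunField P) := by
  classical
  by_contra hs
  obtain ⟨T₀, hT₀⟩ := funField_fg P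
  have hAH := sl_homogeneous (fun _ : Fin 1 => T) x h
  have hTmem : T ∈ FT (fun _ : Fin 1 => T) := IntermediateField.subset_adjoin _ _ ⟨0, rfl⟩
  have hdeg := sl_trdeg (n := 0) (fun _ : Fin 1 => T) (fun i =>
    isAlgebraic_algebraMap (⟨T, hTmem⟩ : FT (fun _ : Fin 1 => T)))
  obtain ⟨ω, r, F, hr, hω0, hF, htr, hreg, hvert⟩ :=
    sl_reduce ⟨T₀, hT₀⟩ (fun _ : Fin 1 => T) x hAH hcl hno hdeg hs
  -- a derivation with `E T = 1`
  have hind : AlgebraicIndependent ℂ (fun _ : Fin 1 => T) := by
    rw [algebraicIndependent_unique_type_iff]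
    exact hT
  obtain ⟨E, hE⟩ := exists_derivation (fun _ : Fin 1 => T) hind fun _ => 1
  have hET : E T = 1 := hE 0
  have hEk : ∀ z ∈ FT (fun _ : Fin 1 => T), E z ∈ FT (fun _ : Fin 1 => T) := by
    intro z hz
    refine RatPlace.der_adjoin E _ ?_ z hz
    rintro _ ⟨i, rfl⟩
    show E T ∈ _
    rw [hET]
    exact one_mem _
  set a : FunField P := ω fun _ => E with ha
  have hω : ∀ D : Derivation ℂ (FunField P) (FunField P), ω (fun _ => D) = a * D T := by
    intro D
    have h1 := hvert (D + (-(D T)) • E) (fun i => by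
      show D T + (-(D T)) * E T = 0
      rw [hET]
      ring)
    rw [Main_add, Main_smul] at h1
    rw [ha]
    linear_combination h1
  have ha0 : a ≠ 0 := by
    intro h0
    apply hω0
    ext D
    have h1 : D = fun _ => D 0 := by
      funext i
      rw [Subsingleton.elim i 0]
    rw [h1, hω, h0]
    simp
  -- the sections come from the base
  have hG : ∀ i, F i * a ^ r ∈ FT (fun _ : Fin 1 => T) := by
    intro i
    refine sl_mem_base ⟨T₀, hT₀⟩ (FT (fun _ : Fin 1 => T)) hcl x hAH ω r (F i)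
      (fun O hO => hreg O hO i) E hEk (Or.inr ?_)
    intro D hD
    exact hvert D fun i => hD T hTmem
  have hG0 : ∀ i, F i * a ^ r ≠ 0 := fun i => mul_ne_zero (hF i) (pow_ne_zero _ ha0)
  have hAB : ∀ i, ∃ A B : Polynomial ℂ, A ≠ 0 ∧ B ≠ 0 ∧
      F i * a ^ r = Polynomial.aeval T A / Polynomial.aeval T B := by
    intro i
    have h1 := hG i
    have h2 : Set.range (fun _ : Fin 1 => T) = {T} := Set.range_const
    unfold FT at h1
    rw [h2] at h1
    obtain ⟨A, B, h3⟩ := IntermediateField.mem_adjoin_simple_iff ℂ _ |>.1 h1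
    refine ⟨A, B, ?_, ?_, h3⟩
    · rintro rfl
      apply hG0 i
      rw [h3]
      simp
    · rintro rfl
      apply hG0 i
      rw [h3]
      simp
  choose A B hA hB hq using hAB
  have hA' : ∀ i, Polynomial.aeval T (A i) ≠ 0 := fun i => Main_aeval_ne hT (hA i)
  have hB' : ∀ i, Polynomial.aeval T (B i) ≠ 0 := fun i => Main_aeval_ne hT (hB i)
  have hμ := one_le_infMult P T hT
  have hfin : ∀ i (c : ℂ), -(r * (infMult T (some c) - 1) : ℤ) ≤
      (((A i).rootMultiplicity c : ℤ) - (B i).rootMultiplicity c) * infMult T (some c) := by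
    intro i c
    obtain ⟨O, v, hO, hv, h1, h2⟩ := infMult_spec P T hT (some c)
    obtain ⟨O', v', hO', hv', h3, h4⟩ := sl_bound_fin T₀ hT₀ T hT ω a ha0 hω r F hF hreg c O hO v hv
      (infMult T (some c)) h1 h2
    have h5 : 1 ≤ v' (T - algebraMap ℂ _ c) := by
      rw [h3]
      exact_mod_cast h1
    have h6 := h4 i
    rw [hq i, Main_ord_div hv' (hA' i) (hB' i), sl_ord_fin O' hO' v' hv' T hT c h5 (A i) (hA i),
      sl_ord_fin O' hO' v' hv' T hT c h5 (B i) (hB i), h3] at h6
    linarith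
  have hinf : ∀ i, (r * (infMult T none + 1) : ℤ) ≤
      (((B i).natDegree : ℤ) - (A i).natDegree) * infMult T none := by
    intro i
    obtain ⟨O, v, hO, hv, h1, h2⟩ := infMult_spec P T hT none
    obtain ⟨O', v', hO', hv', h3, h4⟩ := sl_bound_inf T₀ hT₀ T hT ω a ha0 hω r F hF hreg O hO v hv
      (infMult T none) h1 h2
    have h5 : 1 ≤ v' T⁻¹ := by
      rw [h3]
      exact_mod_cast h1
    have h6 := h4 i
    rw [hq i, Main_ord_div hv' (hA' i) (hB' i), sl_ord_inf O' hO' v' hv' T hT h5 (A i) (hA i),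
      sl_ord_inf O' hO' v' hv' T hT h5 (B i) (hB i), h3] at h6
    linarith
  have hcount : ∀ i (c : ℂ), (((A i).rootMultiplicity c : ℤ) - (B i).rootMultiplicity c) *
      infMult T (some c) = -(r * (infMult T (some c) - 1)) := fun i =>
    sl_count (infMult T) hμ hb r (A i) (B i) (hA i) (hB i) (hfin i) (hinf i)
  obtain ⟨c, hc⟩ := sl_const T hT (A 0) (B 0) (A 1) (B 1) (hA 0) (hB 0) (hA 1) (hB 1) (by
    intro c
    have h1 := hcount 0 c
    have h2 := hcount 1 c
    have h3 : (infMult T (some c) : ℤ) ≠ 0 := by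
      have := hμ (some c)
      omega
    exact mul_right_cancel₀ h3 (h1.trans h2.symm))
  apply htr
  have h1 : F 1 / F 0 = algebraMap ℂ _ c := by
    rw [← hc, ← hq 0, ← hq 1]
    have := pow_ne_zero r ha0
    have := hF 0
    field_simp
  rw [h1]
  exact isAlgebraic_algebraMap c

end Pool.Agent.AbPencil
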