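import Pool.Agent.Lib_MP_1209e6_sl.Defs
import Pool.Agent.Lib_MP_1209e6_sp.S

/-! PIECE R1: specialisation of a place with normalised uniformiser. -/

set_option autoImplicit false

namespace Pool.Agent.AbPencil

open Pool.Agent.Campana Polynomial

private theorem R1_factor {H₀ : ℂ[X]} (h0 : X ∣ H₀) (h1 : ¬ X ^ 2 ∣ H₀) :
    ∃ U : ℂ[X], H₀ = X * U ∧ U.coeff 0 ≠ 0 := by
  obtain ⟨U, hU⟩ := h0
  refine ⟨U, hU, fun h => h1 ?_⟩
  obtain ⟨W, hW⟩ := X_dvd_iff.2 h
  exact ⟨W, by rw [hU, hW]; ring⟩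

/-- `H₀` of order exactly one generates: every polynomial is a polynomial in `H₀` modulo `X^n`. Proof: induction
on `n`. -/
theorem sl_exists_comp (H₀ : ℂ[X]) (h0 : X ∣ H₀) (h1 : ¬ X ^ 2 ∣ H₀) (F : ℂ[X]) (n : ℕ) :
    ∃ P : ℂ[X], X ^ n ∣ F - P.comp H₀ := by
  obtain ⟨U, hU, hU0⟩ := R1_factor h0 h1
  induction n with
  | zero => exact ⟨0, by rw [pow_zero]; exact one_dvd _⟩
  | succ n ih =>
    obtain ⟨P, R, hR⟩ := ih
    obtain ⟨u, hu⟩ : ∃ u, u = U.coeff 0 := ⟨_, rfl⟩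
    rw [← hu] at hU0
    refine ⟨P + C (R.coeff 0 / u ^ n) * X ^ n, ?_⟩
    have h2 : X ∣ R - C (R.coeff 0 / u ^ n) * U ^ n := by
      rw [X_dvd_iff, coeff_sub, coeff_C_mul, coeff_zero_eq_eval_zero (U ^ n), eval_pow,
        ← coeff_zero_eq_eval_zero, ← hu, div_mul_cancel₀ _ (pow_ne_zero n hU0), sub_self]
    obtain ⟨W, hW⟩ := h2
    refine ⟨W, ?_⟩
    have h3 : (P + C (R.coeff 0 / u ^ n) * X ^ n).comp H₀ =
        P.comp H₀ + C (R.coeff 0 / u ^ n) * H₀ ^ n := by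
      simp only [add_comp, mul_comp, C_comp, pow_comp, X_comp]
    rw [h3]
    calc F - (P.comp H₀ + C (R.coeff 0 / u ^ n) * H₀ ^ n) =
          (F - P.comp H₀) - C (R.coeff 0 / u ^ n) * H₀ ^ n := by ring
      _ = X ^ n * R - C (R.coeff 0 / u ^ n) * (X * U) ^ n := by rw [hR, hU]
      _ = X ^ n * (R - C (R.coeff 0 / u ^ n) * U ^ n) := by ring
      _ = X ^ (n + 1) * W := by rw [hW]; ring

private theorem R1_comp_dvd {H₀ : ℂ[X]} (h0 : X ∣ H₀) (h1 : ¬ X ^ 2 ∣ H₀) (F : ℂ[X]) (s : ℕ) :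
    X ^ s ∣ F.comp H₀ ↔ X ^ s ∣ F := by
  obtain ⟨U, hU, hU0⟩ := R1_factor h0 h1
  constructor
  · induction s with
    | zero => intro _; rw [pow_zero]; exact one_dvd _
    | succ s ih =>
      intro h
      obtain ⟨G, hG⟩ := ih ((pow_dvd_pow X (Nat.le_succ s)).trans h)
      have h2 : F.comp H₀ = X ^ s * (U ^ s * G.comp H₀) := by
        rw [hG, mul_comp, pow_comp, X_comp, hU]
        ring
      rw [h2, pow_succ] at h
      have h3 : X ∣ U ^ s * G.comp H₀ :=
        (mul_dvd_mul_iff_left (pow_ne_zero s (X_ne_zero (R := ℂ)))).1 h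
      have h4 : X ∣ G.comp H₀ := by
        rcases (prime_X (R := ℂ)).dvd_or_dvd h3 with h5 | h5
        · exact absurd (X_dvd_iff.1 ((prime_X (R := ℂ)).dvd_of_dvd_pow h5)) hU0
        · exact h5
      have h5 : X ∣ G := by
        rw [X_dvd_iff, coeff_zero_eq_eval_zero, eval_comp] at h4
        have h6 : H₀.eval 0 = 0 := by rw [hU]; simp
        rw [h6] at h4
        rw [X_dvd_iff, coeff_zero_eq_eval_zero]
        exact h4
      obtain ⟨W, hW⟩ := h5
      exact ⟨W, by rw [hG, hW]; ring⟩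
  · rintro ⟨G, hG⟩
    rw [hG, mul_comp, pow_comp, X_comp, hU]
    exact ⟨U ^ s * G.comp (X * U), by ring⟩

private theorem R1_aeval_dvd {σ : Type} (H H' : σ → ℂ[X]) (h : ℂ[X]) (N : ℕ)
    (hH : ∀ i, X ^ N ∣ H' i - (H i).comp h) (q : MvPolynomial σ ℂ) :
    X ^ N ∣ MvPolynomial.aeval H' q - (MvPolynomial.aeval H q).comp h := by
  have h1 : (MvPolynomial.aeval H q).comp h = MvPolynomial.aeval (fun i => (H i).comp h) q := by
    have h2 := MvPolynomial.comp_aeval_apply (f := H) (Polynomial.aeval h) q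
    exact h2
  rw [h1]
  obtain ⟨I, hI⟩ : ∃ I : Ideal ℂ[X], I = Ideal.span {X ^ N} := ⟨_, rfl⟩
  rw [← Ideal.mem_span_singleton, ← hI, ← Ideal.Quotient.eq_zero_iff_mem, map_sub, sub_eq_zero]
  have h3 : (Ideal.Quotient.mkₐ ℂ I).comp (MvPolynomial.aeval H') =
      (Ideal.Quotient.mkₐ ℂ I).comp (MvPolynomial.aeval (fun i => (H i).comp h)) := by
    apply MvPolynomial.algHom_ext
    intro i
    simp only [AlgHom.comp_apply, MvPolynomial.aeval_X]
    rw [← sub_eq_zero, ← map_sub]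
    apply Ideal.Quotient.eq_zero_iff_mem.2
    rw [hI]
    exact Ideal.mem_span_singleton.2 (hH i)
  exact DFunLike.congr_fun h3 q

/-- As `exists_spec` (sp/S.lean), with `H i₀ = X` for an element `g i₀` of order one. Proof. `exists_spec` with
`X i₀` added to `Q`: `H'`, and `H' i₀` has order exactly one. `H i` with `H i (H' i₀) = H' i` modulo `X^(L+1)`
(`sl_exists_comp`), `H i₀ = X`. Then `(aeval H q).comp (H' i₀) = aeval H' q` modulo `X^(L+1)` for each polynomial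
`q`, and the order of `F.comp (H' i₀)` is the order of `F`. For `s ≤ L + 1` all properties follow; for
`s > L + 1` (second property) both sides are false, as `v (q(g)) ≤ L`. -/
theorem sl_exists_spec {K : Type} [Field K] [Algebra ℂ K] (O : ValuationSubring K) (hO : IsPlace O)
    (v : K → ℤ) (hv : IsOrd O v) (L : ℕ) (hL : 1 ≤ L) {σ : Type} [Finite σ] (g : σ → K)
    (hg : ∀ i, g i ∈ O) (i₀ : σ) (h₀ : g i₀ ≠ 0) (h1 : v (g i₀) = 1) (Q : Finset (MvPolynomial σ ℂ))
    (hQ : ∀ q ∈ Q, MvPolynomial.aeval g q ≠ 0 ∧ v (MvPolynomial.aeval g q) ≤ L) :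
    ∃ H : σ → ℂ[X], H i₀ = X ∧
      (∀ (q : MvPolynomial σ ℂ) (s : ℕ), s ≤ L + 1 →
        (MvPolynomial.aeval g q = 0 ∨ (s : ℤ) ≤ v (MvPolynomial.aeval g q)) →
        X ^ s ∣ MvPolynomial.aeval H q) ∧
      ∀ q ∈ Q, ∀ s : ℕ, X ^ s ∣ MvPolynomial.aeval H q ↔ (s : ℤ) ≤ v (MvPolynomial.aeval g q) := by
  classical
  obtain ⟨H', hA, hB⟩ := exists_spec O hO v hv L g hg (insert (MvPolynomial.X i₀) Q) (by
    intro q hq
    rcases Finset.mem_insert.1 hq with rfl | hq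
    · rw [MvPolynomial.aeval_X]
      exact ⟨h₀, by rw [h1]; exact_mod_cast hL⟩
    · exact hQ q hq)
  have hX := hB (MvPolynomial.X i₀) (Finset.mem_insert_self _ _)
  simp only [MvPolynomial.aeval_X] at hX
  rw [h1] at hX
  obtain ⟨h, hh⟩ : ∃ h, h = H' i₀ := ⟨_, rfl⟩
  rw [← hh] at hX
  have e0 : X ∣ h := by
    have := (hX 1).2 (by norm_num)
    rwa [pow_one] at this
  have e1 : ¬ X ^ 2 ∣ h := by
    intro h2
    have := (hX 2).1 h2
    norm_num at this
  choose P hP using fun i => sl_exists_comp h e0 e1 (H' i) (L + 1)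
  obtain ⟨H, hHdef⟩ : ∃ H : σ → ℂ[X], H = fun i => if i = i₀ then X else P i := ⟨_, rfl⟩
  have hH0 : H i₀ = X := by rw [hHdef]; simp
  have hH : ∀ i, X ^ (L + 1) ∣ H' i - (H i).comp h := by
    intro i
    by_cases hi : i = i₀
    · rw [hi, hH0, X_comp, hh, sub_self]
      exact dvd_zero _
    · have : H i = P i := by rw [hHdef]; simp [hi]
      rw [this]
      exact hP i
  have key : ∀ (q : MvPolynomial σ ℂ) (s : ℕ), s ≤ L + 1 →
      (X ^ s ∣ MvPolynomial.aeval H q ↔ X ^ s ∣ MvPolynomial.aeval H' q) := by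
    intro q s hs
    rw [← R1_comp_dvd e0 e1]
    have h2 : X ^ s ∣ MvPolynomial.aeval H' q - (MvPolynomial.aeval H q).comp h :=
      (pow_dvd_pow X hs).trans (R1_aeval_dvd H H' h (L + 1) hH q)
    constructor
    · intro h3
      have := dvd_add h2 h3
      rwa [sub_add_cancel] at this
    · intro h3
      exact (dvd_sub_right h3).1 h2
  refine ⟨H, hH0, fun q s hs hq => (key q s hs).2 (hA q s hs hq), fun q hq s => ?_⟩
  have hB' := hB q (Finset.mem_insert_of_mem hq)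
  rcases le_or_gt s (L + 1) with hs | hs
  · rw [key q s hs]
    exact hB' s
  · constructor
    · intro h2
      have h3 := (hB' (L + 1)).1 ((key q (L + 1) le_rfl).1 ((pow_dvd_pow X hs.le).trans h2))
      have h4 := (hQ q hq).2
      push_cast at h3
      omega
    · intro h2
      have h4 := (hQ q hq).2
      omega

end Pool.Agent.AbPencil
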