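import Mathlib

/-! R3: the derivation `d/dX` of Laurent series. -/

set_option autoImplicit false

namespace Pool.Agent.AbPencil

open HahnSeries

private noncomputable def R3_D (κ : Type) [Field κ] : LaurentSeries κ →ₗ[κ] LaurentSeries κ :=
  LaurentSeries.derivative κ

private theorem R3_coeff {κ : Type} [Field κ] (f : LaurentSeries κ) (n : ℤ) :
    (R3_D κ f).coeff n = ((n : κ) + 1) * f.coeff (n + 1) := by
  rw [R3_D, LaurentSeries.derivative_apply, LaurentSeries.hasseDeriv_coeff]
  simp only [Nat.cast_one, Ring.choose_one_right, zsmul_eq_mul]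
  push_cast
  rfl

private theorem R3_coe {κ : Type} [Field κ] (F : PowerSeries κ) :
    R3_D κ (F : LaurentSeries κ) = ((PowerSeries.derivative κ F : PowerSeries κ) : LaurentSeries κ) := by
  ext n
  rw [R3_coeff, PowerSeries.coeff_coe, PowerSeries.coeff_coe, PowerSeries.coeff_derivative]
  by_cases h : n < 0
  · rw [if_pos h]
    by_cases h1 : n + 1 < 0
    · rw [if_pos h1, mul_zero]
    · have h2 : n = -1 := by omega
      rw [h2]
      simp
  · rw [if_neg h, if_neg (by omega)]
    obtain ⟨m, rfl⟩ := Int.eq_ofNat_of_zero_le (not_lt.1 h)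
    have h1 : ((m : ℤ) + 1).natAbs = m + 1 := by omega
    have h2 : (m : ℤ).natAbs = m := by omega
    rw [h1, h2]
    push_cast
    ring

private theorem R3_mono {κ : Type} [Field κ] (a : ℤ) (g : LaurentSeries κ) :
    R3_D κ (single a (1 : κ) * g) = single (a - 1) (a : κ) * g + single a (1 : κ) * R3_D κ g := by
  ext n
  rw [R3_coeff, HahnSeries.coeff_add, HahnSeries.coeff_single_mul, HahnSeries.coeff_single_mul,
    HahnSeries.coeff_single_mul, R3_coeff]
  have h1 : n - (a - 1) = n + 1 - a := by ring
  have h2 : n - a + 1 = n + 1 - a := by ring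
  rw [h1, h2]
  push_cast
  ring

private theorem R3_leib {κ : Type} [Field κ] (f g : LaurentSeries κ) :
    R3_D κ (f * g) = f • R3_D κ g + g • R3_D κ f := by
  have hf := f.single_order_mul_powerSeriesPart
  have hg := g.single_order_mul_powerSeriesPart
  set a := f.order
  set b := g.order
  set F := f.powerSeriesPart
  set G := g.powerSeriesPart
  have h1 : f * g = single (a + b) (1 : κ) * ((F * G : PowerSeries κ) : LaurentSeries κ) := by
    rw [← hf, ← hg, map_mul, ← one_mul (1 : κ), ← single_mul_single]
    simp only [one_mul]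
    ring
  have h2 : R3_D κ f = single (a - 1) (a : κ) * (F : LaurentSeries κ) + single a (1 : κ) *
      ((PowerSeries.derivative κ F : PowerSeries κ) : LaurentSeries κ) := by
    rw [← R3_coe, ← R3_mono, hf]
  have h3 : R3_D κ g = single (b - 1) (b : κ) * (G : LaurentSeries κ) + single b (1 : κ) *
      ((PowerSeries.derivative κ G : PowerSeries κ) : LaurentSeries κ) := by
    rw [← R3_coe, ← R3_mono, hg]
  have e1 : (single (a + b - 1) ((a + b : ℤ) : κ) : LaurentSeries κ) =
      single (a - 1) (a : κ) * single b (1 : κ) + single a (1 : κ) * single (b - 1) (b : κ) := by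
    rw [single_mul_single, single_mul_single, show a - 1 + b = a + b - 1 by ring,
      show a + (b - 1) = a + b - 1 by ring, ← single_add]
    congr 1
    push_cast
    ring
  have e2 : (single (a + b) (1 : κ) : LaurentSeries κ) = single a (1 : κ) * single b (1 : κ) := by
    rw [single_mul_single, one_mul]
  rw [h1, R3_mono, R3_coe, h2, h3, smul_eq_mul, smul_eq_mul, e1, e2, Derivation.leibniz,
    smul_eq_mul, smul_eq_mul, map_mul, map_add, map_mul, map_mul]
  conv_rhs => rw [← hf, ← hg]
  ring

private theorem R3_smul {κ : Type} [Field κ] (c : κ) (f : LaurentSeries κ) :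
    R3_D κ (Algebra.toModule.toSMul.smul c f) = c • R3_D κ f := by
  have h : (Algebra.toModule.toSMul.smul c f : LaurentSeries κ) =
      algebraMap κ (LaurentSeries κ) c * f := rfl
  have h1 : algebraMap κ (LaurentSeries κ) c = HahnSeries.C c := by
    rw [HahnSeries.algebraMap_apply']
    simp
  rw [h, h1]
  ext n
  rw [R3_coeff, HahnSeries.coeff_smul, R3_coeff, HahnSeries.C_apply,
    HahnSeries.coeff_single_zero_mul, smul_eq_mul]
  ring

/-- The derivation `d/dX` on Laurent series in characteristic zero. It maps power series to power series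
and lowers positive orders by exactly one. -/
theorem sl_laurent (κ : Type) [Field κ] [CharZero κ] :
    ∃ δ : Derivation κ (LaurentSeries κ) (LaurentSeries κ),
      δ (HahnSeries.single (1 : ℤ) (1 : κ)) = 1 ∧
      (∀ F : PowerSeries κ, δ (F : LaurentSeries κ) = ((PowerSeries.derivative κ F : PowerSeries κ) : LaurentSeries κ)) ∧
      ∀ f : LaurentSeries κ, f ≠ 0 → 1 ≤ f.order → δ f ≠ 0 ∧ (δ f).order = f.order - 1 := by
  refine ⟨Derivation.mk' (@LinearMap.mk κ κ _ _ (RingHom.id κ) (LaurentSeries κ) (LaurentSeries κ)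
    _ _ Algebra.toModule _ ⟨fun f => R3_D κ f, fun f g => map_add (R3_D κ) f g⟩ R3_smul) R3_leib, ?_, ?_, ?_⟩
  · have h := R3_mono (κ := κ) 1 1
    have h1 : R3_D κ (1 : LaurentSeries κ) = 0 := by
      have h2 := R3_coe (κ := κ) 1
      simpa using h2
    rw [mul_one, mul_one, h1, mul_zero, add_zero] at h
    show R3_D κ (single (1 : ℤ) (1 : κ)) = 1
    rw [h]
    simp
  · intro F
    exact R3_coe F
  · intro f hf ho
    show R3_D κ f ≠ 0 ∧ (R3_D κ f).order = f.order - 1
    have h1 : (R3_D κ f).coeff (f.order - 1) ≠ 0 := by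
      rw [R3_coeff, show f.order - 1 + 1 = f.order by ring]
      refine mul_ne_zero ?_ (mt coeff_order_eq_zero.1 hf)
      have h2 : (((f.order : ℤ)) : κ) ≠ 0 := by
        exact_mod_cast (show f.order ≠ 0 by omega)
      push_cast
      simpa using h2
    have h0 : R3_D κ f ≠ 0 := by
      intro h
      rw [h] at h1
      exact h1 rfl
    refine ⟨h0, le_antisymm (order_le_of_coeff_ne_zero h1) ?_⟩
    by_contra hlt
    have h3 := mt coeff_order_eq_zero.1 h0
    rw [R3_coeff] at h3
    apply h3
    rw [coeff_eq_zero_of_lt_order (by omega), mul_zero]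

end Pool.Agent.AbPencil
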