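import Pool.Agent.Lib_MP_1209e6_sl.Equiv

/-!
# Campana's conjecture for pencils of abelian type: special and Zariski dense entire curves

Let `X` be a complex projective variety with function field `K` and a rational fibration `X ⇢ B` over a curve
`B` of genus at most one: the line with coordinate `t_0` (`t_1 = 0`) or a smooth plane cubic
`t_1² = t_0³ + a t_0² + b t_0 + c`. Let `V` over `ℂ(B)` be its generic fibre. Suppose that `V` is the quotient of an
abelian torsor by a finite abelian group in the following sense: for some `δ_i ∈ K^*`, `n_i ≥ 1` (`1 ≤ i ≤ r`) the
covers `w_i ^ n_i = d_i δ_i` of `V`, with free parameters `d_i` (so over the field `k = ℂ(B)(d_1, …, d_r)`, with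
function field `K(w_1, …, w_r)`, `d_i = w_i ^ n_i / δ_i`) are smooth projective varieties with commuting global
vector fields which span the tangent bundle, and are connected. For `r = 0` this is a torsor under an abelian
variety; Kummer surfaces (`r = 1`, `n_1 = 2`) and bielliptic surfaces are other examples. The singular and multiple
fibres are arbitrary, and no section is assumed.

Theorem: if `X` is special, then `X` has a Zariski dense entire curve. The converse holds if no 1-form of the
cover `A` of `V` lifts (`NoLift`): the restriction `H⁰(A, Ω¹_{A/ℂ}) → H⁰(A, Ω¹_{A/k})` is zero. This holds if the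
Kodaira-Spencer map `H⁰(A, Ω¹_{A/k}) → H¹(A, O) ⊗ Ω¹_{k/ℂ}` is injective, for instance for elliptic fibrations whose
`j`-invariant is not constant. So for these `X` the conjecture (special if and only if there is a Zariski dense
entire curve) is true.

The definitions `IsVariety`, `SpecialField`, `BrodySpecial` are in `Pool.Agent.Lib_MP_1209e6_ag.Defs`, `Chart`,
`GlobalField` in `Pool.Agent.Lib_MP_1209e6_fl.Defs`, `Fibre`, `IsAbelianFibration` in
`Pool.Agent.Lib_MP_1209e6_ab.Defs`, `KW`, `wv`, `twist`, `IsBase`, `IsAbelianType` in
`Pool.Agent.Lib_MP_1209e6_sk.Stmt`, `FT` (the field `ℂ(t)`) in `Pool.Agent.Lib_MP_1209e6_sl.Defs`, `IsDivisor`, `NoLift` in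
`Pool.Agent.Lib_MP_1209e6_sl.T0`, `IsAbelianTypeNoLift` in `Pool.Agent.Lib_MP_1209e6_sl.Stmt`.

Sketch of the proof. For a pencil `T : X ⇢ ℙ¹` let `m_b` be the minimum of the orders of `T - b` at the discrete
valuation rings of `K` over `b`. If `∑ (1 - 1/m_b) > 2` then suitable sections `f dT^M`, `f T dT^M` are regular at
all places, so `X` is not special. So the orbifold `(ℙ¹, m)` is one of the classical ones, and there is a
meromorphic `u : ℂ → ℙ¹` whose multiplicities over `b` are divisible by `m_b` (exponential, polyhedral and
elliptic functions). Over an elliptic curve all `m_b = 1` (apply the bound to the translates of `t_0`).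
A place over `b` (divisorial or not) gives holomorphic arcs in `X` over `b` with the same orders: truncated
expansions, specialisation of the coefficients, Hensel's lemma; general arcs depend on free constants. Let
`D_i` be meromorphic on `ℂ`, algebraically independent over `ℂ(u)`, whose orders are opposite to those of `δ_i` along
the arcs over `u`. Then `D_i δ_i` has an `n_i`-th root along the arcs, so `(u, D)` lifts locally to the
fibration with function field `K(w)`. By the lifting theorem for abelian fibrations (the torsor is
trivialised by the flows of the vector fields, Cousin problem) `(u, D)` lifts to a Zariski dense curve in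
this fibration, which dominates `X`.

Converse. If `X` has a Zariski dense entire curve then `∑ (1 - 1/m_b) ≤ 2` for all pencils `T` (second main theorem with
multiplicities). Let `ω` be a `p`-form of `K` with `p + 1` algebraically independent regular sections `f_i` of a
power of the rank one sheaf `ω`. On the cover `A` the trivialisation of the cotangent bundle by invariant forms
and `NoLift` show that `ω` comes from `k`, then by descent from `B`: `p = 1`, `ω = g dt_0`, and the sections come
from `B`. Then the minimal orders of a suitable pencil of `ℂ(B)` violate the bound.
-/

set_option autoImplicit false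

open Pool.Agent.Campana Pool.Agent.CampanaFlow Pool.Agent.AbFib Pool.Agent.AbPencil

namespace Pool.Agent.Results.MP_1209e6_ag.SpecialAbelianPencil

/-- The function field of the projective variety with homogeneous prime ideal `P`: the field
generated by the quotients `x_i / x_j` in the fraction field of the coordinate ring. -/
noncomputable abbrev functionField {n : ℕ} (P : Ideal (MvPolynomial (Fin (n + 1)) ℂ)) [P.IsPrime] :
    IntermediateField ℂ (FractionRing (MvPolynomial (Fin (n + 1)) ℂ ⧸ P)) :=
  IntermediateField.adjoin ℂ
    (Set.range fun ij : Fin (n + 1) × Fin (n + 1) => coord P ij.1 / coord P ij.2)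

/-- Special pencils of abelian type over the line or an elliptic curve have a Zariski dense entire curve; the
converse holds if no 1-form of the abelian cover lifts. -/
theorem result {m : ℕ} (P : Ideal (MvPolynomial (Fin (m + 1)) ℂ)) [P.IsPrime] (hP : IsVariety P)
    (t : Fin 2 → functionField P) (ht : IsBase t) (h : IsAbelianType t) :
    (SpecialField (functionField P) → BrodySpecial P) ∧
    (IsAbelianTypeNoLift t → BrodySpecial P → SpecialField (functionField P)) :=
  equiv_type P hP t ht h

end Pool.Agent.Results.MP_1209e6_ag.SpecialAbelianPencil
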