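import Pool.Agent.Lib_MP_1209e6_sl.T0

/-!
# Pencils of abelian type without liftable forms: definition for the statement

`MP_1209e6_ag`.
-/

set_option autoImplicit false

namespace Pool.Agent.AbPencil

open Pool.Agent.AbFib

/-- The fibration `t` on the variety with function field `K` is of abelian type, as in `IsAbelianType`, and no 1-form
of the abelian cover lifts: for some `δ_i ∈ K^*` and `n_i ≥ 1` (`1 ≤ i ≤ r`) the functions `t` and
`d_i = w_i ^ n_i / δ_i` on `K(w_1, …, w_r)` define an abelian fibration and satisfy `NoLift`. -/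
def IsAbelianTypeNoLift {K : Type} [Field K] [Algebra ℂ K] {n₀ : ℕ} (t : Fin n₀ → K) : Prop :=
  ∃ (r N : ℕ) (δ : Fin r → K) (n : Fin r → ℕ) (x : Fin (N + 1) → KW K r),
    (∀ i, δ i ≠ 0) ∧ (∀ i, 1 ≤ n i) ∧ IsAbelianFibration (twist t δ n) x ∧ NoLift (twist t δ n)

end Pool.Agent.AbPencil
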