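import Pool.Agent.Lib_MP_1209e6_sl.Defs
import Pool.Agent.Lib_MP_1209e6_sk.Defs
import Pool.Agent.Lib_MP_1209e6_sk.M1

/-!
# Equivalence for pencils of abelian type: definitions (2)

`MP_1209e6_ag`. `IsDivisor` and `NoLift` are used in the statement, the rest only in the proof.
-/

set_option autoImplicit false

namespace Pool.Agent.AbPencil

open Pool.Agent.Campana

/-- `O` is the local ring of a prime divisor on a normal model of `K`: a discrete valuation ring which is a
localisation of a finitely generated `ℂ`-algebra. -/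
def IsDivisor {K : Type} [Field K] [Algebra ℂ K] (O : ValuationSubring K) : Prop :=
  IsPlace O ∧ ∃ S : Finset K, (∀ a ∈ S, a ∈ O) ∧ ∀ z ∈ O, ∃ b ∈ Algebra.adjoin ℂ (S : Set K),
    ∃ s ∈ Algebra.adjoin ℂ (S : Set K), s ≠ 0 ∧ s⁻¹ ∈ O ∧ z = b / s

/-- No regular 1-form of the generic fibre over `ℂ(t)` lifts to a regular 1-form over `ℂ`: each rational 1-form
`ω` of `K` over `ℂ` which is regular at all prime divisors whose local ring contains `ℂ(t)` vanishes on all
derivations which vanish on `t`. -/
def NoLift {K : Type} [Field K] [Algebra ℂ K] {n : ℕ} (t : Fin n → K) : Prop :=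
  ∀ ω : Form K 1,
    (∀ O : ValuationSubring K, IsDivisor O → (∀ a ∈ FT t, a ∈ O) →
      ∀ D : Derivation ℂ K K, (∀ a ∈ O, D a ∈ O) → ω (fun _ => D) ∈ O) →
    ∀ D : Derivation ℂ K K, (∀ i, D (t i) = 0) → ω (fun _ => D) = 0

/-- `y` is a transcendence basis (differential basis) of `K`, with dual derivations `E`. -/
structure DualBasis {K : Type} [Field K] [Algebra ℂ K] {n : ℕ} (y : Fin n → K)
    (E : Fin n → Derivation ℂ K K) : Prop where
  dual : ∀ i j, E i (y j) = if i = j then 1 else 0
  zero : ∀ D : Derivation ℂ K K, (∀ j, D (y j) = 0) → D = 0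

/-- The form `ω'` on `M` is the pull back of the form `ω` on the subfield `K`. -/
def IsPull {K M : Type} [Field K] [Algebra ℂ K] [Field M] [Algebra ℂ M] [Algebra K M] {p : ℕ}
    (ω : Form K p) (ω' : Form M p) : Prop :=
  ∀ (n : ℕ) (y : Fin n → K) (E : Fin n → Derivation ℂ K K), DualBasis y E →
    ∀ D : Fin p → Derivation ℂ M M, ω' D = ∑ J : Fin p → Fin n,
      algebraMap K M (ω fun i => E (J i)) * ∏ i, D i (algebraMap K M (y (J i)))

/-- There are two independent regular sections of a power of the rank one subsheaf generated by a 1-form `ω` which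
comes from the base; with respect to derivations which preserve `ℂ(t)` the sections are functions on the base. -/
def HasBaseSections {K : Type} [Field K] [Algebra ℂ K] {n : ℕ} (t : Fin n → K) : Prop :=
  ∃ (ω : Form K 1) (m : ℕ) (F : Fin 2 → K), 1 ≤ m ∧ ω ≠ 0 ∧ (∀ i, F i ≠ 0) ∧
    Transcendental ℂ (F 1 / F 0) ∧
    (∀ O : ValuationSubring K, IsPlace O → ∀ i, RegularAt O ω m (F i)) ∧
    (∀ D : Derivation ℂ K K, (∀ i, D (t i) = 0) → ω (fun _ => D) = 0) ∧
    ∀ E : Derivation ℂ K K, (∀ z ∈ FT t, E z ∈ FT t) → ∀ i, F i * ω (fun _ => E) ^ m ∈ FT t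

end Pool.Agent.AbPencil
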