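import Pool.Agent.Lib_MP_1209e6_sl.T0
import Pool.Agent.Lib_MP_1209e6_fl.S4b
import Pool.Agent.Lib_MP_1209e6_fl.S6

/-! PIECE T1: good bases at a place for which all derivations have bounded poles. -/

set_option autoImplicit false

namespace Pool.Agent.AbPencil

open Pool.Agent.Campana Pool.Agent.CampanaFlow

/-- A derivation which preserves a subfield `L ⊆ O` over which the residue field is algebraic, maps a
uniformizer into `O` and has bounded poles on `O`, preserves the place. -/
private lemma T1_der_mem {K : Type} [Field K] [Algebra ℂ K] (L : IntermediateField ℂ K)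
    (E : Derivation ℂ K K) (hE : ∀ z ∈ L, E z ∈ L) (O : ValuationSubring K) (hL : ∀ z ∈ L, z ∈ O)
    {t : K} (ht : t ∈ O) (ht' : t⁻¹ ∉ O) (hunif : ∀ z ∈ O, z⁻¹ ∉ O → ∃ s ∈ O, z = t * s)
    (hres : ∀ a ∈ O, ∃ p : Polynomial L, p ≠ 0 ∧ ∃ s ∈ O, Polynomial.aeval a p = t * s)
    (hbound : ∃ N : ℕ, ∀ a ∈ O, t ^ N * E a ∈ O) (hEt : E t ∈ O) :
    ∀ a ∈ O, E a ∈ O := by
  have hdesc : ∀ N : ℕ, (∀ a ∈ O, t ^ N * E a ∈ O) → ∀ a ∈ O, E a ∈ O := by
    intro N
    induction N with
    | zero =>
      intro h1 a ha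
      have := h1 a ha
      rwa [pow_zero, one_mul] at this
    | succ N ih =>
      intro h1
      apply ih
      intro a ha
      obtain ⟨p, ⟨s, hs, hps⟩, hp0, hp⟩ := exists_residue_poly O (fun c : L => hL c c.2) ht'
        hunif ha (hres a ha)
      obtain ⟨q, hq⟩ := der_aeval L E hE a p
      rw [hps, Derivation.leibniz, smul_eq_mul, smul_eq_mul] at hq
      have h2 : t ^ N * E a = (Polynomial.aeval a (Polynomial.derivative p))⁻¹ *
          (t ^ (N + 1) * E s + t ^ N * (s * E t) - t ^ N * Polynomial.aeval a q) := by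
        rw [eq_inv_mul_iff_mul_eq₀ hp0]
        linear_combination (-t ^ N) * hq
      rw [h2]
      exact O.mul_mem _ _ hp (sub_mem (O.add_mem _ _ (h1 s hs)
        (O.mul_mem _ _ (pow_mem ht _) (O.mul_mem _ _ hs hEt)))
        (O.mul_mem _ _ (pow_mem ht _) (aeval_mem O (fun c : L => hL c c.2) ha _)))
  obtain ⟨N, hN⟩ := hbound
  exact hdesc N hN

/-- a family of lifts of a transcendence basis of the residue field -/
private lemma T1_lifts {K : Type} [Field K] [Algebra ℂ K] [FinTrdeg ℂ K] (O : ValuationSubring K)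
    (hO : IsPlace O) {t : K} (ht' : t⁻¹ ∉ O) (hunif : ∀ z ∈ O, z⁻¹ ∉ O → ∃ s ∈ O, z = t * s) :
    ∃ (ι : Type) (_ : Finite ι) (z : ι → K), (∀ i, z i ∈ O) ∧
      AlgebraicIndependent ℂ (fun o : Option ι => o.elim t z) ∧
      (∀ a ∈ IntermediateField.adjoin ℂ (Set.range z), a ∈ O) ∧
      ∀ a ∈ O, ∃ p : Polynomial (IntermediateField.adjoin ℂ (Set.range z)), p ≠ 0 ∧
        ∃ s ∈ O, Polynomial.aeval a p = t * s := by
  let φ : ℂ →+* O :=
    { toFun := fun a => ⟨algebraMap ℂ K a, hO.1 a⟩
      map_one' := Subtype.ext (map_one _)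
      map_mul' := fun a b => Subtype.ext (map_mul _ _ _)
      map_zero' := Subtype.ext (map_zero _)
      map_add' := fun a b => Subtype.ext (map_add _ _ _) }
  let _ : Algebra ℂ O := φ.toAlgebra
  have htower : IsScalarTower ℂ O K := IsScalarTower.of_algebraMap_eq fun x => rfl
  obtain ⟨s, hs⟩ := exists_isTranscendenceBasis ℂ (IsLocalRing.ResidueField O)
  have hsurj : ∀ i : s, ∃ x : O, IsLocalRing.residue O x = i := fun i =>
    IsLocalRing.residue_surjective _
  choose T' hT' using hsurj
  let ρ : O →ₐ[ℂ] IsLocalRing.ResidueField O :=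
    { IsLocalRing.residue O with commutes' := fun r => rfl }
  have hρ : ∀ x, ρ x = IsLocalRing.residue O x := fun x => rfl
  have hindO : AlgebraicIndependent ℂ T' := by
    refine AlgebraicIndependent.of_comp ρ ?_
    convert hs.1 using 1
    ext i
    exact hT' i
  let ν : O →ₐ[ℂ] K := IsScalarTower.toAlgHom ℂ O K
  have hν : ∀ x, ν x = (x : K) := fun x => rfl
  have hindK : AlgebraicIndependent ℂ (fun i => (T' i : K)) :=
    hindO.map' (f := ν) Subtype.val_injective
  -- the polynomials in the lifts
  have hinj : ∀ x ∈ Algebra.adjoin ℂ (Set.range T'), ρ x = 0 → x = 0 := by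
    intro x hx h0
    rw [Algebra.adjoin_range_eq_range_aeval] at hx
    obtain ⟨P, rfl⟩ := hx
    have h1 : MvPolynomial.aeval (fun i : s => (i : IsLocalRing.ResidueField O)) P = 0 := by
      rw [← h0]
      change _ = ρ (MvPolynomial.aeval T' P)
      rw [MvPolynomial.comp_aeval_apply]
      congr 2
      ext i
      exact (hT' i).symm
    have h2 := (algebraicIndependent_iff.1 hs.1) P h1
    rw [h2]
    exact map_zero _
  have himage : ∀ x ∈ Algebra.adjoin ℂ (Set.range fun i => (T' i : K)),
      ∃ x' ∈ Algebra.adjoin ℂ (Set.range T'), (x' : K) = x := by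
    intro x hx
    have h1 : Algebra.adjoin ℂ (Set.range fun i => (T' i : K)) =
        (Algebra.adjoin ℂ (Set.range T')).map ν := by
      rw [AlgHom.map_adjoin, ← Set.range_comp]
      rfl
    rw [h1] at hx
    exact hx
  have hunit : ∀ x ∈ Algebra.adjoin ℂ (Set.range T'), x ≠ 0 → (x : K)⁻¹ ∈ O := fun x hx hx0 =>
    (inv_mem_of_residue_ne_zero O x fun h => hx0 (hinj x hx h)).2
  set L : IntermediateField ℂ K :=
    IntermediateField.adjoin ℂ (Set.range fun i => (T' i : K)) with hLdef
  have hL : ∀ z ∈ L, z ∈ O := by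
    intro z hz
    rw [hLdef, IntermediateField.mem_adjoin_iff_div] at hz
    obtain ⟨r, hr, u, hu, rfl⟩ := hz
    obtain ⟨r', hr', rfl⟩ := himage r hr
    obtain ⟨u', hu', rfl⟩ := himage u hu
    by_cases hu0 : u' = 0
    · rw [hu0]
      simp [O.zero_mem]
    · rw [div_eq_mul_inv]
      exact O.mul_mem _ _ r'.2 (hunit u' hu' hu0)
  have hAL : ∀ x ∈ Algebra.adjoin ℂ (Set.range T'), (x : K) ∈ L := by
    intro x hx
    rw [hLdef]
    apply IntermediateField.algebra_adjoin_le_adjoin
    have h1 : Algebra.adjoin ℂ (Set.range fun i => (T' i : K)) =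
        (Algebra.adjoin ℂ (Set.range T')).map ν := by
      rw [AlgHom.map_adjoin, ← Set.range_comp]
      rfl
    rw [h1]
    exact ⟨x, hx, rfl⟩
  -- the residue field is algebraic over `L`
  have hres : ∀ a ∈ O, ∃ p : Polynomial L, p ≠ 0 ∧ ∃ s ∈ O, Polynomial.aeval a p = t * s := by
    intro a ha
    have halg := hs.isAlgebraic.isAlgebraic (IsLocalRing.residue O ⟨a, ha⟩)
    obtain ⟨P, hP0, hP⟩ := halg
    let ψ : Algebra.adjoin ℂ (Set.range T') →+*
        Algebra.adjoin ℂ (Set.range fun i : s => (i : IsLocalRing.ResidueField O)) :=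
      { toFun := fun x => ⟨ρ x, by
          have h1 : Algebra.adjoin ℂ (Set.range fun i : s => (i : IsLocalRing.ResidueField O)) =
              (Algebra.adjoin ℂ (Set.range T')).map ρ := by
            rw [AlgHom.map_adjoin, ← Set.range_comp]
            congr 2
            ext i
            exact (hT' i).symm
          rw [h1]
          exact ⟨x, x.2, rfl⟩⟩
        map_one' := Subtype.ext (map_one ρ)
        map_mul' := fun a b => Subtype.ext (map_mul ρ _ _)
        map_zero' := Subtype.ext (map_zero ρ)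
        map_add' := fun a b => Subtype.ext (map_add ρ _ _) }
    have hψ : Function.Surjective ψ := by
      rintro ⟨c, hc⟩
      have h1 : Algebra.adjoin ℂ (Set.range fun i : s => (i : IsLocalRing.ResidueField O)) =
          (Algebra.adjoin ℂ (Set.range T')).map ρ := by
        rw [AlgHom.map_adjoin, ← Set.range_comp]
        congr 2
        ext i
        exact (hT' i).symm
      have hc' := hc
      rw [h1] at hc'
      obtain ⟨x, hx, hxc⟩ := hc'
      exact ⟨⟨x, hx⟩, Subtype.ext hxc⟩
    obtain ⟨Q, hQ⟩ := Polynomial.map_surjective ψ hψ P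
    have hQ0 : Q ≠ 0 := by
      rintro rfl
      rw [Polynomial.map_zero] at hQ
      exact hP0 hQ.symm
    let ι' : Algebra.adjoin ℂ (Set.range T') →+* L :=
      { toFun := fun x => ⟨((x : O) : K), hAL x x.2⟩
        map_one' := rfl
        map_mul' := fun a b => rfl
        map_zero' := rfl
        map_add' := fun a b => rfl }
    have hι' : Function.Injective ι' := by
      intro x y hxy
      have := congrArg Subtype.val hxy
      exact Subtype.ext (Subtype.ext this)
    have hval : Polynomial.aeval a (Q.map ι') =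
        ((Polynomial.aeval (⟨a, ha⟩ : O) Q : O) : K) := by
      rw [Polynomial.aeval_def, Polynomial.eval₂_map, Polynomial.aeval_def]
      exact (Polynomial.hom_eval₂ Q (algebraMap _ O) O.subtype ⟨a, ha⟩).symm
    refine ⟨Q.map ι', (Polynomial.map_ne_zero_iff hι').2 hQ0, ?_⟩
    have hres0 : IsLocalRing.residue O (Polynomial.aeval (⟨a, ha⟩ : O) Q) = 0 := by
      rw [← hP, ← hQ, Polynomial.aeval_def, Polynomial.hom_eval₂, Polynomial.aeval_def,
        Polynomial.eval₂_map]
      rfl
    rw [hval]
    by_cases h0 : ((Polynomial.aeval (⟨a, ha⟩ : O) Q : O) : K) = 0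
    · exact ⟨0, O.zero_mem, by rw [h0, mul_zero]⟩
    · exact hunif _ (Subtype.property _) (inv_not_mem_of_residue_eq_zero O _ h0 hres0)
  -- algebraic independence
  have htL : Transcendental L t := transcendental_of_inv_not_mem O (fun c : L => hL c c.2) ht'
  have htA : Transcendental (Algebra.adjoin ℂ (Set.range fun i => (T' i : K))) t := by
    intro h
    apply htL
    have h1 : IsAlgebraic (IntermediateField.adjoin ℂ (Set.range fun i => (T' i : K))) t :=
      IntermediateField.isAlgebraic_adjoin_iff.mpr h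
    exact h1
  have hopt := (hindK.option_iff_transcendental t).2 htA
  have hfin : Finite s := finite_of_algebraicIndependent hindK
  exact ⟨s, hfin, fun i => (T' i : K), fun i => (T' i).2, hopt, hL, hres⟩

/-- Derivations have bounded poles at prime divisors. Proof. `S` as in `IsDivisor`; choose `b ≠ 0` in `O` with `b E a ∈ O` for
`a ∈ S`, so for `a ∈ ℂ[S]` (Leibniz); then `b E(a/s) = s⁻¹ b E a - a s⁻² b E s ∈ O`. -/
theorem sl_bounded {K : Type} [Field K] [Algebra ℂ K] (O : ValuationSubring K) (hO : IsDivisor O)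
    (E : Derivation ℂ K K) : ∃ b : K, b ≠ 0 ∧ ∀ a ∈ O, b * E a ∈ O := by
  obtain ⟨hP, S, hSO, hS⟩ := hO
  obtain ⟨t, ht, ht0, ht', hunif, hN⟩ := exists_uniformizer O hP
  have hbot : ∀ z ∈ (⊥ : IntermediateField ℂ K), ∃ c : ℂ, algebraMap ℂ K c = z := fun z hz =>
    IntermediateField.mem_bot.1 hz
  have hle : Algebra.adjoin ℂ (S : Set K) ≤
      Algebra.adjoin ℂ (((⊥ : IntermediateField ℂ K) : Set K) ∪ S) :=
    Algebra.adjoin_mono Set.subset_union_right
  obtain ⟨N, hN⟩ := exists_bound (⊥ : IntermediateField ℂ K) E (by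
    intro z hz
    obtain ⟨c, rfl⟩ := hbot z hz
    rw [Derivation.map_algebraMap]
    exact zero_mem _) O ht hN S (by
    intro r hr
    induction hr using Algebra.adjoin_induction with
    | mem x hx =>
      rcases hx with hx | hx
      · obtain ⟨c, rfl⟩ := hbot x hx
        exact hP.1 c
      · exact hSO x hx
    | algebraMap c => exact hP.1 c
    | add x y _ _ hx hy => exact O.add_mem _ _ hx hy
    | mul x y _ _ hx hy => exact O.mul_mem _ _ hx hy) (by
    intro z hz
    obtain ⟨b, hb, s, hs, h⟩ := hS z hz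
    exact ⟨b, hle hb, s, hle hs, h⟩)
  exact ⟨t ^ N, pow_ne_zero N ht0, hN⟩

/-- A transcendence basis with its dual derivations. Proof. `K` has finite transcendence degree; `exists_derivation`
(fl/S4b) for the dual derivations, `der_kills` or `derivation_eq_zero` for `zero`. -/
theorem sl_exists_dual {K : Type} [Field K] [Algebra ℂ K]
    (hfg : ∃ T : Finset K, IntermediateField.adjoin ℂ (T : Set K) = ⊤) :
    ∃ (n : ℕ) (y : Fin n → K) (E : Fin n → Derivation ℂ K K), DualBasis y E := by
  classical
  have hess : Algebra.EssFiniteType ℂ K := IntermediateField.fg_top_iff.1 hfg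
  have : FinTrdeg ℂ K := inferInstance
  obtain ⟨b, hb⟩ := exists_isTranscendenceBasis ℂ K
  have hfin : Finite b := finite_of_algebraicIndependent hb.1
  obtain ⟨n, ⟨e⟩⟩ := Finite.exists_equiv_fin b
  have hy : AlgebraicIndependent ℂ (fun j : Fin n => ((e.symm j : b) : K)) :=
    hb.1.comp e.symm e.symm.injective
  choose E hE using fun i : Fin n => exists_derivation (k := ℂ) _ hy fun j => if i = j then 1 else 0
  refine ⟨n, fun j => ((e.symm j : b) : K), E, hE, ?_⟩
  intro D hD
  ext z
  refine derivation_eq_zero D (IntermediateField.adjoin ℂ (Set.range fun i : b => (i : K)))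
    (fun x hx => RatPlace.der_adjoin_zero D _ ?_ x hx) z (hb.isAlgebraic_field.isAlgebraic z)
  rintro _ ⟨i, rfl⟩
  have h1 := hD (e i)
  rwa [Equiv.symm_apply_apply] at h1

/-- A good basis at a place. Proof. Let `π` be a uniformiser and `z : Fin s → K` a family in `O` such that `q(z)` is a unit
of `O` for all polynomials `q ≠ 0` (residues algebraically independent). Then `(π, z)` is algebraically
independent (lowest power of `π` in a relation), so `s < trdeg`; take `s` maximal. `L = ℂ(z) ⊆ O`. By maximality each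
`a ∈ O` has a polynomial `p ≠ 0` over `L` with `p(a) ∈ π O`. `der_mem_place` (fl/S4), and its variant with `E π ∈ O` instead of
`E π = 0` (same proof), show: each derivation `E` with `E L ⊆ L`, `E π ∈ O` preserves `O` (`hbd` gives the bound: `π^N E a ∈ O`).
If `E` vanishes on `π` and `z` then all `g E`, `g ∈ K`, preserve `O`, so `E = 0` on `O` and on `K`. Take `y = (π, z)` and dual derivations
(`exists_derivation`). -/
theorem sl_basis {K : Type} [Field K] [Algebra ℂ K]
    (hfg : ∃ T : Finset K, IntermediateField.adjoin ℂ (T : Set K) = ⊤) (O : ValuationSubring K)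
    (hO : IsPlace O) (hbd : ∀ E : Derivation ℂ K K, ∃ b : K, b ≠ 0 ∧ ∀ a ∈ O, b * E a ∈ O) :
    ∃ (n : ℕ) (y : Fin n → K) (E : Fin n → Derivation ℂ K K), DualBasis y E ∧ (∀ j, y j ∈ O) ∧
      ∀ i, ∀ a ∈ O, E i a ∈ O := by
  classical
  have hess : Algebra.EssFiniteType ℂ K := IntermediateField.fg_top_iff.1 hfg
  have : FinTrdeg ℂ K := inferInstance
  obtain ⟨t, ht, ht0, ht', hunif, hN⟩ := exists_uniformizer O hO
  obtain ⟨ι, hι, z, hz, hind, hL, hres⟩ := T1_lifts O hO ht' hunif
  -- derivations which preserve `O`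
  have hpres : ∀ D : Derivation ℂ K K,
      (∀ a ∈ IntermediateField.adjoin ℂ (Set.range z), D a ∈ IntermediateField.adjoin ℂ (Set.range z)) →
      D t ∈ O → ∀ a ∈ O, D a ∈ O := by
    intro D hD hDt
    refine T1_der_mem _ D hD O hL ht ht' hunif hres ?_ hDt
    obtain ⟨b, hb0, hb⟩ := hbd D
    obtain ⟨N, hN'⟩ := hN b⁻¹
    refine ⟨N, fun a ha => ?_⟩
    have h1 : t ^ N * D a = (t ^ N * b⁻¹) * (b * D a) := by
      field_simp
    rw [h1]
    exact O.mul_mem _ _ hN' (hb a ha)
  obtain ⟨n, ⟨e⟩⟩ := Finite.exists_equiv_fin (Option ι)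
  set x : Option ι → K := fun o => o.elim t z with hx
  have hxO : ∀ o, x o ∈ O := by
    intro o
    rcases o with _ | i
    · exact ht
    · exact hz i
  have hy : AlgebraicIndependent ℂ (fun j : Fin n => x (e.symm j)) :=
    hind.comp e.symm e.symm.injective
  choose E hE using fun i : Fin n => exists_derivation (k := ℂ) _ hy fun j => if i = j then 1 else 0
  have hEx : ∀ (i : Fin n) (o : Option ι), E i (x o) = 0 ∨ E i (x o) = 1 := by
    intro i o
    have h1 := hE i (e o)
    rw [Equiv.symm_apply_apply] at h1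
    rw [h1]
    split_ifs
    · exact Or.inr rfl
    · exact Or.inl rfl
  refine ⟨n, fun j => x (e.symm j), E, ⟨hE, ?_⟩, fun j => hxO _, fun i => ?_⟩
  · intro D hD
    have hDx : ∀ o, D (x o) = 0 := by
      intro o
      have h1 := hD (e o)
      rwa [Equiv.symm_apply_apply] at h1
    have h1 : ∀ (g a : K), a ∈ O → g * D a ∈ O := by
      intro g a ha
      refine hpres (g • D) ?_ ?_ a ha
      · intro c hc
        have h2 : D c = 0 := RatPlace.der_adjoin_zero D _ (by
          rintro _ ⟨i, rfl⟩
          exact hDx (some i)) c hc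
        rw [Derivation.smul_apply, h2, smul_zero]
        exact zero_mem _
      · have h2 : D t = 0 := hDx none
        rw [Derivation.smul_apply, h2, smul_zero]
        exact O.zero_mem
    have h2 : ∀ a ∈ O, D a = 0 := by
      intro a ha
      by_contra h3
      apply ht'
      have h4 := h1 (t⁻¹ * (D a)⁻¹) a ha
      rwa [mul_assoc, inv_mul_cancel₀ h3, mul_one] at h4
    ext a
    rw [Derivation.zero_apply]
    rcases O.mem_or_inv_mem a with ha | ha
    · exact h2 a ha
    · have h3 := h2 _ ha
      by_cases ha0 : a = 0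
      · rw [ha0, map_zero]
      rw [Derivation.leibniz_inv, smul_eq_mul] at h3
      rcases mul_eq_zero.1 h3 with h4 | h4
      · exact absurd h4 (neg_ne_zero.2 (pow_ne_zero _ (inv_ne_zero ha0)))
      · exact h4
  · refine hpres (E i) ?_ ?_
    · intro c hc
      refine RatPlace.der_adjoin (E i) _ ?_ c hc
      rintro _ ⟨j, rfl⟩
      have h1 := hEx i (some j)
      change E i (z j) = 0 ∨ E i (z j) = 1 at h1
      rcases h1 with h1 | h1
      · rw [h1]
        exact zero_mem _
      · rw [h1]
        exact one_mem _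
    · have h1 := hEx i none
      change E i t = 0 ∨ E i t = 1 at h1
      rcases h1 with h1 | h1
      · rw [h1]
        exact O.zero_mem
      · rw [h1]
        exact O.one_mem

end Pool.Agent.AbPencil
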