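import Pool.Agent.Lib_MP_1209e6_sl.T1

/-! PIECE T2: pull back of forms. -/

set_option autoImplicit false

namespace Pool.Agent.AbPencil

open Pool.Agent.Campana

variable {K M : Type} [Field K] [Algebra ℂ K] [Field M] [Algebra ℂ M] [Algebra K M] [IsScalarTower ℂ K M]

/-- the derivation `a ↦ l (D a)` of `K` for a `K`-linear functional `l` on `M` -/
private noncomputable def fnl (l : M →ₗ[K] K) (D : Derivation ℂ M M) : Derivation ℂ K K :=
  Derivation.mk'
    ((l.restrictScalars ℂ).comp ((D : M →ₗ[ℂ] M).comp (IsScalarTower.toAlgHom ℂ K M).toLinearMap))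
    (by
      intro a b
      have h1 : D (algebraMap K M (a * b)) =
          a • D (algebraMap K M b) + b • D (algebraMap K M a) := by
        rw [map_mul, Derivation.leibniz, smul_eq_mul, smul_eq_mul, Algebra.smul_def, Algebra.smul_def]
      have h2 : l (D (algebraMap K M (a * b))) =
          a • l (D (algebraMap K M b)) + b • l (D (algebraMap K M a)) := by
        rw [h1, map_add, map_smul, map_smul]
      exact h2)

private theorem fnl_apply (l : M →ₗ[K] K) (D : Derivation ℂ M M) (a : K) :
    fnl l D a = l (D (algebraMap K M a)) := rfl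

omit [Algebra ℂ M] [IsScalarTower ℂ K M] in
private theorem eq_zero_of_fnl {x : M} (h : ∀ l : M →ₗ[K] K, l x = 0) : x = 0 :=
  (Module.forall_dual_apply_eq_zero_iff K x).1 h

private theorem der_apply_sum {n : ℕ} (c : Fin n → K) (E : Fin n → Derivation ℂ K K) (a : K) :
    (∑ j, c j • E j) a = ∑ j, c j * E j a := by
  have h : ∀ s : Finset (Fin n), (∑ j ∈ s, c j • E j) a = ∑ j ∈ s, c j * E j a := by
    intro s
    classical
    induction s using Finset.induction_on with
    | empty => simp
    | insert x s hx ih =>
      rw [Finset.sum_insert hx, Finset.sum_insert hx, Derivation.add_apply, ih,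
        Derivation.smul_apply, smul_eq_mul]
  exact h Finset.univ

private theorem der_expand {n : ℕ} {y : Fin n → K} {E : Fin n → Derivation ℂ K K} (h : DualBasis y E)
    (F : Derivation ℂ K K) : F = ∑ j, F (y j) • E j := by
  have h1 : F - ∑ j, F (y j) • E j = 0 := by
    refine h.zero _ fun i => ?_
    rw [Derivation.sub_apply, der_apply_sum]
    have h2 : ∑ j, F (y j) * E j (y i) = F (y i) := by
      rw [Finset.sum_eq_single i]
      · rw [h.dual, if_pos rfl, mul_one]
      · intro j _ hj
        rw [h.dual, if_neg hj, mul_zero]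
      · intro hi
        exact absurd (Finset.mem_univ i) hi
    rw [h2, sub_self]
  exact sub_eq_zero.1 h1

/-- Derivations `K → M` (additive, `ℂ`-linear, Leibniz) are combinations of a dual basis. Proof. The difference `δ` of the two
sides is a derivation `K → M` which vanishes on the `y j`. For each `K`-linear `l : M → K` the map `l ∘ δ` is a derivation of `K`
which vanishes on the `y j`, so it is zero (`DualBasis.zero`); linear functionals separate points. -/
theorem sl_expand {n : ℕ} {y : Fin n → K} {E : Fin n → Derivation ℂ K K} (h : DualBasis y E)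
    (D : Derivation ℂ M M) (a : K) :
    D (algebraMap K M a) = ∑ j, D (algebraMap K M (y j)) * algebraMap K M (E j a) := by
  rw [← sub_eq_zero]
  refine eq_zero_of_fnl (K := K) fun l => ?_
  rw [map_sub, map_sum]
  have h1 : ∀ j, l (D (algebraMap K M (y j)) * algebraMap K M (E j a)) =
      fnl l D (y j) * E j a := by
    intro j
    rw [mul_comm, ← Algebra.smul_def, map_smul, smul_eq_mul, mul_comm, fnl_apply]
  simp only [h1]
  have h2 := congrArg (fun G : Derivation ℂ K K => G a) (der_expand h (fnl l D))
  simp only [der_apply_sum] at h2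
  rw [← h2, fnl_apply, sub_self]

/-- expansion of a form in a dual basis -/
private theorem form_expand {n : ℕ} {y : Fin n → K} {E : Fin n → Derivation ℂ K K} (h : DualBasis y E)
    {p : ℕ} (ω : Form K p) (F : Fin p → Derivation ℂ K K) :
    ω F = ∑ J : Fin p → Fin n, ω (fun i => E (J i)) * ∏ i, F i (y (J i)) := by
  have h1 : F = fun i => ∑ j, F i (y j) • E j := funext fun i => der_expand h (F i)
  have h2 : ω F = ω.toMultilinearMap (fun i => ∑ j, F i (y j) • E j) := by
    rw [← h1]; rfl
  rw [h2, MultilinearMap.map_sum]
  refine Finset.sum_congr rfl fun J _ => ?_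
  rw [MultilinearMap.map_smul_univ, smul_eq_mul, mul_comm]
  rfl

/-- evaluation at `x` as a linear map on derivations -/
private noncomputable def evD (x : M) : Derivation ℂ M M →ₗ[M] M where
  toFun D := D x
  map_add' D D' := rfl
  map_smul' c D := rfl

/-- the alternating form on `M` given by the formula of `IsPull` -/
private noncomputable def pullForm {n : ℕ} (y : Fin n → K) (E : Fin n → Derivation ℂ K K) {p : ℕ}
    (ω : Form K p) : Form M p :=
  { (∑ J : Fin p → Fin n, algebraMap K M (ω fun i => E (J i)) •
      (MultilinearMap.mkPiAlgebra M (Fin p) M).compLinearMap (fun i => evD (algebraMap K M (y (J i)))) :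
      MultilinearMap M (fun _ : Fin p => Derivation ℂ M M) M) with
    map_eq_zero_of_eq' := by
      intro v i j hv hij
      change (∑ J : Fin p → Fin n, algebraMap K M (ω fun i => E (J i)) •
        (MultilinearMap.mkPiAlgebra M (Fin p) M).compLinearMap
          (fun i => evD (algebraMap K M (y (J i)))) :
        MultilinearMap M (fun _ : Fin p => Derivation ℂ M M) M) v = 0
      rw [MultilinearMap.sum_apply]
      have hterm : ∀ J : Fin p → Fin n, (algebraMap K M (ω fun i => E (J i)) •
          (MultilinearMap.mkPiAlgebra M (Fin p) M).compLinearMap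
            (fun i => evD (algebraMap K M (y (J i)))) :
          MultilinearMap M (fun _ : Fin p => Derivation ℂ M M) M) v =
          algebraMap K M (ω fun i => E (J i)) * ∏ k, v k (algebraMap K M (y (J k))) := by
        intro J
        rw [MultilinearMap.smul_apply, MultilinearMap.compLinearMap_apply,
          MultilinearMap.mkPiAlgebra_apply, smul_eq_mul]
        rfl
      simp only [hterm]
      refine Finset.sum_involution (fun J _ => J ∘ Equiv.swap i j) ?_ ?_ ?_ ?_
      · intro J _
        have e1 : (ω fun k => E ((J ∘ Equiv.swap i j) k)) = -ω fun k => E (J k) :=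
          ω.map_swap (fun k => E (J k)) hij
        have hvs : ∀ k, v (Equiv.swap i j k) = v k := by
          intro k
          by_cases hk1 : k = i
          · rw [hk1, Equiv.swap_apply_left, hv]
          · by_cases hk2 : k = j
            · rw [hk2, Equiv.swap_apply_right, hv]
            · rw [Equiv.swap_apply_of_ne_of_ne hk1 hk2]
        have e2 : ∏ k, v k (algebraMap K M (y ((J ∘ Equiv.swap i j) k))) =
            ∏ k, v k (algebraMap K M (y (J k))) := by
          rw [← Equiv.prod_comp (Equiv.swap i j) fun k => v k (algebraMap K M (y (J k)))]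
          refine Finset.prod_congr rfl fun k _ => ?_
          rw [hvs]
          rfl
        rw [e1, e2, map_neg]
        ring
      · intro J _ hJ hJ'
        apply hJ
        have hJij : J i = J j := by
          have := congrFun hJ' i
          simp only [Function.comp_apply, Equiv.swap_apply_left] at this
          exact this.symm
        rw [ω.map_eq_zero_of_eq (fun k => E (J k)) (by rw [hJij]) hij, map_zero, zero_mul]
      · intro J _
        exact Finset.mem_univ _
      · intro J _
        funext k
        simp }

private theorem pullForm_apply {n : ℕ} (y : Fin n → K) (E : Fin n → Derivation ℂ K K) {p : ℕ}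
    (ω : Form K p) (D : Fin p → Derivation ℂ M M) :
    pullForm y E ω D = ∑ J : Fin p → Fin n,
      algebraMap K M (ω fun i => E (J i)) * ∏ i, D i (algebraMap K M (y (J i))) := by
  change (∑ J : Fin p → Fin n, algebraMap K M (ω fun i => E (J i)) •
        (MultilinearMap.mkPiAlgebra M (Fin p) M).compLinearMap
          (fun i => evD (algebraMap K M (y (J i)))) :
        MultilinearMap M (fun _ : Fin p => Derivation ℂ M M) M) D = _
  rw [MultilinearMap.sum_apply]
  refine Finset.sum_congr rfl fun J _ => ?_
  rw [MultilinearMap.smul_apply, MultilinearMap.compLinearMap_apply,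
    MultilinearMap.mkPiAlgebra_apply, smul_eq_mul]
  rfl

/-- Proof. Take a dual basis (`sl_exists_dual`) and define `ω'` by the formula of `IsPull`: it is multilinear in `D`, and
alternating because `ω` is (if `D i = D j` pair `J` with `J ∘ swap i j`). For another dual basis `(y', E')`: `E j = ∑ l, E j (y' l) • E' l`,
expand `ω (E ∘ J)` multilinearly (`AlternatingMap.map_sum`, `Finset.prod_univ_sum`) and use
`D (y' l) = ∑ j, D (y j) E j (y' l)` (`sl_expand`). -/
theorem sl_exists_pull (hfg : ∃ T : Finset K, IntermediateField.adjoin ℂ (T : Set K) = ⊤) {p : ℕ}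
    (ω : Form K p) : ∃ ω' : Form M p, IsPull ω ω' := by
  obtain ⟨n, y, E, h⟩ := sl_exists_dual hfg
  refine ⟨pullForm y E ω, ?_⟩
  intro m y' E' h' D
  rw [pullForm_apply]
  have h1 : ∀ J : Fin p → Fin n, algebraMap K M (ω fun i => E (J i)) =
      ∑ J' : Fin p → Fin m, algebraMap K M (ω fun i => E' (J' i)) *
        ∏ i, algebraMap K M (E (J i) (y' (J' i))) := by
    intro J
    rw [form_expand h' ω (fun i => E (J i)), map_sum]
    refine Finset.sum_congr rfl fun J' _ => ?_
    rw [map_mul, map_prod]
  have h2 : ∀ J' : Fin p → Fin m, ∏ i, D i (algebraMap K M (y' (J' i))) =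
      ∑ J : Fin p → Fin n, (∏ i, D i (algebraMap K M (y (J i)))) *
        ∏ i, algebraMap K M (E (J i) (y' (J' i))) := by
    intro J'
    have h3 : ∀ i, D i (algebraMap K M (y' (J' i))) =
        ∑ j, D i (algebraMap K M (y j)) * algebraMap K M (E j (y' (J' i))) :=
      fun i => sl_expand h (D i) (y' (J' i))
    simp only [h3]
    rw [Finset.prod_univ_sum]
    rw [Fintype.piFinset_univ]
    refine Finset.sum_congr rfl fun J _ => ?_
    rw [Finset.prod_mul_distrib]
  simp only [h1, h2]
  simp only [Finset.sum_mul, Finset.mul_sum]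
  rw [Finset.sum_comm]
  refine Finset.sum_congr rfl fun J' _ => Finset.sum_congr rfl fun J _ => ?_
  ring

/-- On derivations which extend derivations of `K` the pull back has the same value. Proof. `E i = ∑ j, E i (y j) • E' j` for a dual
basis `(y, E')`; expand. -/
theorem sl_pull_apply (hfg : ∃ T : Finset K, IntermediateField.adjoin ℂ (T : Set K) = ⊤) {p : ℕ}
    {ω : Form K p} {ω' : Form M p} (h : IsPull ω ω') (E : Fin p → Derivation ℂ K K)
    (D : Fin p → Derivation ℂ M M) (hD : ∀ i a, D i (algebraMap K M a) = algebraMap K M (E i a)) :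
    ω' D = algebraMap K M (ω E) := by
  obtain ⟨n, y, E', hE⟩ := sl_exists_dual hfg
  rw [h n y E' hE D, form_expand hE ω E, map_sum]
  refine Finset.sum_congr rfl fun J _ => ?_
  rw [map_mul, map_prod]
  simp only [hD]

/-- Proof. For a `K`-linear `l : M → K` the map `a ↦ l (D a)` is a derivation `E` of `K` with `E (t i) = 0`, so
`0 = ω (fun _ => E) = ∑ j, E (y j) ω (E' j) = l (ω' (fun _ => D))`. Linear functionals separate points. -/
theorem sl_pull_zero (hfg : ∃ T : Finset K, IntermediateField.adjoin ℂ (T : Set K) = ⊤)
    {ω : Form K 1} {ω' : Form M 1} (h : IsPull ω ω') {n : ℕ} (t : Fin n → K)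
    (hω : ∀ E : Derivation ℂ K K, (∀ i, E (t i) = 0) → ω (fun _ => E) = 0)
    (D : Derivation ℂ M M) (hD : ∀ i, D (algebraMap K M (t i)) = 0) : ω' (fun _ => D) = 0 := by
  obtain ⟨m, y, E', hE⟩ := sl_exists_dual hfg
  refine eq_zero_of_fnl (K := K) fun l => ?_
  rw [h m y E' hE (fun _ => D), map_sum]
  have h1 : ω (fun _ => fnl l D) = 0 := by
    refine hω _ fun i => ?_
    rw [fnl_apply, hD, map_zero]
  rw [form_expand hE ω (fun _ => fnl l D)] at h1
  rw [← h1]
  refine Finset.sum_congr rfl fun J _ => ?_
  rw [Fin.prod_univ_one, Fin.prod_univ_one, ← Algebra.smul_def, map_smul, smul_eq_mul, fnl_apply]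

end Pool.Agent.AbPencil
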