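import Pool.Agent.Lib_MP_1209e6_sl.T2
import Pool.Agent.Lib_MP_1209e6_mh.PlaceOf
import Pool.Agent.Lib_MP_1209e6_ag.Control

/-! T3: the pull back of a regular section is regular at all prime divisors. -/

set_option autoImplicit false

namespace Pool.Agent.AbPencil

open Pool.Agent.Campana

/-- Proof. Let `v'` be the order of `O'` (`place_order`), `b` as in `sl_bounded`. If `v'` vanishes on `K ∖ 0` then `K ⊆ O'`, `u = 1`, and for a
dual basis of `K` (`sl_exists_dual`) all terms of the formula `IsPull` are in `O'` (`D i (y j) ∈ O'` as `y j ∈ O'`). Otherwise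
`place_of_val` gives a place `O` of `K` with `a ∈ O ↔ algebraMap a ∈ O'`. All derivations `E` of `K` have bounded poles at `O`: extend
`E` to `D` (`hext`), `v' (E a) ≥ - v' b` for `a ∈ O`, and take a power of a uniformiser of `O`. So `sl_basis` gives a good basis `(y, E)`
at `O`. With `u` from `hreg O`: `u⁻¹ ω (E ∘ J) ∈ O` and `D i (y j) ∈ O'` for `D i` preserving `O'`, so `u⁻¹ ω' D ∈ O'`. -/
theorem sl_transfer {K M : Type} [Field K] [Algebra ℂ K] [Field M] [Algebra ℂ M] [Algebra K M]
    [IsScalarTower ℂ K M] (hfg : ∃ T : Finset K, IntermediateField.adjoin ℂ (T : Set K) = ⊤)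
    (hext : ∀ E : Derivation ℂ K K, ∃ D : Derivation ℂ M M, ∀ a : K,
      D (algebraMap K M a) = algebraMap K M (E a)) {p : ℕ} {ω : Form K p} {ω' : Form M p}
    (h : IsPull ω ω') (m : ℕ) (f : K)
    (hreg : ∀ O : ValuationSubring K, IsPlace O → RegularAt O ω m f) (O' : ValuationSubring M)
    (hO' : IsDivisor O') : RegularAt O' ω' m (algebraMap K M f) := by
  obtain ⟨v', hv'⟩ := place_order O' hO'.1
  have hinj : ∀ x : K, x ≠ 0 → algebraMap K M x ≠ 0 := fun x hx => (map_ne_zero _).2 hx
  by_cases hw : ∀ x : K, x ≠ 0 → v' (algebraMap K M x) = 0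
  · -- `K` is contained in `O'`
    have hmem : ∀ x : K, algebraMap K M x ∈ O' := by
      intro x
      by_cases hx : x = 0
      · rw [hx, map_zero]
        exact zero_mem _
      · rw [hv'.2.1 _ (hinj x hx), hw x hx]
    obtain ⟨n, y, E, hy⟩ := sl_exists_dual hfg
    refine ⟨1, one_ne_zero, fun D hD => ?_, ?_⟩
    · rw [h n y E hy D, inv_one, one_mul]
      exact sum_mem fun J _ => mul_mem (hmem _) (prod_mem fun i _ => hD i _ (hmem _))
    · rw [one_pow, mul_one]
      exact hmem f
  · push Not at hw
    obtain ⟨O, hO, e, v, he, hv, hwv⟩ := place_of_val (fun x : K => v' (algebraMap K M x))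
      (fun x y hx hy => by
        simp only [map_mul]
        exact hv'.1 _ _ (hinj x hx) (hinj y hy))
      (fun x y hx hy hxy => by
        simp only [map_add]
        have h0 : algebraMap K M x + algebraMap K M y ≠ 0 := by
          rw [← map_add]
          exact hinj _ hxy
        rcases hv'.le_add (B := min (v' (algebraMap K M x)) (v' (algebraMap K M y)))
          (Or.inr (min_le_left _ _)) (Or.inr (min_le_right _ _)) with h1 | h1
        · exact absurd h1 h0
        · exact h1)
      (fun c hc => by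
        have h1 : algebraMap K M (algebraMap ℂ K c) ∈ O' := by
          rw [← IsScalarTower.algebraMap_apply]
          exact hO'.1.1 c
        have h2 : algebraMap K M (algebraMap ℂ K c⁻¹) ∈ O' := by
          rw [← IsScalarTower.algebraMap_apply]
          exact hO'.1.1 c⁻¹
        have h3 : algebraMap ℂ K c ≠ 0 := (map_ne_zero _).2 hc
        rw [map_inv₀, map_inv₀] at h2
        rw [hv'.mem_iff (hinj _ h3)] at h1
        rw [hv'.mem_iff (inv_ne_zero (hinj _ h3)), hv'.map_inv (hinj _ h3)] at h2
        show v' (algebraMap K M (algebraMap ℂ K c)) = 0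
        omega) hw
    have hmem : ∀ x : K, x ∈ O ↔ algebraMap K M x ∈ O' := by
      intro x
      by_cases hx : x = 0
      · rw [hx, map_zero]
        exact ⟨fun _ => zero_mem _, fun _ => zero_mem _⟩
      · rw [hv.mem_iff hx, hv'.mem_iff (hinj x hx)]
        have h1 : v' (algebraMap K M x) = e * v x := hwv x hx
        rw [h1]
        constructor
        · intro h2
          positivity
        · intro h2
          by_contra h3
          have h4 : e * v x < 0 := mul_neg_of_pos_of_neg (by omega) (by omega)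
          omega
    obtain ⟨t, ht0, htv⟩ := hv.2.2
    have hbd : ∀ E : Derivation ℂ K K, ∃ b : K, b ≠ 0 ∧ ∀ a ∈ O, b * E a ∈ O := by
      intro E
      obtain ⟨D, hD⟩ := hext E
      obtain ⟨b', hb'0, hb'⟩ := sl_bounded O' hO' D
      refine ⟨t ^ (v' b').natAbs, pow_ne_zero _ ht0, fun a ha => ?_⟩
      rw [hmem, map_mul, ← hD]
      have h1 := hb' _ ((hmem a).1 ha)
      by_cases h0 : D (algebraMap K M a) = 0
      · rw [h0, mul_zero]
        exact zero_mem _
      · have h2 : algebraMap K M (t ^ (v' b').natAbs) ≠ 0 := hinj _ (pow_ne_zero _ ht0)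
        rw [hv'.mem_iff (mul_ne_zero hb'0 h0), hv'.map_mul hb'0 h0] at h1
        rw [hv'.mem_iff (mul_ne_zero h2 h0), hv'.map_mul h2 h0]
        have h3 : v' (algebraMap K M (t ^ (v' b').natAbs)) = e * v (t ^ (v' b').natAbs) :=
          hwv _ (pow_ne_zero _ ht0)
        rw [h3, hv.map_pow ht0, htv]
        have h4 : v' b' ≤ ((v' b').natAbs : ℤ) := Int.le_natAbs
        have h5 : ((v' b').natAbs : ℤ) ≤ e * (((v' b').natAbs : ℕ) * 1) := by
          rw [mul_one]
          have h6 : (0 : ℤ) ≤ ((v' b').natAbs : ℤ) := Int.natCast_nonneg _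
          nlinarith
        omega
    obtain ⟨n, y, E, hy, hyO, hE⟩ := sl_basis hfg O hO hbd
    obtain ⟨u, hu0, hu, hfu⟩ := hreg O hO
    refine ⟨algebraMap K M u, hinj u hu0, fun D hD => ?_, ?_⟩
    · rw [h n y E hy D, Finset.mul_sum]
      refine sum_mem fun J _ => ?_
      rw [← mul_assoc]
      refine mul_mem ?_ (prod_mem fun i _ => hD i _ ((hmem _).1 (hyO _)))
      rw [← map_inv₀, ← map_mul, ← hmem]
      exact hu _ fun i a ha => hE _ a ha
    · rw [← map_pow, ← map_mul, ← hmem]
      exact hfu

end Pool.Agent.AbPencil
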