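import Pool.Agent.Lib_MP_1209e6_sl.T0
import Pool.Agent.Lib_MP_1209e6_sk.C1

/-! PIECE T8a: translations of a plane cubic. -/

set_option autoImplicit false

namespace Pool.Agent.AbPencil

open Pool.Agent.Campana

private lemma T8a_add {K : Type} [Field K] {O : ValuationSubring K} {v : K → ℤ} (hv : IsOrd O v)
    {x y : K} (hx : x ≠ 0) (hy : y = 0 ∨ v x < v y) : x + y ≠ 0 ∧ v (x + y) = v x := by
  rcases eq_or_ne y 0 with rfl | hy0
  · exact ⟨by simpa using hx, by simp⟩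
  have hlt : v x < v y := hy.resolve_left hy0
  have hne : x + y ≠ 0 := by
    intro h
    have h1 : x = -y := by linear_combination h
    rw [h1, hv.map_neg hy0] at hlt
    omega
  refine ⟨hne, ?_⟩
  have h1 := hv.le_add (x := x) (y := y) (B := v x) (Or.inr le_rfl) (Or.inr hlt.le)
  by_contra hn
  have h3 : v x + 1 ≤ v (x + y) := by
    have := h1.resolve_left hne
    omega
  have h2 := hv.le_add (x := x + y) (y := -y) (B := v x + 1) (Or.inr h3)
    (Or.inr (by rw [hv.map_neg hy0]; omega))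
  rw [add_neg_cancel_right] at h2
  rcases h2 with h2 | h2
  · exact hx h2
  · omega

private lemma T8a_mem {K : Type} [Field K] {O : ValuationSubring K} {v : K → ℤ} (hv : IsOrd O v)
    {x : K} (hx : 0 ≤ v x) : x ∈ O := by
  rcases eq_or_ne x 0 with rfl | h0
  · exact O.zero_mem
  · exact (hv.mem_iff h0).2 hx

private lemma T8a_nonneg {K : Type} [Field K] {O : ValuationSubring K} {v : K → ℤ} (hv : IsOrd O v)
    {x : K} (hx : x ∈ O) (h0 : x ≠ 0) : 0 ≤ v x := (hv.mem_iff h0).1 hx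

private lemma T8a_const {K : Type} [Field K] [Algebra ℂ K] {h : K} (hA : ¬ Transcendental ℂ h) :
    ∃ c : ℂ, algebraMap ℂ K c = h := by
  have hI : IsIntegral ℂ h := (not_not.1 hA : IsAlgebraic ℂ h).isIntegral
  exact (minpoly.mem_range_of_degree_eq_one ℂ h)
    (IsAlgClosed.degree_eq_one_of_irreducible ℂ (minpoly.irreducible hI))

private lemma T8a_ne {K : Type} [Field K] [Algebra ℂ K] {x : K} (hx : Transcendental ℂ x) (e : ℂ) :
    x - algebraMap ℂ K e ≠ 0 := by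
  intro h
  apply hx
  rw [sub_eq_zero.1 h]
  exact isAlgebraic_algebraMap e

private lemma T8a_chord {K : Type} [Field K] (a b c x y x₀ y₀ l h y' : K) (hxx : x - x₀ ≠ 0)
    (hl : l * (x - x₀) = y + y₀) (hh : h = l ^ 2 - a - x - x₀) (hy' : y' = l * (h - x₀) - y₀)
    (hy : y ^ 2 = x ^ 3 + a * x ^ 2 + b * x + c) (h₀ : y₀ ^ 2 = x₀ ^ 3 + a * x₀ ^ 2 + b * x₀ + c) :
    y' ^ 2 = h ^ 3 + a * h ^ 2 + b * h + c := by
  have key : (x - x₀) * (y' ^ 2 - (h ^ 3 + a * h ^ 2 + b * h + c)) = 0 := by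
    subst hy' hh
    linear_combination ((l ^ 2 - a - x - x₀) - x₀) * hy +
      ((l ^ 2 - a - x - x₀) - x₀) * (y + l * (x - x₀) - y₀) * hl - ((l ^ 2 - a - x - x₀) - x) * h₀
  exact sub_eq_zero.1 ((mul_eq_zero.1 key).resolve_left hxx)

/-- a square root of a cubic polynomial in `x` is not a polynomial in `x` -/
private lemma T8a_nsq {K : Type} [Field K] [Algebra ℂ K] {x y : K} (hx : Transcendental ℂ x)
    (a b c : ℂ) (hy : y ^ 2 = x ^ 3 + algebraMap ℂ K a * x ^ 2 + algebraMap ℂ K b * x +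
      algebraMap ℂ K c) (g : Polynomial ℂ) : y ≠ Polynomial.aeval x g := by
  intro h
  have h1 : Polynomial.aeval x (g ^ 2 - (Polynomial.X ^ 3 + Polynomial.C a * Polynomial.X ^ 2 +
      Polynomial.C b * Polynomial.X + Polynomial.C c)) = 0 := by
    simp only [map_sub, map_add, map_mul, map_pow, Polynomial.aeval_X, Polynomial.aeval_C]
    rw [← h, hy]
    ring
  have h2 := (transcendental_iff.1 hx) _ h1
  have h3 : (g ^ 2).natDegree = 3 := by
    rw [sub_eq_zero.1 h2]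
    compute_degree!
  rw [Polynomial.natDegree_pow] at h3
  omega

private lemma T8a_trans_y {K : Type} [Field K] [Algebra ℂ K] {x y : K} (hx : Transcendental ℂ x)
    (a b c : ℂ) (hy : y ^ 2 = x ^ 3 + algebraMap ℂ K a * x ^ 2 + algebraMap ℂ K b * x +
      algebraMap ℂ K c) : Transcendental ℂ y := by
  by_contra hA
  obtain ⟨e, he⟩ := T8a_const hA
  exact T8a_nsq hx a b c hy (Polynomial.C e) (by rw [Polynomial.aeval_C, he])

/-- `P(x) - P(x₀) = (x - x₀) q` -/
private lemma T8a_q {K : Type} [Field K] [Algebra ℂ K] {x y l : K}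
    (hx : Transcendental ℂ x) (a b c x₀ y₀ : ℂ)
    (hy : y ^ 2 = x ^ 3 + algebraMap ℂ K a * x ^ 2 + algebraMap ℂ K b * x + algebraMap ℂ K c)
    (h₀ : y₀ ^ 2 = x₀ ^ 3 + a * x₀ ^ 2 + b * x₀ + c)
    (hl : l * (x - algebraMap ℂ K x₀) = y + algebraMap ℂ K y₀) :
    l * (y - algebraMap ℂ K y₀) = algebraMap ℂ K (3 * x₀ ^ 2 + 2 * a * x₀ + b) +
      (x - algebraMap ℂ K x₀) * (x + 2 * algebraMap ℂ K x₀ + algebraMap ℂ K a) := by
  have h1 := congrArg (algebraMap ℂ K) h₀
  simp only [map_add, map_mul, map_pow] at h1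
  have h2 : (x - algebraMap ℂ K x₀) * (l * (y - algebraMap ℂ K y₀) -
      (algebraMap ℂ K (3 * x₀ ^ 2 + 2 * a * x₀ + b) +
      (x - algebraMap ℂ K x₀) * (x + 2 * algebraMap ℂ K x₀ + algebraMap ℂ K a))) = 0 := by
    simp only [map_add, map_mul, map_pow, map_ofNat]
    linear_combination (y - algebraMap ℂ K y₀) * hl + hy - h1
  exact sub_eq_zero.1 ((mul_eq_zero.1 h2).resolve_left (T8a_ne hx x₀))

/-- `h` is transcendental -/
private lemma T8a_trans {K : Type} [Field K] [Algebra ℂ K] (a b c : ℂ)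
    (hd : ∀ x : ℂ, x ^ 3 + a * x ^ 2 + b * x + c = 0 → 3 * x ^ 2 + 2 * a * x + b ≠ 0) (x y l h : K)
    (hx : Transcendental ℂ x)
    (hy : y ^ 2 = x ^ 3 + algebraMap ℂ K a * x ^ 2 + algebraMap ℂ K b * x + algebraMap ℂ K c)
    (x₀ y₀ : ℂ) (h₀ : y₀ ^ 2 = x₀ ^ 3 + a * x₀ ^ 2 + b * x₀ + c)
    (hl : l * (x - algebraMap ℂ K x₀) = y + algebraMap ℂ K y₀)
    (hh : h = l ^ 2 - algebraMap ℂ K a - x - algebraMap ℂ K x₀)
    (hq : l * (y - algebraMap ℂ K y₀) = algebraMap ℂ K (3 * x₀ ^ 2 + 2 * a * x₀ + b) +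
      (x - algebraMap ℂ K x₀) * (x + 2 * algebraMap ℂ K x₀ + algebraMap ℂ K a)) :
    Transcendental ℂ h := by
  by_contra hA
  obtain ⟨e, he⟩ := T8a_const hA
  by_cases hy₀ : y₀ = 0
  · subst hy₀
    rw [map_zero, add_zero] at hl
    rw [map_zero, sub_zero] at hq
    have h2 : Polynomial.aeval x ((Polynomial.C e + Polynomial.C a + Polynomial.X +
        Polynomial.C x₀) * (Polynomial.X - Polynomial.C x₀) -
        (Polynomial.C (3 * x₀ ^ 2 + 2 * a * x₀ + b) + (Polynomial.X - Polynomial.C x₀) *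
        (Polynomial.X + 2 * Polynomial.C x₀ + Polynomial.C a)) : Polynomial ℂ) = 0 := by
      have h5 : Polynomial.aeval x (Polynomial.C (3 * x₀ ^ 2 + 2 * a * x₀ + b) : Polynomial ℂ) =
          algebraMap ℂ K (3 * x₀ ^ 2 + 2 * a * x₀ + b) := Polynomial.aeval_C _ _
      rw [map_sub, map_add _ (Polynomial.C (3 * x₀ ^ 2 + 2 * a * x₀ + b)), h5]
      simp only [map_sub, map_add, map_mul, Polynomial.aeval_X, Polynomial.aeval_C, map_ofNat,
        map_pow] at hq ⊢
      rw [he, hh]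
      linear_combination l * hl + hq
    have h3 := (transcendental_iff.1 hx) _ h2
    have h4 := congrArg (Polynomial.eval x₀) h3
    simp only [Polynomial.eval_sub, Polynomial.eval_add, Polynomial.eval_mul, Polynomial.eval_C,
      Polynomial.eval_X, Polynomial.eval_zero, sub_self, mul_zero, zero_mul, add_zero,
      zero_sub, neg_eq_zero] at h4
    refine hd x₀ ?_ h4
    rw [← h₀]
    ring
  · refine T8a_nsq hx a b c hy (Polynomial.C (1 / (2 * y₀)) *
      ((Polynomial.C e + Polynomial.C a + Polynomial.X + Polynomial.C x₀) *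
        (Polynomial.X - Polynomial.C x₀) ^ 2 - (Polynomial.X ^ 3 +
        Polynomial.C a * Polynomial.X ^ 2 + Polynomial.C b * Polynomial.X + Polynomial.C c) -
        Polynomial.C y₀ ^ 2)) ?_
    have hy2 : algebraMap ℂ K y₀ ≠ 0 := (map_ne_zero _).2 hy₀
    have hinv : algebraMap ℂ K (1 / (2 * y₀)) * (2 * algebraMap ℂ K y₀) = 1 := by
      have : (1 / (2 * y₀)) * (2 * y₀) = 1 := by field_simp
      have h2 := congrArg (algebraMap ℂ K) this
      simpa only [map_mul, map_one, map_ofNat] using h2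
    simp only [map_sub, map_add, map_mul, map_pow, Polynomial.aeval_X, Polynomial.aeval_C]
    have h3 : (algebraMap ℂ K e + algebraMap ℂ K a + x + algebraMap ℂ K x₀) *
        (x - algebraMap ℂ K x₀) ^ 2 - (x ^ 3 + algebraMap ℂ K a * x ^ 2 + algebraMap ℂ K b * x +
          algebraMap ℂ K c) - algebraMap ℂ K y₀ ^ 2 = (2 * algebraMap ℂ K y₀) * y := by
      rw [← hy, he, hh]
      linear_combination (l * (x - algebraMap ℂ K x₀) + y + algebraMap ℂ K y₀) * hl
    rw [h3]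
    linear_combination (-y) * hinv

private lemma T8a_memFT {K : Type} [Field K] [Algebra ℂ K] {x y l h k : K} (a x₀ y₀ : ℂ)
    (hh : h = l ^ 2 - algebraMap ℂ K a - x - algebraMap ℂ K x₀)
    (hk : k = l * (h - algebraMap ℂ K x₀) - algebraMap ℂ K y₀)
    (hl : l * (x - algebraMap ℂ K x₀) = y + algebraMap ℂ K y₀)
    (hhx : h - algebraMap ℂ K x₀ ≠ 0) : x ∈ FT ![h, k] ∧ y ∈ FT ![h, k] := by
  have hC : ∀ e : ℂ, algebraMap ℂ K e ∈ FT ![h, k] := fun e => (FT ![h, k]).algebraMap_mem e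
  have mh : h ∈ FT ![h, k] := IntermediateField.subset_adjoin ℂ _ ⟨0, rfl⟩
  have mk : k ∈ FT ![h, k] := IntermediateField.subset_adjoin ℂ _ ⟨1, rfl⟩
  have ml : l ∈ FT ![h, k] := by
    have h1 : l = (k + algebraMap ℂ K y₀) / (h - algebraMap ℂ K x₀) := by
      rw [eq_div_iff hhx, hk]
      ring
    rw [h1]
    exact div_mem (add_mem mk (hC _)) (sub_mem mh (hC _))
  have mx : x ∈ FT ![h, k] := by
    have h1 : x = l ^ 2 - algebraMap ℂ K a - h - algebraMap ℂ K x₀ := by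
      rw [hh]
      ring
    rw [h1]
    exact sub_mem (sub_mem (sub_mem (pow_mem ml 2) (hC _)) mh) (hC _)
  refine ⟨mx, ?_⟩
  have h1 : y = l * (x - algebraMap ℂ K x₀) - algebraMap ℂ K y₀ := by
    rw [hl]
    ring
  rw [h1]
  exact sub_mem (mul_mem ml (sub_mem mx (hC _))) (hC _)

private lemma T8a_der {K : Type} [Field K] [Algebra ℂ K] {x y l h k : K} (a b c x₀ y₀ : ℂ)
    (hxx : x - algebraMap ℂ K x₀ ≠ 0)
    (hy : y ^ 2 = x ^ 3 + algebraMap ℂ K a * x ^ 2 + algebraMap ℂ K b * x + algebraMap ℂ K c)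
    (hl : l * (x - algebraMap ℂ K x₀) = y + algebraMap ℂ K y₀)
    (hh : h = l ^ 2 - algebraMap ℂ K a - x - algebraMap ℂ K x₀)
    (hk : k = l * (h - algebraMap ℂ K x₀) - algebraMap ℂ K y₀)
    (hq : l * (y - algebraMap ℂ K y₀) = algebraMap ℂ K (3 * x₀ ^ 2 + 2 * a * x₀ + b) +
      (x - algebraMap ℂ K x₀) * (x + 2 * algebraMap ℂ K x₀ + algebraMap ℂ K a))
    (D : Derivation ℂ K K) : D h * y = -(D x * k) := by
  have e1 : D l * (x - algebraMap ℂ K x₀) + l * D x = D y := by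
    have h1 := congrArg D hl
    rw [D.leibniz, map_sub, map_add, D.map_algebraMap, D.map_algebraMap, sub_zero, add_zero,
      smul_eq_mul, smul_eq_mul] at h1
    linear_combination h1
  have e2 : D h = 2 * l * D l - D x := by
    rw [hh, map_sub, map_sub, map_sub, D.map_algebraMap, D.map_algebraMap, D.leibniz_pow]
    simp only [smul_eq_mul, nsmul_eq_mul, Nat.cast_ofNat, pow_one, Nat.add_one_sub_one]
    ring
  have e3 : 2 * y * D y = (3 * x ^ 2 + 2 * algebraMap ℂ K a * x + algebraMap ℂ K b) * D x := by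
    have h1 := congrArg D hy
    rw [D.leibniz_pow, map_add, map_add, map_add, D.leibniz_pow, D.leibniz, D.leibniz,
      D.leibniz_pow, D.map_algebraMap, D.map_algebraMap, D.map_algebraMap] at h1
    simp only [smul_eq_mul, nsmul_eq_mul, Nat.cast_ofNat, pow_one, Nat.add_one_sub_one,
      smul_zero, mul_zero, add_zero] at h1
    linear_combination h1
  have hE : l * (3 * x ^ 2 + 2 * algebraMap ℂ K a * x + algebraMap ℂ K b) - 2 * l ^ 2 * y -
      (x - algebraMap ℂ K x₀) * y + (x - algebraMap ℂ K x₀) * k = 0 := by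
    rw [hk, hh]
    simp only [map_add, map_mul, map_pow, map_ofNat] at hq
    linear_combination (l ^ 2 + (x - algebraMap ℂ K x₀)) * hl - l * hq
  have key : (x - algebraMap ℂ K x₀) * (D h * y + D x * k) = 0 := by
    linear_combination (x - algebraMap ℂ K x₀) * y * e2 + 2 * l * y * e1 + l * e3 + D x * hE
  have h2 := (mul_eq_zero.1 key).resolve_left hxx
  linear_combination h2

private lemma T8a_val {K : Type} [Field K] [Algebra ℂ K] {O : ValuationSubring K}
    (hO : IsPlace O) {v : K → ℤ} (hv : IsOrd O v) {x y l h : K} (hx : Transcendental ℂ x)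
    (a b c : ℂ)
    (hd : ∀ x : ℂ, x ^ 3 + a * x ^ 2 + b * x + c = 0 → 3 * x ^ 2 + 2 * a * x + b ≠ 0) (x₀ y₀ : ℂ)
    (hy : y ^ 2 = x ^ 3 + algebraMap ℂ K a * x ^ 2 + algebraMap ℂ K b * x + algebraMap ℂ K c)
    (h₀ : y₀ ^ 2 = x₀ ^ 3 + a * x₀ ^ 2 + b * x₀ + c)
    (hl : l * (x - algebraMap ℂ K x₀) = y + algebraMap ℂ K y₀)
    (hh : h = l ^ 2 - algebraMap ℂ K a - x - algebraMap ℂ K x₀)
    (hq : l * (y - algebraMap ℂ K y₀) = algebraMap ℂ K (3 * x₀ ^ 2 + 2 * a * x₀ + b) +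
      (x - algebraMap ℂ K x₀) * (x + 2 * algebraMap ℂ K x₀ + algebraMap ℂ K a))
    (hvx : 1 ≤ v (x - algebraMap ℂ K x₀)) (hvy : 1 ≤ v (y - algebraMap ℂ K y₀)) : v h < 0 := by
  have hC : ∀ e : ℂ, algebraMap ℂ K e ∈ O := hO.1
  have c2 : (2 : K) ∈ O := by
    rw [← map_ofNat (algebraMap ℂ K) 2]
    exact hC 2
  have hxx := T8a_ne hx x₀
  have hty := T8a_trans_y hx a b c hy
  have hyy := T8a_ne hty y₀
  have hxO : x ∈ O := by
    have h1 : x = (x - algebraMap ℂ K x₀) + algebraMap ℂ K x₀ := by ring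
    rw [h1]
    exact O.add_mem _ _ (T8a_mem hv (by omega)) (hC _)
  have hl0 : l ≠ 0 := by
    rintro rfl
    rw [zero_mul] at hl
    have h1 : y = algebraMap ℂ K (-y₀) := by
      rw [map_neg]
      linear_combination -hl
    exact hty (by rw [h1]; exact isAlgebraic_algebraMap _)
  have hvl : v l ≤ -1 := by
    by_cases hy₀ : y₀ = 0
    · have hd0 : 3 * x₀ ^ 2 + 2 * a * x₀ + b ≠ 0 := by
        refine hd x₀ ?_
        rw [← h₀, hy₀]
        ring
      have h5 := (T8a_add hv (x := algebraMap ℂ K (3 * x₀ ^ 2 + 2 * a * x₀ + b))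
        (y := (x - algebraMap ℂ K x₀) * (x + 2 * algebraMap ℂ K x₀ + algebraMap ℂ K a))
        ((map_ne_zero _).2 hd0) (by
          by_cases h6 : x + 2 * algebraMap ℂ K x₀ + algebraMap ℂ K a = 0
          · left
            rw [h6, mul_zero]
          · right
            have h7 : x + 2 * algebraMap ℂ K x₀ + algebraMap ℂ K a ∈ O :=
              O.add_mem _ _ (O.add_mem _ _ hxO (O.mul_mem _ _ c2 (hC _))) (hC _)
            have h8 := T8a_nonneg hv h7 h6
            rw [ord_const hO hv hd0, hv.map_mul hxx h6]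
            omega)).2
      rw [← hq, ord_const hO hv hd0, hv.map_mul hl0 hyy] at h5
      omega
    · have h4 : v (algebraMap ℂ K (2 * y₀)) = 0 := ord_const hO hv (mul_ne_zero two_ne_zero hy₀)
      have h5 := (T8a_add hv (x := algebraMap ℂ K (2 * y₀)) (y := y - algebraMap ℂ K y₀)
        ((map_ne_zero _).2 (mul_ne_zero two_ne_zero hy₀)) (Or.inr (by omega))).2
      have h6 : algebraMap ℂ K (2 * y₀) + (y - algebraMap ℂ K y₀) = y + algebraMap ℂ K y₀ := by
        simp only [map_mul, map_ofNat]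
        ring
      rw [h6, h4, ← hl, hv.map_mul hl0 hxx] at h5
      omega
  have h7 : h = l ^ 2 + -(algebraMap ℂ K a + x + algebraMap ℂ K x₀) := by
    rw [hh]
    ring
  have h8 : -(algebraMap ℂ K a + x + algebraMap ℂ K x₀) ∈ O :=
    O.neg_mem _ (O.add_mem _ _ (O.add_mem _ _ (hC a) hxO) (hC x₀))
  have h9 := (T8a_add hv (x := l ^ 2) (y := -(algebraMap ℂ K a + x + algebraMap ℂ K x₀))
    (pow_ne_zero 2 hl0) (by
      by_cases h10 : -(algebraMap ℂ K a + x + algebraMap ℂ K x₀) = 0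
      · exact Or.inl h10
      · right
        have h11 := T8a_nonneg hv h8 h10
        rw [hv.map_pow hl0]
        push_cast
        omega)).2
  rw [← h7, hv.map_pow hl0] at h9
  rw [h9]
  push_cast
  omega

/-- Translation by the point `(x₀, y₀)`. Proof. `l = (y + y₀) / (x - x₀)`, `h = l² - a - x - x₀`, `k = l (h - x₀) - y₀` (see the private lemmas
of sk/C1: the equation, `h` is transcendental). `l = (k + y₀) / (h - x₀)` and `x = l² - a - h - x₀`, `y = l (x - x₀) - y₀`.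
`2 y D y = (3 x² + 2 a x + b) D x` gives `(D h) y = - (D x) k` (`field_simp`, `linear_combination`; checked numerically). If
`v (x - x₀) ≥ 1` and `v (y - y₀) ≥ 1` then `v h < 0`: for `y₀ ≠ 0` `v (y + y₀) = 0`, so `v l < 0`, `v h = 2 v l`; for `y₀ = 0`
`2 v y = v (x - x₀)` (`x₀` is a simple root), `v l = - v y`. -/
theorem sl_translate {K : Type} [Field K] [Algebra ℂ K] (a b c : ℂ)
    (hd : ∀ x : ℂ, x ^ 3 + a * x ^ 2 + b * x + c = 0 → 3 * x ^ 2 + 2 * a * x + b ≠ 0) (x y : K)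
    (hx : Transcendental ℂ x)
    (hy : y ^ 2 = x ^ 3 + algebraMap ℂ K a * x ^ 2 + algebraMap ℂ K b * x + algebraMap ℂ K c)
    (x₀ y₀ : ℂ) (h₀ : y₀ ^ 2 = x₀ ^ 3 + a * x₀ ^ 2 + b * x₀ + c) :
    ∃ h k : K, Transcendental ℂ h ∧
      k ^ 2 = h ^ 3 + algebraMap ℂ K a * h ^ 2 + algebraMap ℂ K b * h + algebraMap ℂ K c ∧
      x ∈ FT ![h, k] ∧ y ∈ FT ![h, k] ∧ (∀ D : Derivation ℂ K K, D h * y = -(D x * k)) ∧
      ∀ (O : ValuationSubring K) (v : K → ℤ), IsPlace O → IsOrd O v →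
        1 ≤ v (x - algebraMap ℂ K x₀) → 1 ≤ v (y - algebraMap ℂ K y₀) → v h < 0 := by
  have hxx := T8a_ne hx x₀
  set l : K := (y + algebraMap ℂ K y₀) / (x - algebraMap ℂ K x₀) with hldef
  have hl : l * (x - algebraMap ℂ K x₀) = y + algebraMap ℂ K y₀ := div_mul_cancel₀ _ hxx
  clear_value l
  obtain ⟨h, hh⟩ : ∃ h : K, h = l ^ 2 - algebraMap ℂ K a - x - algebraMap ℂ K x₀ := ⟨_, rfl⟩
  obtain ⟨k, hk⟩ : ∃ k : K, k = l * (h - algebraMap ℂ K x₀) - algebraMap ℂ K y₀ := ⟨_, rfl⟩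
  have h1 := congrArg (algebraMap ℂ K) h₀
  simp only [map_add, map_mul, map_pow] at h1
  have hch := T8a_chord _ _ _ _ _ _ _ l h k hxx hl hh hk hy h1
  have hq := T8a_q hx a b c x₀ y₀ hy h₀ hl
  have hht : Transcendental ℂ h := T8a_trans a b c hd x y l h hx hy x₀ y₀ h₀ hl hh hq
  have hhx := T8a_ne hht x₀
  refine ⟨h, k, hht, hch, ?_, ?_, ?_, ?_⟩
  · exact (T8a_memFT a x₀ y₀ hh hk hl hhx).1
  · exact (T8a_memFT a x₀ y₀ hh hk hl hhx).2
  · intro D
    exact T8a_der a b c x₀ y₀ hxx hy hl hh hk hq D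
  · intro O v hO hv hvx hvy
    exact T8a_val hO hv hx a b c hd x₀ y₀ hy h₀ hl hh hq hvx hvy

end Pool.Agent.AbPencil
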