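import Pool.Agent.Lib_MP_1209e6_ab.Main2

/-! PIECE U1: rational functions with finitely many values on a fibre are constant along the orbits. -/

set_option autoImplicit false

open Filter Topology

namespace Pool.Agent.AbPencil

open Pool.Agent.Campana Pool.Agent.CampanaFlow Pool.Agent.AbFib MvPolynomial

private theorem u1_mero {σ : Type} (p : MvPolynomial σ ℂ) (f : ℂ → σ → ℂ) (z : ℂ)
    (h : ∀ i, MeromorphicAt (fun s => f s i) z) : MeromorphicAt (fun s => aeval (f s) p) z := by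
  induction p using MvPolynomial.induction_on with
  | C a =>
    have h2 : (fun s => aeval (f s) (C a : MvPolynomial σ ℂ)) = fun _ => a := by
      funext s
      simp
    rw [h2]
    exact MeromorphicAt.const a z
  | add p q hp hq =>
    have h2 : (fun s => aeval (f s) (p + q)) = (fun s => aeval (f s) p) + fun s => aeval (f s) q := by
      funext s
      simp
    rw [h2]
    exact hp.add hq
  | mul_X p i hp =>
    have h2 : (fun s => aeval (f s) (p * X i)) = (fun s => aeval (f s) p) * fun s => f s i := by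
      funext s
      simp
    rw [h2]
    exact hp.mul (h i)

private theorem u1_cont {σ : Type} (p : MvPolynomial σ ℂ) (f : ℂ → σ → ℂ) (z : ℂ)
    (h : ∀ i, ContinuousAt (fun s => f s i) z) : ContinuousAt (fun s => aeval (f s) p) z := by
  induction p using MvPolynomial.induction_on with
  | C a =>
    have h2 : (fun s => aeval (f s) (C a : MvPolynomial σ ℂ)) = fun _ => a := by
      funext s
      simp
    rw [h2]
    exact continuousAt_const
  | add p q hp hq =>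
    have h2 : (fun s => aeval (f s) (p + q)) = (fun s => aeval (f s) p) + fun s => aeval (f s) q := by
      funext s
      simp
    rw [h2]
    exact hp.add hq
  | mul_X p i hp =>
    have h2 : (fun s => aeval (f s) (p * X i)) = (fun s => aeval (f s) p) * fun s => f s i := by
      funext s
      simp
    rw [h2]
    exact hp.mul (h i)

private theorem u1_open (T : Set ℂ) : IsOpen {s₀ : ℂ | ∀ᶠ s in 𝓝[≠] s₀, s ∈ T} := by
  rw [isOpen_iff_mem_nhds]
  intro s₀ h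
  have h1 : ∀ᶠ s in 𝓝 s₀, s ≠ s₀ → s ∈ T := eventually_nhdsWithin_iff.1 h
  filter_upwards [eventually_eventually_nhds.2 h1] with s₁ h2
  by_cases he : s₁ = s₀
  · rw [he]
    exact h
  · have h3 : ∀ᶠ s in 𝓝 s₁, s ≠ s₀ := isOpen_ne.mem_nhds he
    have h4 : ∀ᶠ s in 𝓝 s₁, s ∈ T := by
      filter_upwards [h2, h3] with s h5 h6 using h5 h6
    exact h4.filter_mono nhdsWithin_le_nhds

private theorem u1_pm_eq {N : ℕ} {w w' : Fin (N + 1) → ℂ} (h : pm w = pm w') (h0 : w 0 = 1)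
    (h0' : w' 0 = 1) : w = w' := by
  obtain ⟨c, hc, rfl⟩ := pm_eq_iff.1 h
  have h1 : c * w' 0 = 1 := h0
  rw [h0', mul_one] at h1
  rw [h1, one_smul]

/-- Proof. Let `c s = Φ u (s τ) (pm v)` for `s ∈ ℂ`; it is `HolAt` at every `s` (`Φ.hol` with constant `u` and `a = pm v`, `τ s = s • τ`),
`c s ∈ Pts u` (`Φ.mem`), `c 0 = pm v`, `c 1 = pm v'`. Let `S` be the set of all `s` such that `c s = pm w` with `w 0 = 1`,
`B(u, w) ≠ 0` is impossible. With a local lift `V` (analytic, `V s ≠ 0`) near `s₀`, `s ∈ S` if and only if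
`b (V s) = 0` for a polynomial `b` (`change_chart`, or: `V s 0 ^ (d+1) * B(u, V s / V s 0)` is a polynomial in `V s`); so `S` is a
neighbourhood of `s₀`, or `s ∉ S` for all `s ≠ s₀` near `s₀` (`AnalyticAt.eventually_eq_zero_or_eventually_ne_zero`). The set of
the points of the second kind is open and closed and contains `0`, so it is `ℂ`; `S` is countable
(`countable_of_disc` in ab/F3), `ℂ ∖ S` is path connected (`Set.Countable.isPathConnected_compl_of_one_lt_rank`). On `ℂ ∖ S` the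
function `A(u, w) / B(u, w)`, `c s = pm w`, `w 0 = 1` (`w = V s / V s 0`) is continuous with values in the finite set `R`, so
constant; compare `s = 0` and `s = 1`. -/
theorem sl_orbit_const {K : Type} [Field K] [Algebra ℂ K] {n N g : ℕ} {F : Fam n N g K}
    (Φ : FlowAPI F) (u : Fin n → ℂ) (v : Fin (N + 1) → ℂ) (hv : v ∈ F.fib u) (hv0 : v 0 = 1)
    (τ : Fin g → ℂ) (v' : Fin (N + 1) → ℂ) (hv' : v' ∈ F.fib u) (hv0' : v' 0 = 1)
    (hΦ : Φ.Φ u τ (pm v) = pm v') (A B : MvPolynomial (Fin n ⊕ Fin (N + 1)) ℂ)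
    (hB : aeval (Sum.elim u v) B ≠ 0) (hB' : aeval (Sum.elim u v') B ≠ 0) (R : Set ℂ) (hR : R.Finite)
    (h : ∀ w ∈ F.fib u, w 0 = 1 → aeval (Sum.elim u w) B ≠ 0 →
      aeval (Sum.elim u w) A / aeval (Sum.elim u w) B ∈ R) :
    aeval (Sum.elim u v) A / aeval (Sum.elim u v) B =
      aeval (Sum.elim u v') A / aeval (Sum.elim u v') B := by
  classical
  obtain ⟨c, hcdef⟩ : ∃ c : ℂ → PS N, c = fun s => Φ.Φ u (s • τ) (pm v) := ⟨_, rfl⟩
  have hc0 : c 0 = pm v := by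
    rw [hcdef]
    change Φ.Φ u ((0 : ℂ) • τ) (pm v) = pm v
    rw [zero_smul]
    exact Φ.zero u _ ⟨v, hv, rfl⟩
  have hc1 : c 1 = pm v' := by
    rw [hcdef]
    change Φ.Φ u ((1 : ℂ) • τ) (pm v) = pm v'
    rw [one_smul]
    exact hΦ
  have hcm : ∀ s, c s ∈ F.Pts u := by
    intro s
    rw [hcdef]
    exact Φ.mem u _ _ ⟨v, hv, rfl⟩
  have hch : ∀ s, HolAt c s := by
    intro s
    rw [hcdef]
    refine Φ.hol (fun _ => u) (fun w => w • τ) (fun _ => pm v) s analyticAt_const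
      (analyticAt_id.smul analyticAt_const) ⟨⟨fun _ => v, analyticAt_const, hv.1, ?_⟩, ?_⟩
    · exact Eventually.of_forall fun _ => rfl
    · exact Eventually.of_forall fun _ => ⟨v, hv, rfl⟩
  -- the bad set
  obtain ⟨S, hS⟩ : ∃ S : Set ℂ, S = {s | ∀ w, c s = pm w → w 0 = 1 → aeval (Sum.elim u w) B = 0} :=
    ⟨_, rfl⟩
  have hSm : ∀ s, s ∉ S ↔ ∃ w, c s = pm w ∧ w 0 = 1 ∧ aeval (Sum.elim u w) B ≠ 0 := by
    intro s
    rw [hS]
    constructor
    · intro h1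
      by_contra h2
      apply h1
      intro w h3 h4
      by_contra h5
      exact h2 ⟨w, h3, h4, h5⟩
    · rintro ⟨w, h3, h4, h5⟩ h1
      exact h5 (h1 w h3 h4)
  have hcrit : ∀ (s : ℂ) (V : Fin (N + 1) → ℂ), c s = pm V →
      (s ∉ S ↔ V 0 * aeval (Sum.elim u ((V 0)⁻¹ • V)) B ≠ 0) := by
    intro s V hV
    rw [hSm]
    constructor
    · rintro ⟨w, h3, h4, h5⟩
      obtain ⟨k, hk, rfl⟩ := pm_eq_iff.1 (hV.symm.trans h3)
      have h6 : (k • w) 0 = k := by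
        change k * w 0 = k
        rw [h4, mul_one]
      rw [h6, smul_smul, inv_mul_cancel₀ hk, one_smul]
      exact mul_ne_zero hk h5
    · intro h3
      have h4 : V 0 ≠ 0 := left_ne_zero_of_mul h3
      refine ⟨(V 0)⁻¹ • V, ?_, ?_, right_ne_zero_of_mul h3⟩
      · rw [pm_smul (inv_ne_zero h4)]
        exact hV
      · exact inv_mul_cancel₀ h4
  have h0S : (0 : ℂ) ∉ S := (hSm 0).2 ⟨v, hc0, hv0, hB⟩
  have h1S : (1 : ℂ) ∉ S := (hSm 1).2 ⟨v', hc1, hv0', hB'⟩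
  -- local lifts
  have hloc : ∀ s₀, ∃ V : ℂ → Fin (N + 1) → ℂ, AnalyticAt ℂ V s₀ ∧ ∀ᶠ s in 𝓝 s₀, c s = pm (V s) := by
    intro s₀
    obtain ⟨V, h1, _, h2⟩ := hch s₀
    exact ⟨V, h1, h2⟩
  have hVi : ∀ (s₀ : ℂ) (V : ℂ → Fin (N + 1) → ℂ), AnalyticAt ℂ V s₀ → ∀ l,
      AnalyticAt ℂ (fun s => V s l) s₀ := by
    intro s₀ V hV l
    exact analyticAt_pi_iff.1 hV l
  have hdich : ∀ s₀, (∀ᶠ s in 𝓝[≠] s₀, s ∈ S) ∨ (∀ᶠ s in 𝓝[≠] s₀, s ∈ Sᶜ) := by
    intro s₀
    obtain ⟨V, hV, hcV⟩ := hloc s₀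
    have hm : MeromorphicAt (fun s => V s 0 * aeval (Sum.elim u ((V s 0)⁻¹ • V s)) B) s₀ := by
      refine (hVi s₀ V hV 0).meromorphicAt.mul (u1_mero B (fun s => Sum.elim u ((V s 0)⁻¹ • V s)) s₀ ?_)
      intro i
      cases i with
      | inl a => exact MeromorphicAt.const (u a) s₀
      | inr l => exact (hVi s₀ V hV 0).meromorphicAt.inv.mul (hVi s₀ V hV l).meromorphicAt
    rcases hm.eventually_eq_zero_or_eventually_ne_zero with h1 | h1
    · left
      filter_upwards [h1, hcV.filter_mono nhdsWithin_le_nhds] with s h2 h3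
      by_contra h4
      exact (hcrit s _ h3).1 h4 h2
    · right
      filter_upwards [h1, hcV.filter_mono nhdsWithin_le_nhds] with s h2 h3
      exact (hcrit s _ h3).2 h2
  have hfact : ∀ s₀, s₀ ∉ S → ∃ V : ℂ → Fin (N + 1) → ℂ, AnalyticAt ℂ V s₀ ∧ V s₀ 0 ≠ 0 ∧
      aeval (Sum.elim u ((V s₀ 0)⁻¹ • V s₀)) B ≠ 0 ∧ ∀ᶠ s in 𝓝 s₀, c s = pm (V s) := by
    intro s₀ hs
    obtain ⟨V, hV, hcV⟩ := hloc s₀
    have h1 := (hcrit s₀ _ hcV.self_of_nhds).1 hs
    exact ⟨V, hV, left_ne_zero_of_mul h1, right_ne_zero_of_mul h1, hcV⟩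
  have hcontP : ∀ (P : MvPolynomial (Fin n ⊕ Fin (N + 1)) ℂ) (s₀ : ℂ) (V : ℂ → Fin (N + 1) → ℂ),
      AnalyticAt ℂ V s₀ → V s₀ 0 ≠ 0 →
      ContinuousAt (fun s => aeval (Sum.elim u ((V s 0)⁻¹ • V s)) P) s₀ := by
    intro P s₀ V hV h0
    refine u1_cont P (fun s => Sum.elim u ((V s 0)⁻¹ • V s)) s₀ ?_
    intro i
    cases i with
    | inl a => exact continuousAt_const
    | inr l => exact ((hVi s₀ V hV 0).continuousAt.inv₀ h0).mul (hVi s₀ V hV l).continuousAt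
  have hopen : ∀ s₀, s₀ ∉ S → ∀ᶠ s in 𝓝 s₀, s ∈ Sᶜ := by
    intro s₀ hs
    obtain ⟨V, hV, hV0, hVB, hcV⟩ := hfact s₀ hs
    have h1 : ∀ᶠ s in 𝓝 s₀, V s 0 ≠ 0 := (hVi s₀ V hV 0).continuousAt.eventually_ne hV0
    have h2 : ∀ᶠ s in 𝓝 s₀, aeval (Sum.elim u ((V s 0)⁻¹ • V s)) B ≠ 0 :=
      (hcontP B s₀ V hV hV0).eventually_ne hVB
    filter_upwards [h1, h2, hcV] with s h3 h4 h5
    exact (hcrit s _ h5).2 (mul_ne_zero h3 h4)
  have hG : {s₀ : ℂ | ∀ᶠ s in 𝓝[≠] s₀, s ∈ Sᶜ} = Set.univ := by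
    refine IsClopen.eq_univ ⟨⟨?_⟩, u1_open Sᶜ⟩ ⟨0, (hopen 0 h0S).filter_mono nhdsWithin_le_nhds⟩
    have h1 : {s₀ : ℂ | ∀ᶠ s in 𝓝[≠] s₀, s ∈ Sᶜ}ᶜ = {s₀ : ℂ | ∀ᶠ s in 𝓝[≠] s₀, s ∈ S} := by
      ext s₀
      constructor
      · intro h2
        exact (hdich s₀).resolve_right h2
      · intro h2 h3
        have h2' : ∀ᶠ s in 𝓝[≠] s₀, s ∈ S := h2
        have h3' : ∀ᶠ s in 𝓝[≠] s₀, s ∈ Sᶜ := h3
        obtain ⟨s, h4, h5⟩ := (h2'.and h3').exists
        exact h5 h4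
    rw [h1]
    exact u1_open S
  have hcount : S.Countable := by
    refine countable_of_disc S fun z => ?_
    have h1 : z ∈ {s₀ : ℂ | ∀ᶠ s in 𝓝[≠] s₀, s ∈ Sᶜ} := by
      rw [hG]
      trivial
    exact h1
  have hpc : IsPreconnected Sᶜ := by
    refine (Set.Countable.isPathConnected_compl_of_one_lt_rank ?_ hcount).isConnected.isPreconnected
    rw [Complex.rank_real_complex]
    norm_num
  -- the values
  obtain ⟨val, hval⟩ : ∃ val : ℂ → ℂ, ∀ s w, c s = pm w → w 0 = 1 →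
      val s = aeval (Sum.elim u w) A / aeval (Sum.elim u w) B := by
    refine ⟨fun s => if h : ∃ w, c s = pm w ∧ w 0 = 1 then
      aeval (Sum.elim u h.choose) A / aeval (Sum.elim u h.choose) B else 0, ?_⟩
    intro s w h1 h2
    have h3 : ∃ w, c s = pm w ∧ w 0 = 1 := ⟨w, h1, h2⟩
    change (if h : ∃ w, c s = pm w ∧ w 0 = 1 then
      aeval (Sum.elim u h.choose) A / aeval (Sum.elim u h.choose) B else 0) = _
    rw [dif_pos h3]
    have h4 : h3.choose = w := u1_pm_eq (h3.choose_spec.1.symm.trans h1) h3.choose_spec.2 h2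
    rw [h4]
  have hcont : ContinuousOn val Sᶜ := by
    intro s₀ hs
    obtain ⟨V, hV, hV0, hVB, hcV⟩ := hfact s₀ hs
    have h1 : ∀ᶠ s in 𝓝 s₀, V s 0 ≠ 0 := (hVi s₀ V hV 0).continuousAt.eventually_ne hV0
    have h2 : val =ᶠ[𝓝 s₀] fun s => aeval (Sum.elim u ((V s 0)⁻¹ • V s)) A /
        aeval (Sum.elim u ((V s 0)⁻¹ • V s)) B := by
      filter_upwards [h1, hcV] with s h3 h4
      refine hval s _ ?_ (inv_mul_cancel₀ h3)
      rw [pm_smul (inv_ne_zero h3)]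
      exact h4
    have h3 : ContinuousAt (fun s => aeval (Sum.elim u ((V s 0)⁻¹ • V s)) A /
        aeval (Sum.elim u ((V s 0)⁻¹ • V s)) B) s₀ :=
      (hcontP A s₀ V hV hV0).div (hcontP B s₀ V hV hV0) hVB
    exact (h3.congr h2.symm).continuousWithinAt
  have hmaps : Set.MapsTo val Sᶜ R := by
    intro s hs
    obtain ⟨w, h3, h4, h5⟩ := (hSm s).1 hs
    rw [hval s w h3 h4]
    refine h w ?_ h4 h5
    have h6 := hcm s
    rw [h3] at h6
    exact F.pm_mem_iff.1 h6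
  have hdis : IsDiscrete R := by
    rw [isDiscrete_iff_discreteTopology]
    have := hR.to_subtype
    infer_instance
  have hfin := hpc.constant_of_mapsTo hdis hcont hmaps h0S h1S
  rw [hval 0 v hc0 hv0, hval 1 v' hc1 hv0'] at hfin
  exact hfin

end Pool.Agent.AbPencil
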